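import Mathlib
import Pool.Agent.H61.TT.Area
import Pool.Agent.H91.CS.TCST
import Pool.Agent.H80.AJ.Distort

/-!
# Fixed points of an operator `φ ↦ ∑ (g_i')² φ ∘ g_i`, the images of `A` under the `g_i` being disjoint

`flat_abs`: equality in the triangle inequality holds at every point; almost every point of `A` with `φ ≠ 0` is in the image of a `g_i`.
`flat_rho`: if `A` is connected and `φ` is not zero then `(g_i')² φ ∘ g_i = ρ_i φ` with constants `ρ_i > 0`.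
-/

set_option autoImplicit false

open Filter Topology Metric Set MeasureTheory
open scoped ComplexConjugate

namespace Pool.Agent.H1.PU

/-- equality in the triangle inequality for series -/
theorem eq_case {ι : Type*} {F : ι → ℂ} (hn : Summable fun i => ‖F i‖)
    (he : ∑' i, ‖F i‖ = ‖∑' i, F i‖) (i : ι) :
    F i * conj (∑' j, F j) = ((‖F i‖ * ‖∑' j, F j‖ : ℝ) : ℂ) := by
  set S : ℂ := ∑' j, F j with hS
  have hF : HasSum F S := hn.of_norm.hasSum
  have h1 : HasSum (fun i => F i * conj S) (S * conj S) := hF.mul_right _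
  have h2 : HasSum (fun i => (F i * conj S).re) (S * conj S).re := Complex.hasSum_re h1
  have h3 : (S * conj S).re = ‖S‖ * ‖S‖ := by
    rw [Complex.mul_conj, Complex.ofReal_re, Complex.normSq_eq_norm_sq, sq]
  have h4 : HasSum (fun i => ‖F i‖ * ‖S‖) (‖S‖ * ‖S‖) := by
    have h5 := hn.hasSum.mul_right ‖S‖
    rwa [he] at h5
  rw [h3] at h2
  have h5 : HasSum (fun i => ‖F i‖ * ‖S‖ - (F i * conj S).re) 0 := by
    have := h4.sub h2
    rwa [sub_self] at this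
  have h6 : ∀ j, 0 ≤ ‖F j‖ * ‖S‖ - (F j * conj S).re := by
    intro j
    have h7 : (F j * conj S).re ≤ ‖F j * conj S‖ := Complex.re_le_norm _
    rw [norm_mul, Complex.norm_conj] at h7
    linarith
  have h7 := (hasSum_zero_iff_of_nonneg h6).1 h5
  have h8 : ‖F i‖ * ‖S‖ - (F i * conj S).re = 0 := congrFun h7 i
  have h9 : ‖F i * conj S‖ = ‖F i‖ * ‖S‖ := by rw [norm_mul, Complex.norm_conj]
  have h10 : (F i * conj S).re = ‖F i * conj S‖ := by rw [h9]; linarith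
  have h11 : (F i * conj S).im = 0 := by
    have := Complex.re_eq_norm.1 h10
    exact (Complex.nonneg_iff.1 this).2.symm
  apply Complex.ext
  · rw [h10, h9, Complex.ofReal_re]
  · rw [h11, Complex.ofReal_im]

/-- change of variables for an injective holomorphic function -/
theorem cov {g : ℂ → ℂ} {A : Set ℂ} (hA : IsOpen A) (hg : DifferentiableOn ℂ g A)
    (hi : InjOn g A) (F : ℂ → ENNReal) :
    ∫⁻ x in g '' A, F x = ∫⁻ x in A, ENNReal.ofReal (‖deriv g x‖ ^ 2) * F (g x) := by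
  rw [lintegral_image_eq_lintegral_abs_det_fderiv_mul volume hA.measurableSet
    (f' := fun y => (ContinuousLinearMap.smulRight (1 : ℂ →L[ℂ] ℂ) (deriv g y)).restrictScalars ℝ)]
  · refine setLIntegral_congr_fun hA.measurableSet ?_
    intro y hy
    beta_reduce
    rw [Pool.Agent.H61.TT.abs_det_smulRight]
  · intro y hy
    exact (((hg.differentiableAt (hA.mem_nhds hy)).hasDerivAt.hasFDerivAt).restrictScalars
      ℝ).hasFDerivWithinAt
  · exact hi

theorem open_im {g : ℂ → ℂ} {A : Set ℂ} (hA : IsOpen A) (hg : DifferentiableOn ℂ g A)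
    (hi : InjOn g A) : MeasurableSet (g '' A) :=
  hA.measurableSet.image_of_continuousOn_injOn hg.continuousOn hi

theorem flat_abs {ι : Type*} [Countable ι] {A : Set ℂ} (hA : IsOpen A) (hAv : volume A ≠ ⊤)
    {g : ι → ℂ → ℂ} (hg : ∀ i, DifferentiableOn ℂ (g i) A) (hi : ∀ i, InjOn (g i) A)
    (hm : ∀ i, MapsTo (g i) A A) (hd : Pairwise fun i j => Disjoint (g i '' A) (g j '' A))
    {φ : ℂ → ℂ} {M : ℝ} (hφ : DifferentiableOn ℂ φ A) (hM : ∀ w ∈ A, ‖φ w‖ ≤ M)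
    (hs : ∀ w ∈ A, Summable fun i => ‖deriv (g i) w ^ 2 * φ (g i w)‖)
    (hfx : ∀ w ∈ A, φ w = ∑' i, deriv (g i) w ^ 2 * φ (g i w)) :
    (∀ i, ∀ w ∈ A, (deriv (g i) w ^ 2 * φ (g i w)) * conj (φ w) =
      ((‖deriv (g i) w ^ 2 * φ (g i w)‖ * ‖φ w‖ : ℝ) : ℂ)) ∧
    ∀ᵐ w : ℂ, w ∈ A → φ w ≠ 0 → ∃ i, w ∈ g i '' A := by
  have hAm := hA.measurableSet
  have hdc : ∀ i, ContinuousOn (deriv (g i)) A := fun i =>
    ((hg i).deriv hA).continuousOn
  have hFc : ∀ i, ContinuousOn (fun w => deriv (g i) w ^ 2 * φ (g i w)) A := fun i =>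
    ((hdc i).pow 2).mul (hφ.continuousOn.comp (hg i).continuousOn (hm i))
  -- the chain of inequalities
  have h1 : ∀ i, ∫⁻ w in g i '' A, ENNReal.ofReal ‖φ w‖ =
      ∫⁻ w in A, ENNReal.ofReal ‖deriv (g i) w ^ 2 * φ (g i w)‖ := by
    intro i
    rw [cov hA (hg i) (hi i)]
    refine setLIntegral_congr_fun hAm fun w hw => ?_
    rw [norm_mul, norm_pow, ENNReal.ofReal_mul (by positivity)]
  have h2 : ∑' i, ∫⁻ w in g i '' A, ENNReal.ofReal ‖φ w‖ =
      ∫⁻ w in ⋃ i, g i '' A, ENNReal.ofReal ‖φ w‖ :=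
    (lintegral_iUnion (fun i => open_im hA (hg i) (hi i)) hd _).symm
  have h3 : ∫⁻ w in A, ∑' i, ENNReal.ofReal ‖deriv (g i) w ^ 2 * φ (g i w)‖ =
      ∑' i, ∫⁻ w in A, ENNReal.ofReal ‖deriv (g i) w ^ 2 * φ (g i w)‖ := by
    refine lintegral_tsum fun i => ?_
    exact (ENNReal.measurable_ofReal.comp_aemeasurable ((hFc i).norm.aemeasurable hAm))
  have hUA : (⋃ i, g i '' A) ⊆ A := iUnion_subset fun i => (hm i).image_subset
  have h4 : ∫⁻ w in ⋃ i, g i '' A, ENNReal.ofReal ‖φ w‖ ≤ ∫⁻ w in A, ENNReal.ofReal ‖φ w‖ :=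
    lintegral_mono_set hUA
  have h5 : ∀ w ∈ A, ENNReal.ofReal ‖φ w‖ ≤
      ∑' i, ENNReal.ofReal ‖deriv (g i) w ^ 2 * φ (g i w)‖ := by
    intro w hw
    rw [← ENNReal.ofReal_tsum_of_nonneg (fun _ => norm_nonneg _) (hs w hw), hfx w hw]
    exact ENNReal.ofReal_le_ofReal (norm_tsum_le_tsum_norm (hs w hw))
  have hfin : ∫⁻ w in A, ENNReal.ofReal ‖φ w‖ ≠ ⊤ := by
    have h6 : ∫⁻ w in A, ENNReal.ofReal ‖φ w‖ ≤ ∫⁻ _ in A, ENNReal.ofReal M :=
      setLIntegral_mono' hAm fun w hw => ENNReal.ofReal_le_ofReal (hM w hw)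
    rw [setLIntegral_const] at h6
    exact ne_top_of_le_ne_top (ENNReal.mul_ne_top ENNReal.ofReal_ne_top hAv) h6
  have h6 : ∫⁻ w in A, ∑' i, ENNReal.ofReal ‖deriv (g i) w ^ 2 * φ (g i w)‖ ≤
      ∫⁻ w in A, ENNReal.ofReal ‖φ w‖ := by
    rw [h3, ← tsum_congr h1, h2]
    exact h4
  have hφm : AEMeasurable (fun w => ENNReal.ofReal ‖φ w‖) (volume.restrict A) :=
    ENNReal.measurable_ofReal.comp_aemeasurable (hφ.continuousOn.norm.aemeasurable hAm)
  have hFm : AEMeasurable (fun w => ∑' i, ENNReal.ofReal ‖deriv (g i) w ^ 2 * φ (g i w)‖)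
      (volume.restrict A) :=
    AEMeasurable.tsum fun i =>
      ENNReal.measurable_ofReal.comp_aemeasurable ((hFc i).norm.aemeasurable hAm)
  have h7 : (fun w => ENNReal.ofReal ‖φ w‖) =ᵐ[volume.restrict A]
      fun w => ∑' i, ENNReal.ofReal ‖deriv (g i) w ^ 2 * φ (g i w)‖ :=
    ae_eq_of_ae_le_of_lintegral_le ((ae_restrict_iff' hAm).2 (Eventually.of_forall h5)) hfin
      hFm h6
  constructor
  · intro i
    have h8 : ∀ᵐ w ∂(volume.restrict A), (deriv (g i) w ^ 2 * φ (g i w)) * conj (φ w) =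
        ((‖deriv (g i) w ^ 2 * φ (g i w)‖ * ‖φ w‖ : ℝ) : ℂ) := by
      have h9 : ∀ᵐ w ∂(volume.restrict A), w ∈ A := ae_restrict_mem hAm
      filter_upwards [h7, h9] with w hw hwA
      rw [← ENNReal.ofReal_tsum_of_nonneg (fun _ => norm_nonneg _) (hs w hwA)] at hw
      have h10 : ‖φ w‖ = ∑' i, ‖deriv (g i) w ^ 2 * φ (g i w)‖ :=
        (ENNReal.ofReal_eq_ofReal_iff (norm_nonneg _)
          (tsum_nonneg fun _ => norm_nonneg _)).1 hw
      have h11 := eq_case (hs w hwA) (by rw [← hfx w hwA]; exact h10.symm) i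
      rw [← hfx w hwA] at h11
      exact h11
    intro w hw
    -- continuity
    have hc1 : ContinuousOn (fun w => (deriv (g i) w ^ 2 * φ (g i w)) * conj (φ w)) A :=
      (hFc i).mul (Complex.continuous_conj.comp_continuousOn hφ.continuousOn)
    have hc2 : ContinuousOn (fun w => ((‖deriv (g i) w ^ 2 * φ (g i w)‖ * ‖φ w‖ : ℝ) : ℂ)) A :=
      Complex.continuous_ofReal.comp_continuousOn ((hFc i).norm.mul hφ.continuousOn.norm)
    exact Measure.eqOn_of_ae_eq h8 hc1 hc2 (by rw [hA.interior_eq]; exact subset_closure) hw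
  · -- the complement of the images
    have hVm : MeasurableSet (⋃ i, g i '' A) :=
      MeasurableSet.iUnion fun i => open_im hA (hg i) (hi i)
    have h8 : ∫⁻ w in A, ENNReal.ofReal ‖φ w‖ ≤ ∫⁻ w in ⋃ i, g i '' A, ENNReal.ofReal ‖φ w‖ := by
      rw [← h2, tsum_congr h1, ← h3]
      exact setLIntegral_mono' hAm h5
    have h9 : ∫⁻ w in A, ENNReal.ofReal ‖φ w‖ =
        (∫⁻ w in ⋃ i, g i '' A, ENNReal.ofReal ‖φ w‖) +
          ∫⁻ w in A \ ⋃ i, g i '' A, ENNReal.ofReal ‖φ w‖ := by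
      rw [← lintegral_union (hAm.diff hVm) disjoint_sdiff_right, union_sdiff_self,
        union_eq_self_of_subset_left hUA]
    have hVfin : ∫⁻ w in ⋃ i, g i '' A, ENNReal.ofReal ‖φ w‖ ≠ ⊤ :=
      ne_top_of_le_ne_top hfin h4
    have h10 : ∫⁻ w in A \ ⋃ i, g i '' A, ENNReal.ofReal ‖φ w‖ = 0 := by
      rw [h9] at h8
      have h11 : (∫⁻ w in ⋃ i, g i '' A, ENNReal.ofReal ‖φ w‖) +
          ∫⁻ w in A \ ⋃ i, g i '' A, ENNReal.ofReal ‖φ w‖ ≤
          (∫⁻ w in ⋃ i, g i '' A, ENNReal.ofReal ‖φ w‖) + 0 := by rw [add_zero]; exact h8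
      exact le_antisymm ((ENNReal.add_le_add_iff_left hVfin).1 h11) zero_le
    have hφm' : AEMeasurable (fun w => ENNReal.ofReal ‖φ w‖)
        (volume.restrict (A \ ⋃ i, g i '' A)) := hφm.mono_set sdiff_subset
    rw [lintegral_eq_zero_iff' hφm'] at h10
    have h11 := (ae_restrict_iff' (hAm.diff hVm)).1 h10
    filter_upwards [h11] with w hw hwA hne
    by_contra hno
    have h12 := hw ⟨hwA, fun h => hno (mem_iUnion.1 h)⟩
    have h13 : ENNReal.ofReal ‖φ w‖ = 0 := h12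
    rw [ENNReal.ofReal_eq_zero] at h13
    exact hne (norm_le_zero_iff.1 h13)

/-- holomorphic functions which agree near a point agree on a connected open set -/
theorem ident {A : Set ℂ} (hA : IsOpen A) (hc : IsPreconnected A) {F G : ℂ → ℂ}
    (hF : DifferentiableOn ℂ F A) (hG : DifferentiableOn ℂ G A) {w : ℂ} (hw : w ∈ A)
    (h : ∀ᶠ z in 𝓝 w, F z = G z) : ∀ z ∈ A, F z = G z :=
  (hF.analyticOnNhd hA).eqOn_of_preconnected_of_eventuallyEq (hG.analyticOnNhd hA) hc hw h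

/-- the image of an open ball under an injective holomorphic function is open -/
theorem open_ib {g : ℂ → ℂ} {w : ℂ} {r : ℝ} (hr : 0 < r) (hg : DifferentiableOn ℂ g (ball w r))
    (hi : InjOn g (ball w r)) {T : Set ℂ} (hT : IsOpen T) (hTs : T ⊆ ball w r) :
    IsOpen (g '' T) := by
  rcases (hg.analyticOnNhd isOpen_ball).is_constant_or_isOpen (convex_ball w r).isPreconnected with
    ⟨z, hz⟩ | h1
  · exfalso
    have h2 : w + ((r / 2 : ℝ) : ℂ) ∈ ball w r := by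
      rw [mem_ball, dist_eq_norm, add_sub_cancel_left, Complex.norm_real, Real.norm_eq_abs,
        abs_of_pos (by positivity)]
      linarith
    have h3 := hi h2 (mem_ball_self hr) (by rw [hz _ h2, hz _ (mem_ball_self hr)])
    have h4 : ((r / 2 : ℝ) : ℂ) = 0 := by linear_combination h3
    have h5 : r / 2 = 0 := by exact_mod_cast h4
    linarith
  · exact h1 T hTs hT

theorem flat_rho {A : Set ℂ} (hA : IsOpen A) (hc : IsPreconnected A) {g : ℂ → ℂ}
    (hg : DifferentiableOn ℂ g A) (hi : InjOn g A) (hm : MapsTo g A A) {φ : ℂ → ℂ}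
    (hφ : DifferentiableOn ℂ φ A) (hne : ∃ w ∈ A, φ w ≠ 0)
    (h : ∀ w ∈ A, (deriv g w ^ 2 * φ (g w)) * conj (φ w) =
      ((‖deriv g w ^ 2 * φ (g w)‖ * ‖φ w‖ : ℝ) : ℂ)) :
    ∃ ρ : ℝ, 0 < ρ ∧ ∀ w ∈ A, deriv g w ^ 2 * φ (g w) = ρ * φ w := by
  obtain ⟨w1, hw1, hφ1⟩ := hne
  have hdc : DifferentiableOn ℂ (deriv g) A := hg.deriv hA
  have hF : DifferentiableOn ℂ (fun w => deriv g w ^ 2 * φ (g w)) A :=
    (hdc.pow 2).mul (hφ.comp hg hm)
  -- a ball around `w1` without zeros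
  have ho : IsOpen (A ∩ φ ⁻¹' {z : ℂ | z ≠ 0}) :=
    hφ.continuousOn.isOpen_inter_preimage hA isOpen_ne
  obtain ⟨r, hr, hb⟩ := Metric.isOpen_iff.1 ho w1 ⟨hw1, hφ1⟩
  have hbA : ball w1 r ⊆ A := fun z hz => (hb hz).1
  have hbφ : ∀ z ∈ ball w1 r, φ z ≠ 0 := fun z hz => (hb hz).2
  have hq : ∀ z ∈ ball w1 r, deriv g z ^ 2 * φ (g z) / φ z =
      ((‖deriv g z ^ 2 * φ (g z)‖ / ‖φ z‖ : ℝ) : ℂ) := by
    intro z hz
    have h1 := h z (hbA hz)
    have h2 := hbφ z hz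
    have h3 : conj (φ z) ≠ 0 := fun h0 => h2 ((map_eq_zero _).1 h0)
    have h4 : (‖φ z‖ : ℝ) ≠ 0 := norm_ne_zero_iff.2 h2
    have h4' : ((‖φ z‖ : ℝ) : ℂ) ≠ 0 := by exact_mod_cast h4
    have h5 : φ z * conj (φ z) = ((‖φ z‖ : ℝ) : ℂ) * ((‖φ z‖ : ℝ) : ℂ) := by
      rw [Complex.mul_conj, Complex.normSq_eq_norm_sq]
      push_cast
      ring
    rw [div_eq_iff h2]
    apply mul_right_cancel₀ h3
    rw [h1, mul_assoc, h5]
    push_cast
    field_simp
  obtain ⟨l, hl⟩ := Pool.Agent.H91.CS.real_const isOpen_ball (convex_ball w1 r).isPreconnected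
    (g := fun z => deriv g z ^ 2 * φ (g z) / φ z) ((hF.mono hbA).div (hφ.mono hbA) hbφ)
    (Eventually.of_forall fun y hy => by rw [hq y hy, Complex.ofReal_im])
  have hl1 : l = ((‖deriv g w1 ^ 2 * φ (g w1)‖ / ‖φ w1‖ : ℝ) : ℂ) := by
    rw [← hl w1 (mem_ball_self hr), hq w1 (mem_ball_self hr)]
  set ρ : ℝ := ‖deriv g w1 ^ 2 * φ (g w1)‖ / ‖φ w1‖ with hρ
  have hall : ∀ w ∈ A, deriv g w ^ 2 * φ (g w) = ρ * φ w := by
    refine ident hA hc hF ((differentiableOn_const _).mul hφ) hw1 ?_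
    filter_upwards [isOpen_ball.mem_nhds (mem_ball_self (x := w1) hr)] with z hz
    have h1 := hl z hz
    rw [hl1, div_eq_iff (hbφ z hz)] at h1
    exact h1
  refine ⟨ρ, ?_, hall⟩
  have hρ0 : 0 ≤ ρ := by positivity
  refine lt_of_le_of_ne hρ0 fun h0 => hφ1 ?_
  -- if `ρ = 0` then `φ = 0` on an open set
  have hr2 : 0 < r / 2 := by positivity
  have hsub : ball w1 (r / 2) ⊆ ball w1 r := ball_subset_ball (by linarith)
  have hop : IsOpen (g '' ball w1 (r / 2)) :=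
    open_ib hr (hg.mono hbA) (hi.mono hbA) isOpen_ball hsub
  have hz0 : ∀ z ∈ g '' ball w1 (r / 2), φ z = 0 := by
    rintro _ ⟨u, hu, rfl⟩
    have h1 := hall u (hbA (hsub hu))
    rw [← h0, Complex.ofReal_zero, zero_mul, mul_eq_zero] at h1
    rcases h1 with h1 | h1
    · exfalso
      have h2 := Pool.Agent.H80.AJ.deriv_ne hr (hg.mono hbA) (hi.mono hbA)
        (ball_subset_closedBall hu)
      rw [pow_eq_zero_iff two_ne_zero] at h1
      rw [h1, norm_zero] at h2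
      exact lt_irrefl _ h2
    · exact h1
  have hgw : g w1 ∈ g '' ball w1 (r / 2) := ⟨w1, mem_ball_self hr2, rfl⟩
  exact ident hA hc hφ (differentiableOn_const (0 : ℂ)) (hm hw1)
    (by filter_upwards [hop.mem_nhds hgw] with z hz using hz0 z hz) w1 hw1

end Pool.Agent.H1.PU
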