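import Pool.Agent.H1.PU.Bas

/-!
# Module BraA: the branches (existence, uniqueness)

All from module `Bas`.
-/

set_option autoImplicit false

open Filter Topology Polynomial OnePoint Metric Set MeasureTheory

namespace Pool.Agent.H1.PU

open Pool.Agent.H44.Fatou Pool.Agent.H32.BT Pool.Agent.H80.AJ Pool.Agent.H35.EX Pool.Agent.H61.TT

variable {d : ℕ} {P Q : Polynomial ℂ} {PA : Set (OnePoint ℂ)} {c : ℂ} {s : ℝ}

theorem PSys.mono (h : PSys d P Q PA c s) {s' : ℝ} (h0 : 0 < s') (h1 : s' ≤ s) : PSys d P Q PA c s' := by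
  refine ⟨h.sys, h.rd, h.z0, h.z1, h.fc, h0, fun u hu => h.off u (ball_subset_ball ?_ hu)⟩
  unfold rho
  have := KK_pos
  gcongr

/-- the points `f^i (br p u)`, `i ≤ n`, are not in `PA` (in particular finite, different from `0`, `1`, and not critical for `i < n`) -/
theorem br_orb (h : PSys d P Q PA c s) {p : ℕ × ℂ} (hp : p ∈ IX P Q c) {u : ℂ} (hu : u ∈ ball c (rho s)) {i : ℕ}
    (hi : i ≤ p.1) : (rat P Q)^[i] (br P Q c s p u : OnePoint ℂ) ∉ PA := by
  refine pre_off h hu (m := p.1 - i) ?_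
  rw [← Function.iterate_add_apply, Nat.sub_add_cancel hi]
  exact br_inv h hp hu

theorem br_uniq (h : PSys d P Q PA c s) {p : ℕ × ℂ} (hp : p ∈ IX P Q c) {V : Set ℂ} (hV : V ⊆ ball c (rho s))
    (hVc : IsPreconnected V) {G : ℂ → ℂ} (hG : ContinuousOn G V)
    (hinv : ∀ u ∈ V, (rat P Q)^[p.1] (G u : OnePoint ℂ) = (u : OnePoint ℂ)) {u0 : ℂ} (hu0 : u0 ∈ V)
    (h0 : G u0 = br P Q c s p u0) : EqOn G (br P Q c s p) V := by
  intro u hu
  have h1 := uni_on (br_spec h hp) hVc hV (g := fun u => (G u : OnePoint ℂ))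
    (continuous_coe.comp_continuousOn hG) hinv hu0 (congrArg _ h0) u hu
  exact OnePoint.coe_injective h1

/-- every preimage of a point of the ball is a value of a branch -/
theorem br_thr (h : PSys d P Q PA c s) {n : ℕ} {z u : ℂ} (hu : u ∈ ball c (rho s))
    (hz : (rat P Q)^[n] (z : OnePoint ℂ) = (u : OnePoint ℂ)) :
    ∃ y : ℂ, (n, y) ∈ IX P Q c ∧ br P Q c s (n, y) u = z := by
  obtain ⟨y, hy, he⟩ := fibre h hu hz
  exact ⟨y, hy, (OnePoint.coe_injective he).symm⟩

theorem br_zero (h : PSys d P Q PA c s) : EqOn (br P Q c s (0, c)) id (ball c (rho s)) := by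
  intro u hu
  have h1 := br_inv h (show ((0 : ℕ), c) ∈ IX P Q c from rfl) hu
  exact OnePoint.coe_injective h1

end Pool.Agent.H1.PU
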