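import Pool.Agent.H1.PU.BraB
import Pool.Agent.H61.TT.Fib

/-!
# Module BraC: the fibre of `f` over a value of a branch

PROOFS. `br_reg`: `w = br (n, y) u ∉ PA`; the point `∞` is not in the fibre (`f ∞ ∈ PA`), so `fib P Q w` has degree `d`; a point of the fibre is not critical (critical values are in `PA`), so the roots are simple and `card = d` (use `ww`, `crit_coe`, the proofs in H61/TT/Fib).
`fib_ix`: `f y' = y`. `fib_img`: `y' ↦ br (n + 1, y') u` maps `fs P Q y` into `fs P Q (br (n, y) u)` (`br_it` with `i = 1`), it is injective (two branches with a common value are equal, `br_uniq`, so their values at `c` agree), both sets have `d` elements.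
`br_der`: differentiate `gg (br (n + 1, y') u) = br (n, y) u` (`hasDerivAt_gg`).
-/

set_option autoImplicit false

open Filter Topology Polynomial OnePoint Metric Set MeasureTheory

namespace Pool.Agent.H1.PU

open Pool.Agent.H44.Fatou Pool.Agent.H32.BT Pool.Agent.H80.AJ Pool.Agent.H35.EX Pool.Agent.H61.TT

variable {d : ℕ} {P Q : Polynomial ℂ} {PA : Set (OnePoint ℂ)} {c : ℂ} {s : ℝ}

variable {n : ℕ} {y y' u : ℂ}

/-- points which are not in `PA` are regular values -/
theorem reg_off (h : PSys d P Q PA c s) {x : ℂ} (hx : (x : OnePoint ℂ) ∉ PA) : RegV d P Q x := by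
  have hrd := h.rd
  have hA : P.natDegree ≤ d := hrd.deg ▸ le_max_left _ _
  have hB : Q.natDegree ≤ d := hrd.deg ▸ le_max_right _ _
  have hcoef : (fib P Q x).coeff d ≠ 0 := by
    unfold fib
    rw [coeff_sub, coeff_C_mul]
    intro h0
    have h1 : P.coeff d = x * Q.coeff d := sub_eq_zero.1 h0
    have hdg : Pool.Agent.H44.Fatou.dg P Q = d := hrd.deg
    have hq : Q.coeff d ≠ 0 := by
      intro hq
      rcases coeff_dg hrd.cop with h2 | h2
      · rw [hdg, h1, hq, mul_zero] at h2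
        exact h2 rfl
      · rw [hdg] at h2
        exact h2 hq
    apply hx
    have h2 : rat P Q ∞ = (x : OnePoint ℂ) := by
      rw [rat_infty, hdg, h1]
      unfold pt
      rw [if_neg hq, mul_div_cancel_right₀ _ hq]
    rw [← h2]
    exact h.sys.inv _ h.sys.inf
  have hdeg : (fib P Q x).natDegree = d := by
    apply le_antisymm
    · unfold fib
      exact (natDegree_sub_le _ _).trans (max_le hA ((natDegree_C_mul_le _ _).trans hB))
    · exact le_natDegree_of_ne_zero hcoef
  have hb : ∀ y ∈ fs P Q x, Q.eval y ≠ 0 := fun y hy => ((mem_fs hrd x y).1 hy).1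
  have hw : ∀ y ∈ fs P Q x, (ww P Q).eval y ≠ 0 := by
    intro y hy h0
    obtain ⟨h1, h2⟩ := (mem_fs hrd x y).1 hy
    have h3 : IsCrit (rat P Q) (y : OnePoint ℂ) := crit_of_wr h.sys.cop h.sys.deg h0
    have h4 := h.sys.crit _ h3
    rw [rat_coe_of_ne h1] at h4
    apply hx
    rw [← h2]
    exact h4
  refine ⟨hdeg, ?_, hb, hw⟩
  have hsep : (fib P Q x).Separable := by
    unfold Separable
    rw [isCoprime_iff_aeval_ne_zero_of_isAlgClosed ℂ ℂ]
    intro y
    rw [coe_aeval_eq_eval]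
    by_contra hcon
    push Not at hcon
    have hy : y ∈ fs P Q x := by
      unfold fs
      rw [Multiset.mem_toFinset, mem_roots (fib_ne hrd x)]
      exact hcon.1
    have h1 := dg_fib hrd hy
    have hcon2 : (derivative (fib P Q x)).eval y = 0 := hcon.2
    rw [hcon2, zero_div] at h1
    exact (dg_ne (hb y hy)).2 (hw y hy) h1
  unfold fs
  rw [Multiset.toFinset_card_of_nodup (nodup_roots hsep), ← hdeg]
  exact (IsAlgClosed.splits (fib P Q x)).natDegree_eq_card_roots.symm

theorem br_reg (h : PSys d P Q PA c s) (hp : (n, y) ∈ IX P Q c) (hu : u ∈ ball c (rho s)) :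
    RegV d P Q (br P Q c s (n, y) u) := reg_off h (br_off h hp hu)

/-- one step back -/
theorem ix_step (h : PSys d P Q PA c s) : (n + 1, y') ∈ IX P Q c ↔
    Q.eval y' ≠ 0 ∧ (n, gg P Q y') ∈ IX P Q c := by
  constructor
  · intro hp
    have hp' : (rat P Q)^[n] (rat P Q (y' : OnePoint ℂ)) = (c : OnePoint ℂ) := by
      rw [← Function.iterate_succ_apply (rat P Q)]
      exact hp
    have h1 := pre_fin h (c_mem h) hp'
    obtain ⟨z, hz⟩ := h1
    have hb : Q.eval y' ≠ 0 := by
      intro h0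
      rw [rat_coe, h0] at hz
      unfold pt at hz
      rw [if_pos rfl] at hz
      exact OnePoint.infty_ne_coe _ hz
    rw [rat_coe_of_ne hb] at hp'
    exact ⟨hb, hp'⟩
  · rintro ⟨hb, hp⟩
    show (rat P Q)^[n + 1] (y' : OnePoint ℂ) = (c : OnePoint ℂ)
    rw [Function.iterate_succ_apply, rat_coe_of_ne hb]
    exact hp

theorem fib_ix (h : PSys d P Q PA c s) (hp : (n, y) ∈ IX P Q c) (hy' : y' ∈ fs P Q y) :
    (n + 1, y') ∈ IX P Q c ∧ Q.eval y' ≠ 0 ∧ gg P Q y' = y := by
  obtain ⟨h1, h2⟩ := (mem_fs h.rd y y').1 hy'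
  refine ⟨?_, h1, h2⟩
  rw [ix_step h, h2]
  exact ⟨h1, hp⟩

theorem br_der (h : PSys d P Q PA c s) (hp : (n + 1, y') ∈ IX P Q c) (hu : u ∈ ball c (rho s)) :
    Q.eval y' ≠ 0 ∧ (n, gg P Q y') ∈ IX P Q c ∧ Q.eval (br P Q c s (n + 1, y') u) ≠ 0 ∧
      dg P Q (br P Q c s (n + 1, y') u) ≠ 0 ∧
      gg P Q (br P Q c s (n + 1, y') u) = br P Q c s (n, gg P Q y') u ∧
      dg P Q (br P Q c s (n + 1, y') u) * deriv (br P Q c s (n + 1, y')) u =
        deriv (br P Q c s (n, gg P Q y')) u := by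
  obtain ⟨hb, hp'⟩ := (ix_step h).1 hp
  refine ⟨hb, hp', ?_⟩
  have hstep : ∀ v ∈ ball c (rho s), Q.eval (br P Q c s (n + 1, y') v) ≠ 0 ∧
      gg P Q (br P Q c s (n + 1, y') v) = br P Q c s (n, gg P Q y') v := by
    intro v hv
    obtain ⟨z, hz1, -, hz3⟩ := pre h hp (i := 1) (show 1 ≤ n + 1 by omega)
    have h1 := hz3 v hv
    rw [Function.iterate_one] at h1 hz1
    have hz1' : rat P Q (y' : OnePoint ℂ) = (z : OnePoint ℂ) := hz1
    rw [rat_coe_of_ne hb] at hz1'
    have hz4 : gg P Q y' = z := OnePoint.coe_injective hz1'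
    have hb2 : Q.eval (br P Q c s (n + 1, y') v) ≠ 0 := by
      intro h0
      rw [rat_coe, h0] at h1
      unfold pt at h1
      rw [if_pos rfl] at h1
      exact OnePoint.infty_ne_coe _ h1
    refine ⟨hb2, ?_⟩
    rw [rat_coe_of_ne hb2] at h1
    rw [hz4]
    exact OnePoint.coe_injective h1
  obtain ⟨h1, h2⟩ := hstep u hu
  have h3 : dg P Q (br P Q c s (n + 1, y') u) ≠ 0 := by
    rw [dg_ne h1]
    have h4 := (br_reg h hp' hu).hw (br P Q c s (n + 1, y') u) ((mem_fs h.rd _ _).2 ⟨h1, h2⟩)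
    exact h4
  refine ⟨h1, h3, h2, ?_⟩
  have h5 : HasDerivAt (br P Q c s (n + 1, y')) (deriv (br P Q c s (n + 1, y')) u) u :=
    ((br_diff h hp).differentiableAt (isOpen_ball.mem_nhds hu)).hasDerivAt
  have h6 := (hasDerivAt_gg (a := P) h1).comp u h5
  have h7 : (fun v => gg P Q (br P Q c s (n + 1, y') v)) =ᶠ[𝓝 u] br P Q c s (n, gg P Q y') := by
    filter_upwards [isOpen_ball.mem_nhds hu] with v hv
    exact (hstep v hv).2
  rw [← h7.deriv_eq]
  exact h6.deriv.symm

theorem fib_img (h : PSys d P Q PA c s) (hp : (n, y) ∈ IX P Q c) (hu : u ∈ ball c (rho s)) :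
    fs P Q (br P Q c s (n, y) u) = (fs P Q y).image (fun y' => br P Q c s (n + 1, y') u) ∧
      InjOn (fun y' => br P Q c s (n + 1, y') u) (fs P Q y : Set ℂ) := by
  have hsub : (fs P Q y).image (fun y' => br P Q c s (n + 1, y') u) ⊆
      fs P Q (br P Q c s (n, y) u) := by
    intro z hz
    obtain ⟨y', hy', rfl⟩ := Finset.mem_image.1 hz
    obtain ⟨h1, h2, h3⟩ := fib_ix h hp hy'
    obtain ⟨-, -, h4, -, h5, -⟩ := br_der h h1 hu
    rw [mem_fs h.rd]
    rw [h3] at h5
    exact ⟨h4, h5⟩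
  have hinj : InjOn (fun y' => br P Q c s (n + 1, y') u) (fs P Q y : Set ℂ) := by
    intro z hz z' hz' he
    obtain ⟨h1, -, -⟩ := fib_ix h hp hz
    obtain ⟨h2, -, -⟩ := fib_ix h hp hz'
    have h3 := same h h1 h2 rfl hu he
    exact congrArg Prod.snd h3
  refine ⟨?_, hinj⟩
  symm
  apply Finset.eq_of_subset_of_card_le hsub
  rw [Finset.card_image_of_injOn hinj, (br_reg h hp hu).card]
  have h4 := br_reg h hp (c_mem h)
  rw [br_c h hp] at h4
  rw [h4.card]

end Pool.Agent.H1.PU
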