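import Pool.Agent.H1.PU.Ent

/-!
# Module Cty: continuity of `EA` in the parameter

PROOF. `EA a x - EA v x = ∑ (br p)'(x)^2 (KA a - KA v)(br p x)` (`ea_bd`: both sums converge), the terms are `≤ ‖(br p)'(x)‖^2 KD a v (br p x)` (`ka_sub`; `br p x ≠ 0, 1, a, v`), `ee_maj` with `F = KD a v`, `M = CK` (`kd_cmp`), `kd_int` with `ε / (C CK + 1)`.
-/

set_option autoImplicit false

open Filter Topology Polynomial OnePoint Metric Set MeasureTheory

namespace Pool.Agent.H1.PU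

open Pool.Agent.H44.Fatou Pool.Agent.H32.BT Pool.Agent.H80.AJ Pool.Agent.H35.EX Pool.Agent.H61.TT

variable {d : ℕ} {P Q : Polynomial ℂ} {PA : Set (OnePoint ℂ)} {c : ℂ} {s : ℝ}

variable {A : Set ℂ}

theorem kd_nonneg (a v y : ℂ) : 0 ≤ KD a v y := by
  unfold KD
  positivity

theorem ea_cont (h : PSys d P Q PA c s) (hA : Nice P Q c s A) {v : ℂ} (hv : v ∈ LAM P Q c s) (h0 : v ≠ 0)
    (h1 : v ≠ 1) {ε : ℝ} (hε : 0 < ε) :
    ∃ η : ℝ, 0 < η ∧ ∀ a ∈ LAM P Q c s, ‖a - v‖ < η →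
      ∀ x ∈ ball c (6 * s), ‖EA P Q c s A a x - EA P Q c s A v x‖ ≤ ε := by
  have hs := h.s0
  obtain ⟨C, hC, hmaj⟩ := ee_maj h hA
  obtain ⟨C', -, hbd⟩ := ea_bd h hA
  have hCK := CK_pos
  have hA6 : A ⊆ ball c (6 * s) := hA.As.trans (ball_subset_ball (by linarith))
  have h68 : ball c (6 * s) ⊆ ball c (8 * s) := ball_subset_ball (by linarith)
  have hε' : 0 < ε / (C * CK + 1) := by positivity
  obtain ⟨η, hη, hk⟩ := kd_int h0 h1 hε'
  refine ⟨η, hη, fun a ha hav x hx => ?_⟩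
  obtain ⟨hi, hint⟩ := hk a hav
  obtain ⟨u, hu1, hu2, hu3⟩ := hmaj (KD a v) CK hi (kd_nonneg a v) hCK.le
    (fun p hp x hx z hz => kd_cmp h ha hv hp.1 hx (hA6 hz))
  obtain ⟨-, ua, hua1, hua2⟩ := hbd a ha
  obtain ⟨-, uv, huv1, huv2⟩ := hbd v hv
  have hsa : Summable fun p : EE P Q c A => deriv (br P Q c s p.1) x ^ 2 * KA a (br P Q c s p.1 x) :=
    Summable.of_norm_bounded hua1 (fun p => hua2 p x hx)
  have hsv : Summable fun p : EE P Q c A => deriv (br P Q c s p.1) x ^ 2 * KA v (br P Q c s p.1 x) :=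
    Summable.of_norm_bounded huv1 (fun p => huv2 p x hx)
  have hb : ∀ p : EE P Q c A, ‖deriv (br P Q c s p.1) x ^ 2 * KA a (br P Q c s p.1 x) -
      deriv (br P Q c s p.1) x ^ 2 * KA v (br P Q c s p.1 x)‖ ≤ u p := by
    intro p
    rw [← mul_sub, norm_mul, norm_pow]
    refine le_trans ?_ (hu3 p x hx)
    refine mul_le_mul_of_nonneg_left ?_ (by positivity)
    refine ka_sub ?_ ?_ ?_ ?_
    · intro he
      exact mem_PA_nim h h.z0 p.2.1 ⟨x, h68 hx, he⟩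
    · intro he
      exact mem_PA_nim h h.z1 p.2.1 ⟨x, h68 hx, he⟩
    · intro he
      exact lam_nim h ha p.2.1 ⟨x, h68 hx, he⟩
    · intro he
      exact lam_nim h hv p.2.1 ⟨x, h68 hx, he⟩
  have h2 : EA P Q c s A a x - EA P Q c s A v x = ∑' p : EE P Q c A,
      (deriv (br P Q c s p.1) x ^ 2 * KA a (br P Q c s p.1 x) -
        deriv (br P Q c s p.1) x ^ 2 * KA v (br P Q c s p.1 x)) := by
    unfold EA
    rw [hsa.tsum_sub hsv]
  rw [h2]
  calc ‖∑' p : EE P Q c A, (deriv (br P Q c s p.1) x ^ 2 * KA a (br P Q c s p.1 x) -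
        deriv (br P Q c s p.1) x ^ 2 * KA v (br P Q c s p.1 x))‖
      ≤ ∑' p, u p := tsum_of_norm_bounded hu1.hasSum hb
    _ ≤ C * CK * ∫ y, KD a v y := hu2
    _ ≤ C * CK * (ε / (C * CK + 1)) := mul_le_mul_of_nonneg_left hint (by positivity)
    _ ≤ ε := by
      rw [mul_div_assoc', div_le_iff₀ (by positivity)]
      nlinarith

end Pool.Agent.H1.PU
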