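import Pool.Agent.H1.PU.Defs
import Pool.Agent.H61.TT.Surj
import Pool.Agent.H47.NN.Defs

/-!
# THEOREM P, unified version: the data of the final step

`VB v x0`: bounded velocities of all points whose orbits land at `x0`. `PD2`: the planar data: a critical point `c ∈ J` with infinite orbit, `c ∉ PA`; `x 0 ∈ J` on a repelling cycle which is not in `PA`.
-/

set_option autoImplicit false

open Filter Topology Polynomial OnePoint Metric Set MeasureTheory

namespace Pool.Agent.H1.PU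

open Pool.Agent.H44.Fatou Pool.Agent.H32.BT Pool.Agent.H80.AJ Pool.Agent.H35.EX Pool.Agent.H61.TT
open Pool.Agent.H79.Eul Pool.Agent.H79.Par Pool.Agent.H47.NN

/-- bounded velocities of the points whose orbits land at `x0` -/
def VB {d : ℕ} (v : E d) (x0 : ℂ) : Prop :=
  ∀ w : E d, ∃ C : ℝ, ∀ (k : ℕ) (z : ℕ → ℂ),
    (∀ i, (pol v.2).eval (z i) ≠ 0 ∧ z (i + 1) = gg (pol v.1) (pol v.2) (z i)) → z k = x0 →
    ∃ u : ℕ → ℂ, (∀ i, u (i + 1) = dg (pol v.1) (pol v.2) (z i) * u i + xi v w (z i)) ∧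
      ∀ i, ‖u i‖ ≤ C * (1 + ‖z i‖ ^ 2)

/-- the planar data of stage 2 -/
structure PD2 {d : ℕ} (v : E d) (PA : Set (OnePoint ℂ)) (c : ℂ) (s : ℝ) (J : Set (OnePoint ℂ)) (p : ℕ)
    (x : ℕ → ℂ) (m : ℂ) : Prop where
  sys : PSys d (pol v.1) (pol v.2) PA c s
  crt : Crt (pol v.1) (pol v.2) c
  jp : JP (pol v.1) (pol v.2) c J
  hp : 0 < p
  cyc : Cyc (pol v.1) (pol v.2) p x m
  rep : 1 < ‖m‖
  xJ : (x 0 : OnePoint ℂ) ∈ J
  xPA : (x 0 : OnePoint ℂ) ∉ PA

end Pool.Agent.H1.PU
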