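import Pool.Agent.H35.EX.AJ.Basic
import Pool.Agent.H61.TT.Defs
import Pool.Agent.H80.AJ.Cover
import Pool.Agent.H80.AJ.Distort

/-!
# THEOREM P, unified version (all rational maps): definitions

`f = P / Q` of degree `d ≥ 2`, `PA` a closed forward invariant subset of the sphere which contains the critical values and the three marks `0`, `1`, `∞`
(in the application: the post-critical set and three repelling cycles); `ball c (rho s)` does not meet `PA`. All inverse branches of all iterates are univalent on this ball.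

* `IX`: the index set of the branches: pairs `(n, y)` with `f^n y = c`; `br P Q c s (n, y)`: the branch of `f^(-n)` on `ball c (rho s)` with `c ↦ y`.
* `Nice`: `A` is a nice neighbourhood of `c`: `ball c s ⊆ A ⊆ ball c (11/10 s)`, open, connected; a branch which maps a point of `A` into `A` maps `A` into `A`.
* `EE` (first entries): `f^i y ∉ A` for `i < n`. `RR` (returns): `n ≥ 1`, `y ∈ A`. `R1` (first returns): `n ≥ 1`, `y ∈ A`, `f^i y ∉ A` for `0 < i < n`.
  So `{(n+1, y) : (n, f y) ∈ EE} = (EE - {(0, c)}) ∪ R1` by definition.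
* `LAM`: the points of the plane whose orbits never visit `ball c (8 s)`.
* `KA a y = a (a - 1) / (y (y - 1) (y - a))`: the normalised kernel (`1/(y-a) + (a-1)/y - a/(y-1)`).
* `EA a x = ∑_(p ∈ EE) (br p)'(x)^2 KA a (br p x)`: a function of `x ∈ ball c (6 s)`.
* `Lop g φ x = ∑ i, (g i)'(x)^2 φ (g i x)` (H50/ST/OPA), here for the family `g1` of the branches in `R1`.
-/

set_option autoImplicit false

open Filter Topology Polynomial OnePoint Metric Set MeasureTheory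

namespace Pool.Agent.H1.PU

open Pool.Agent.H44.Fatou Pool.Agent.H32.BT Pool.Agent.H80.AJ Pool.Agent.H35.EX Pool.Agent.H61.TT

/-- the radius of the large ball -/
noncomputable def rho (s : ℝ) : ℝ := 131072 * KK * s

/-- the setting: `f = P / Q`, `PA` closed, forward invariant, contains critical values and marks, and does not meet `ball c (rho s)` -/
structure PSys (d : ℕ) (P Q : Polynomial ℂ) (PA : Set (OnePoint ℂ)) (c : ℂ) (s : ℝ) : Prop where
  sys : Sys0 P Q PA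
  rd : RatD d P Q
  z0 : ((0 : ℂ) : OnePoint ℂ) ∈ PA
  z1 : ((1 : ℂ) : OnePoint ℂ) ∈ PA
  fc : rat P Q (c : OnePoint ℂ) ∈ PA
  s0 : 0 < s
  off : Off PA c (rho s)

/-- `c` is a critical point with infinite orbit, `f c` is not one of the marks, and the orbits of `c` and `∞` do not meet -/
structure Crt (P Q : Polynomial ℂ) (c : ℂ) : Prop where
  w : (ww P Q).eval c = 0
  inf : ∀ m n : ℕ, m < n → (rat P Q)^[m] (c : OnePoint ℂ) ≠ (rat P Q)^[n] (c : OnePoint ℂ)
  v0 : gg P Q c ≠ 0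
  v1 : gg P Q c ≠ 1
  ninf : ∀ m n : ℕ, (rat P Q)^[m] (c : OnePoint ℂ) ≠ (rat P Q)^[n] ∞

/-- the Julia set (only what is needed): fully invariant, contains `c`, and the images of every disc centred at a point of `J` cover `J` -/
structure JP (P Q : Polynomial ℂ) (c : ℂ) (J : Set (OnePoint ℂ)) : Prop where
  inv : ∀ z, z ∈ J ↔ rat P Q z ∈ J
  tr : ∀ z1 : ℂ, (z1 : OnePoint ℂ) ∈ J → ∀ z2 ∈ J, ∀ ε : ℝ, 0 < ε →
    ∃ (m : ℕ) (u : ℂ), u ∈ ball z1 ε ∧ (rat P Q)^[m] (u : OnePoint ℂ) = z2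
  cJ : (c : OnePoint ℂ) ∈ J

/-- the index set of all branches -/
def IX (P Q : Polynomial ℂ) (c : ℂ) : Set (ℕ × ℂ) :=
  {p | (rat P Q)^[p.1] (p.2 : OnePoint ℂ) = (c : OnePoint ℂ)}

open Classical in
/-- the branch of index `p` on `ball c (rho s)` -/
noncomputable def br (P Q : Polynomial ℂ) (c : ℂ) (s : ℝ) (p : ℕ × ℂ) : ℂ → ℂ :=
  if h : ∃ G, Br (rat P Q) p.1 c (rho s) p.2 G then h.choose else id

/-- a nice neighbourhood of `c` -/
structure Nice (P Q : Polynomial ℂ) (c : ℂ) (s : ℝ) (A : Set ℂ) : Prop where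
  Ao : IsOpen A
  Ac : IsPreconnected A
  bA : ball c s ⊆ A
  As : A ⊆ ball c (11 / 10 * s)
  nice : ∀ p ∈ IX P Q c, ∀ u ∈ A, br P Q c s p u ∈ A → MapsTo (br P Q c s p) A A

/-- the orbit of `y` avoids `A` at the times `i` with `m ≤ i < n` -/
def Av (P Q : Polynomial ℂ) (A : Set ℂ) (m n : ℕ) (y : ℂ) : Prop :=
  ∀ i, m ≤ i → i < n → ∀ u ∈ A, (rat P Q)^[i] (y : OnePoint ℂ) ≠ (u : OnePoint ℂ)

/-- first entries -/
def EE (P Q : Polynomial ℂ) (c : ℂ) (A : Set ℂ) : Set (ℕ × ℂ) :=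
  {p | p ∈ IX P Q c ∧ Av P Q A 0 p.1 p.2}

/-- returns -/
def RR (P Q : Polynomial ℂ) (c : ℂ) (A : Set ℂ) : Set (ℕ × ℂ) :=
  {p | p ∈ IX P Q c ∧ 1 ≤ p.1 ∧ p.2 ∈ A}

/-- first returns -/
def R1 (P Q : Polynomial ℂ) (c : ℂ) (A : Set ℂ) : Set (ℕ × ℂ) :=
  {p | p ∈ IX P Q c ∧ 1 ≤ p.1 ∧ p.2 ∈ A ∧ Av P Q A 1 p.1 p.2}

/-- the family of the first return branches -/
noncomputable def g1 (P Q : Polynomial ℂ) (c : ℂ) (s : ℝ) (A : Set ℂ) (p : R1 P Q c A) : ℂ → ℂ :=
  br P Q c s p.1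

/-- the points whose orbits never visit `ball c (8 s)` -/
def LAM (P Q : Polynomial ℂ) (c : ℂ) (s : ℝ) : Set ℂ :=
  {a | ∀ (n : ℕ) (u : ℂ), u ∈ ball c (8 * s) → (rat P Q)^[n] (a : OnePoint ℂ) ≠ (u : OnePoint ℂ)}

/-- the normalised kernel -/
noncomputable def KA (a y : ℂ) : ℂ := a * (a - 1) / (y * (y - 1) * (y - a))

/-- the sum over the first entries -/
noncomputable def EA (P Q : Polynomial ℂ) (c : ℂ) (s : ℝ) (A : Set ℂ) (a x : ℂ) : ℂ :=
  ∑' p : EE P Q c A, deriv (br P Q c s p.1) x ^ 2 * KA a (br P Q c s p.1 x)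

end Pool.Agent.H1.PU
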