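import Pool.Agent.H1.PU.Defs

/-!
# Module Ker: the normalised kernel (Mathlib only)

`KA a y = a (a - 1) / (y (y - 1) (y - a))`; `KD a v y`: majorant of `|KA a y - KA v y|`.

PROOFS. `ka_sub`: `KA a y - KA v y = (a - v) (y (a + v - 1) - a v) / (y (y - 1) (y - a) (y - v))` for `y ≠ 0, 1, a, v` (field_simp, ring). `ka_int`: for `a = 0, 1` the kernel is `0`; otherwise simple poles at three points and `O(|y|^(-3))` at infinity (`far_ker` in H31/CP/Far, or the integrability of `‖y - p‖⁻¹` on balls and of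
`(1 + ‖y‖)^(-3)` on the plane, `integrable_one_add_norm`). `kd_int`: `a` close to `v ≠ 0, 1`: near `0`, `1` and infinity `KD a v ≤ C ‖a - v‖ (‖y‖⁻¹, ‖y - 1‖⁻¹, ‖y‖^(-3))`; near `v`: `‖a - v‖ / (‖y - a‖ ‖y - v‖) ≤ ‖a - v‖^(1/2) (‖y - a‖^(-3/2) + ‖y - v‖^(-3/2)) * 2`
(because `‖a - v‖^(1/2) ≤ ‖y - a‖^(1/2) + ‖y - v‖^(1/2)`).
-/

set_option autoImplicit false

open Filter Topology Polynomial OnePoint Metric Set MeasureTheory

namespace Pool.Agent.H1.PU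

open Pool.Agent.H44.Fatou Pool.Agent.H32.BT Pool.Agent.H80.AJ Pool.Agent.H35.EX Pool.Agent.H61.TT

variable {d : ℕ} {P Q : Polynomial ℂ} {PA : Set (OnePoint ℂ)} {c : ℂ} {s : ℝ}

/-- majorant of the difference of two kernels -/
noncomputable def KD (a v y : ℂ) : ℝ :=
  ‖a - v‖ * (‖y‖ * ‖a + v - 1‖ + ‖a * v‖) / (‖y‖ * ‖y - 1‖ * ‖y - a‖ * ‖y - v‖)

private theorem ker_sq {x : ℝ} (hx : 0 < x) : √x * √x = x := Real.mul_self_sqrt hx.le

/-- the basic integrable function -/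
private noncomputable def B0 (r : ℝ) : ℝ := 1 / (r * √r * (1 + r))

private theorem B0_nonneg {r : ℝ} (h : 0 ≤ r) : 0 ≤ B0 r := by
  unfold B0
  positivity

private theorem B0_meas : Measurable B0 := by
  unfold B0
  fun_prop

private theorem B0_int : Integrable (fun y : ℂ => B0 ‖y‖) := by
  have h0 := integrable_fun_norm_addHaar (E := ℂ) (F := ℝ) volume (f := B0)
  rw [h0, Complex.finrank_real_complex]
  have h1 : ∀ y : ℝ, 0 < y → y ^ (2 - 1) • B0 y = 1 / (√y * (1 + y)) := by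
    intro y hy
    unfold B0
    have h2 : √y ≠ 0 := (Real.sqrt_pos.2 hy).ne'
    have h3 : (1 + y) ≠ 0 := by positivity
    rw [smul_eq_mul, show (2 - 1 : ℕ) = 1 by norm_num, pow_one]
    field_simp
  have h2 : IntegrableOn (fun y : ℝ => 1 / (√y * (1 + y))) (Ioc 0 1) := by
    have h3 : IntegrableOn (fun y : ℝ => y ^ (-(1 / 2) : ℝ)) (Ioc 0 1) := by
      have h4 : IntervalIntegrable (fun y : ℝ => y ^ (-(1 / 2) : ℝ)) volume 0 1 :=
        intervalIntegral.intervalIntegrable_rpow' (by norm_num)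
      rwa [intervalIntegrable_iff_integrableOn_Ioc_of_le zero_le_one] at h4
    refine h3.mono' (Measurable.aestronglyMeasurable (by fun_prop)) ?_
    refine (ae_restrict_iff' measurableSet_Ioc).2 (Eventually.of_forall fun y hy => ?_)
    have hy0 : 0 < y := hy.1
    have hs : 0 < √y := Real.sqrt_pos.2 hy0
    rw [Real.norm_eq_abs, abs_of_nonneg (by positivity), Real.rpow_neg hy0.le, ← Real.sqrt_eq_rpow,
      one_div]
    refine inv_anti₀ hs ?_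
    nlinarith
  have h3 : IntegrableOn (fun y : ℝ => 1 / (√y * (1 + y))) (Ioi 1) := by
    have h4 : IntegrableOn (fun y : ℝ => y ^ (-(3 / 2) : ℝ)) (Ioi 1) :=
      integrableOn_Ioi_rpow_of_lt (by norm_num) one_pos
    refine h4.mono' (Measurable.aestronglyMeasurable (by fun_prop)) ?_
    refine (ae_restrict_iff' measurableSet_Ioi).2 (Eventually.of_forall fun y hy => ?_)
    have hy0 : 0 < y := lt_trans one_pos hy
    have hs : 0 < √y := Real.sqrt_pos.2 hy0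
    rw [Real.norm_eq_abs, abs_of_nonneg (by positivity), Real.rpow_neg hy0.le, one_div]
    refine inv_anti₀ (Real.rpow_pos_of_pos hy0 _) ?_
    have h5 : y ^ (3 / 2 : ℝ) = y * √y := by
      rw [Real.sqrt_eq_rpow, show (3 / 2 : ℝ) = 1 + 1 / 2 by norm_num, Real.rpow_add hy0, Real.rpow_one]
    rw [h5]
    nlinarith
  have h4 : IntegrableOn (fun y : ℝ => 1 / (√y * (1 + y))) (Ioi 0) := by
    rw [← Ioc_union_Ioi_eq_Ioi zero_le_one]
    exact h2.union h3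
  exact h4.congr_fun (fun y hy => (h1 y hy).symm) measurableSet_Ioi

private theorem B0_shift (e : ℂ) : Integrable (fun y : ℂ => B0 ‖y - e‖) :=
  B0_int.comp_sub_right e

private theorem B0_shift_int (e : ℂ) : ∫ y : ℂ, B0 ‖y - e‖ = ∫ y : ℂ, B0 ‖y‖ :=
  integral_sub_right_eq_self (fun y : ℂ => B0 ‖y‖) e

private theorem ker_one {r0 r1 : ℝ} (h0 : 0 < r0) (h1 : 0 < r1) (h2 : 1 ≤ r0 + r1) (h4 : r1 ≤ r0 + 1) :
    1 / (r0 * r1 * √(1 + r0)) ≤ 2 * B0 r0 + 4 * B0 r1 := by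
  have hs0 : 0 < √(1 + r0) := Real.sqrt_pos.2 (by positivity)
  have hs1 : 0 < √(1 + r1) := Real.sqrt_pos.2 (by positivity)
  have e0 := ker_sq h0
  have e1 := ker_sq h1
  have q0 : 0 < √r0 := Real.sqrt_pos.2 h0
  have q1 : 0 < √r1 := Real.sqrt_pos.2 h1
  have a0 : √r0 ≤ √(1 + r0) := Real.sqrt_le_sqrt (by linarith)
  have a1 : √r1 ≤ √(1 + r1) := Real.sqrt_le_sqrt (by linarith)
  have a2 : √(1 + r1) ≤ 2 * √(1 + r0) := by
    have h5 : √(1 + r1) ≤ √(4 * (1 + r0)) := Real.sqrt_le_sqrt (by linarith)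
    rwa [Real.sqrt_mul (by norm_num), show √(4 : ℝ) = 2 by
      rw [show (4 : ℝ) = 2 ^ 2 by norm_num]; exact Real.sqrt_sq (by norm_num)] at h5
  have e2 : 1 / (r0 * r1 * √(1 + r0)) = 1 / (r0 * (r0 + r1) * √(1 + r0)) +
      1 / (r1 * (r0 + r1) * √(1 + r0)) := by
    have : r0 + r1 ≠ 0 := by positivity
    field_simp
    ring
  have e3 : 1 / (r0 * (r0 + r1) * √(1 + r0)) ≤ 2 * B0 r0 := by
    unfold B0
    rw [mul_one_div, div_le_div_iff₀ (by positivity) (by positivity)]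
    have h5 : r0 * √r0 * (1 + r0) ≤ r0 * √(1 + r0) * (2 * (r0 + r1)) := by
      refine mul_le_mul (mul_le_mul_of_nonneg_left a0 h0.le) (by linarith) (by positivity) (by positivity)
    linarith
  have e4 : 1 / (r1 * (r0 + r1) * √(1 + r0)) ≤ 4 * B0 r1 := by
    unfold B0
    rw [mul_one_div, div_le_div_iff₀ (by positivity) (by positivity)]
    have h5 : r1 * √r1 * (1 + r1) ≤ r1 * (2 * √(1 + r0)) * (2 * (r0 + r1)) := by
      refine mul_le_mul (mul_le_mul_of_nonneg_left (a1.trans a2) h1.le) (by linarith) (by positivity) (by positivity)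
    linarith
  rw [e2]
  linarith

/-- the key bound -/
private theorem ker_key {m R : ℝ} (hm : 0 < m) (hR : 0 ≤ R) : ∃ C : ℝ, 0 ≤ C ∧ ∀ r0 r1 r : ℝ,
    0 < r0 → 0 < r1 → 0 < r → 1 ≤ r0 + r1 → r1 ≤ r0 + 1 → m ≤ r0 + r → m ≤ r1 + r → r0 ≤ r + R →
      (1 + r0) / (r0 * r1) * (1 / (r * √r)) ≤ C * (B0 r0 + B0 r1 + B0 r) := by
  obtain ⟨κ, hκ⟩ : ∃ κ, κ = (1 + R) * (2 / m) + 1 := ⟨_, rfl⟩
  have hκ0 : 0 < κ := by rw [hκ]; positivity
  refine ⟨(2 / m + 1) * (2 / m) * (1 + m / 2) + κ * √κ * 4, by positivity, ?_⟩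
  intro r0 r1 r h0 h1 h h2 h4 h5 h6 h7
  have b0 := B0_nonneg h0.le
  have b1 := B0_nonneg h1.le
  have b := B0_nonneg h.le
  have hs : 0 < √r := Real.sqrt_pos.2 h
  by_cases hc : r ≤ m / 2
  · have g0 : m / 2 ≤ r0 := by linarith
    have g1 : m / 2 ≤ r1 := by linarith
    have k1 : (1 + r0) / (r0 * r1) ≤ (2 / m + 1) * (2 / m) := by
      have k2 : (1 + r0) / (r0 * r1) = (1 / r0 + 1) * (1 / r1) := by field_simp
      rw [k2]
      have k3 : 1 / r0 ≤ 2 / m := by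
        rw [div_le_div_iff₀ h0 hm]; linarith
      have k4 : 1 / r1 ≤ 2 / m := by
        rw [div_le_div_iff₀ h1 hm]; linarith
      exact mul_le_mul (by linarith) k4 (by positivity) (by positivity)
    have k2 : 1 / (r * √r) ≤ (1 + m / 2) * B0 r := by
      unfold B0
      rw [mul_one_div, div_le_div_iff₀ (by positivity) (by positivity)]
      have : r * √r * (1 + r) ≤ r * √r * (1 + m / 2) := mul_le_mul_of_nonneg_left (by linarith) (by positivity)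
      linarith
    calc (1 + r0) / (r0 * r1) * (1 / (r * √r)) ≤ ((2 / m + 1) * (2 / m)) * ((1 + m / 2) * B0 r) :=
          mul_le_mul k1 k2 (by positivity) (by positivity)
      _ = ((2 / m + 1) * (2 / m) * (1 + m / 2)) * B0 r := by ring
      _ ≤ ((2 / m + 1) * (2 / m) * (1 + m / 2) + κ * √κ * 4) * B0 r :=
          mul_le_mul_of_nonneg_right (by have : 0 ≤ κ * √κ * 4 := by positivity
                                         linarith) b
      _ ≤ _ := mul_le_mul_of_nonneg_left (by linarith) (by positivity)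
  · have hc' : m / 2 < r := not_le.1 hc
    have hk : 1 + r0 ≤ κ * r := by
      have k1 : 1 ≤ 2 / m * r := by
        rw [div_mul_eq_mul_div, le_div_iff₀ hm]; linarith
      have k2 : (1 + R) * 1 ≤ (1 + R) * (2 / m * r) := mul_le_mul_of_nonneg_left k1 (by positivity)
      rw [hκ]
      nlinarith
    have hk2 : (1 + r0) * √(1 + r0) ≤ (κ * √κ) * (r * √r) := by
      have k1 : √(1 + r0) ≤ √κ * √r := by
        rw [← Real.sqrt_mul hκ0.le]
        exact Real.sqrt_le_sqrt hk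
      calc (1 + r0) * √(1 + r0) ≤ (κ * r) * (√κ * √r) := mul_le_mul hk k1 (Real.sqrt_nonneg _) (by positivity)
        _ = _ := by ring
    have hs0 : 0 < √(1 + r0) := Real.sqrt_pos.2 (by positivity)
    have k1 : (1 + r0) / (r0 * r1) * (1 / (r * √r)) ≤ κ * √κ * (1 / (r0 * r1 * √(1 + r0))) := by
      rw [div_mul_div_comm, mul_one, mul_one_div, div_le_div_iff₀ (by positivity) (by positivity)]
      calc (1 + r0) * (r0 * r1 * √(1 + r0)) = ((1 + r0) * √(1 + r0)) * (r0 * r1) := by ring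
        _ ≤ ((κ * √κ) * (r * √r)) * (r0 * r1) := mul_le_mul_of_nonneg_right hk2 (by positivity)
        _ = _ := by ring
    have k2 := ker_one h0 h1 h2 h4
    calc (1 + r0) / (r0 * r1) * (1 / (r * √r)) ≤ κ * √κ * (1 / (r0 * r1 * √(1 + r0))) := k1
      _ ≤ κ * √κ * (2 * B0 r0 + 4 * B0 r1) := mul_le_mul_of_nonneg_left k2 (by positivity)
      _ ≤ κ * √κ * (4 * (B0 r0 + B0 r1 + B0 r)) := mul_le_mul_of_nonneg_left (by linarith) (by positivity)
      _ = (κ * √κ * 4) * (B0 r0 + B0 r1 + B0 r) := by ring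
      _ ≤ _ := mul_le_mul_of_nonneg_right (by
          have : 0 ≤ (2 / m + 1) * (2 / m) * (1 + m / 2) := by positivity
          linarith) (by positivity)

/-- the key bound for points of the plane -/
private theorem ker_pt {m R : ℝ} (hm : 0 < m) (hR : 0 ≤ R) : ∃ C : ℝ, 0 ≤ C ∧ ∀ e : ℂ, m ≤ ‖e‖ →
    m ≤ ‖e - 1‖ → ‖e‖ ≤ R → ∀ y : ℂ, y ≠ 0 → y ≠ 1 → y ≠ e →
      (1 + ‖y‖) / (‖y‖ * ‖y - 1‖) * (1 / (‖y - e‖ * √‖y - e‖)) ≤
        C * (B0 ‖y‖ + B0 ‖y - 1‖ + B0 ‖y - e‖) := by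
  obtain ⟨C, hC, h⟩ := ker_key hm hR
  refine ⟨C, hC, fun e he he1 heR y h0 h1 h2 => h _ _ _ (norm_pos_iff.2 h0)
    (norm_pos_iff.2 (sub_ne_zero.2 h1)) (norm_pos_iff.2 (sub_ne_zero.2 h2)) ?_ ?_ ?_ ?_ ?_⟩
  · have h3 := norm_sub_le y (y - 1)
    rw [sub_sub_cancel, norm_one] at h3
    exact h3
  · have h3 := norm_sub_le y 1
    rwa [norm_one] at h3
  · have h3 := norm_sub_le y (y - e)
    rw [sub_sub_cancel] at h3
    linarith
  · have h3 := norm_sub_le (y - 1) (y - e)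
    rw [show y - 1 - (y - e) = e - 1 by ring] at h3
    linarith
  · have h3 := norm_add_le (y - e) e
    rw [sub_add_cancel] at h3
    linarith

theorem ka_pf {a y : ℂ} (h0 : y ≠ 0) (h1 : y ≠ 1) (ha : y ≠ a) :
    KA a y = 1 / (y - a) + (a - 1) / y - a / (y - 1) := by
  have h2 : y - 1 ≠ 0 := sub_ne_zero.2 h1
  have h3 : y - a ≠ 0 := sub_ne_zero.2 ha
  unfold KA
  field_simp
  ring

theorem ka_sub {a v y : ℂ} (h0 : y ≠ 0) (h1 : y ≠ 1) (ha : y ≠ a) (hv : y ≠ v) :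
    ‖KA a y - KA v y‖ ≤ KD a v y := by
  have h2 : y - 1 ≠ 0 := sub_ne_zero.2 h1
  have h3 : y - a ≠ 0 := sub_ne_zero.2 ha
  have h4 : y - v ≠ 0 := sub_ne_zero.2 hv
  have h5 : KA a y - KA v y = (a - v) * (y * (a + v - 1) - a * v) /
      (y * (y - 1) * (y - a) * (y - v)) := by
    unfold KA
    field_simp
    ring
  rw [h5, norm_div, norm_mul, norm_mul, norm_mul, norm_mul]
  unfold KD
  refine div_le_div_of_nonneg_right ?_ (by positivity)
  refine mul_le_mul_of_nonneg_left ?_ (norm_nonneg _)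
  refine (norm_sub_le _ _).trans ?_
  rw [norm_mul]

theorem ka_int (a : ℂ) : Integrable (KA a) := by
  have hmeas : AEStronglyMeasurable (KA a) := by
    unfold KA
    exact Measurable.aestronglyMeasurable (by fun_prop)
  by_cases ha : a = 0
  · have h1 : KA a = fun _ => 0 := by
      funext y
      unfold KA
      rw [ha]
      simp
    rw [h1]
    exact integrable_zero _ _ _
  by_cases ha1 : a = 1
  · have h1 : KA a = fun _ => 0 := by
      funext y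
      unfold KA
      rw [ha1]
      simp
    rw [h1]
    exact integrable_zero _ _ _
  have hp : 0 < ‖a‖ := norm_pos_iff.2 ha
  have hp1 : 0 < ‖a - 1‖ := norm_pos_iff.2 (sub_ne_zero.2 ha1)
  obtain ⟨C, hC, h⟩ := ker_pt (lt_min hp hp1) hp.le
  have h1 := h a (min_le_left _ _) (min_le_right _ _) le_rfl
  have hI : Integrable (fun y : ℂ => (‖a * (a - 1)‖ * (1 + ‖a‖) * C) *
      (B0 ‖y‖ + B0 ‖y - 1‖ + B0 ‖y - a‖)) :=
    ((B0_int.add (B0_shift 1)).add (B0_shift a)).const_mul _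
  refine hI.mono' hmeas (Eventually.of_forall fun y => ?_)
  have b0 := B0_nonneg (norm_nonneg y)
  have b1 := B0_nonneg (norm_nonneg (y - 1))
  have b2 := B0_nonneg (norm_nonneg (y - a))
  have hnn : 0 ≤ ‖a * (a - 1)‖ * (1 + ‖a‖) * C * (B0 ‖y‖ + B0 ‖y - 1‖ + B0 ‖y - a‖) := by positivity
  by_cases y0 : y = 0
  · have h2 : KA a y = 0 := by unfold KA; rw [y0]; simp
    rw [h2, norm_zero]
    exact hnn
  by_cases y1 : y = 1
  · have h2 : KA a y = 0 := by unfold KA; rw [y1]; simp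
    rw [h2, norm_zero]
    exact hnn
  by_cases ya : y = a
  · have h2 : KA a y = 0 := by unfold KA; rw [ya]; simp
    rw [h2, norm_zero]
    exact hnn
  have p0 : 0 < ‖y‖ := norm_pos_iff.2 y0
  have p1 : 0 < ‖y - 1‖ := norm_pos_iff.2 (sub_ne_zero.2 y1)
  have p2 : 0 < ‖y - a‖ := norm_pos_iff.2 (sub_ne_zero.2 ya)
  have q2 : 0 < √‖y - a‖ := Real.sqrt_pos.2 p2
  have h2 := h1 y y0 y1 ya
  have h3 : ‖KA a y‖ = ‖a * (a - 1)‖ * (√‖y - a‖ / (1 + ‖y‖)) *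
      ((1 + ‖y‖) / (‖y‖ * ‖y - 1‖) * (1 / (‖y - a‖ * √‖y - a‖))) := by
    unfold KA
    rw [norm_div, norm_mul (y * (y - 1)), norm_mul y]
    field_simp
  have h4 : √‖y - a‖ / (1 + ‖y‖) ≤ 1 + ‖a‖ := by
    rw [div_le_iff₀ (by positivity)]
    have h5 : √‖y - a‖ ≤ 1 + ‖y - a‖ := by
      have h6 := ker_sq p2
      nlinarith [sq_nonneg (√‖y - a‖ - 1)]
    have h6 := norm_sub_le y a
    nlinarith [mul_nonneg hp.le p0.le]
  rw [h3]
  calc _ ≤ ‖a * (a - 1)‖ * (1 + ‖a‖) * (C * (B0 ‖y‖ + B0 ‖y - 1‖ + B0 ‖y - a‖)) :=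
        mul_le_mul (mul_le_mul_of_nonneg_left h4 (norm_nonneg _)) h2 (by positivity) (by positivity)
    _ = _ := by ring

private theorem ker_split {ra rv : ℝ} (ha : 0 < ra) (hv : 0 < rv) :
    (√ra + √rv) / (ra * rv) ≤ 2 * (1 / (ra * √ra) + 1 / (rv * √rv)) := by
  have qa : 0 < √ra := Real.sqrt_pos.2 ha
  have qv : 0 < √rv := Real.sqrt_pos.2 hv
  have ea := ker_sq ha
  have ev := ker_sq hv
  have h1 : (√ra + √rv) / (ra * rv) = 1 / (√ra * rv) + 1 / (ra * √rv) := by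
    have h2 : 1 / (√ra * rv) = √ra / (ra * rv) := by
      rw [div_eq_div_iff (by positivity) (by positivity)]
      nlinarith
    have h3 : 1 / (ra * √rv) = √rv / (ra * rv) := by
      rw [div_eq_div_iff (by positivity) (by positivity)]
      nlinarith
    rw [h2, h3]
    ring
  rw [h1]
  rcases le_total ra rv with h | h
  · have h4 : √ra ≤ √rv := Real.sqrt_le_sqrt h
    have h2 : 1 / (√ra * rv) ≤ 1 / (ra * √ra) := by
      refine one_div_le_one_div_of_le (by positivity) ?_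
      rw [mul_comm]
      exact mul_le_mul_of_nonneg_left h qa.le
    have h3 : 1 / (ra * √rv) ≤ 1 / (ra * √ra) := one_div_le_one_div_of_le (by positivity)
      (mul_le_mul_of_nonneg_left h4 ha.le)
    have h5 : 0 ≤ 1 / (rv * √rv) := by positivity
    linarith
  · have h4 : √rv ≤ √ra := Real.sqrt_le_sqrt h
    have h2 : 1 / (√ra * rv) ≤ 1 / (rv * √rv) := by
      refine one_div_le_one_div_of_le (by positivity) ?_
      rw [mul_comm]
      exact mul_le_mul_of_nonneg_right h4 hv.le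
    have h3 : 1 / (ra * √rv) ≤ 1 / (rv * √rv) := one_div_le_one_div_of_le (by positivity)
      (mul_le_mul_of_nonneg_right h qv.le)
    have h5 : 0 ≤ 1 / (ra * √ra) := by positivity
    linarith

/-- pointwise bound of the majorant of the difference -/
private theorem kd_pt {m R : ℝ} (hm : 0 < m) (hR : 0 ≤ R) : ∃ C : ℝ, 0 ≤ C ∧ ∀ a v : ℂ, m ≤ ‖a‖ →
    m ≤ ‖a - 1‖ → ‖a‖ ≤ R → m ≤ ‖v‖ → m ≤ ‖v - 1‖ → ‖v‖ ≤ R → ∀ y : ℂ,
      KD a v y ≤ C * √‖a - v‖ * (B0 ‖y‖ + B0 ‖y - 1‖ + B0 ‖y - a‖ + B0 ‖y - v‖) := by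
  obtain ⟨C, hC, h⟩ := ker_pt hm hR
  obtain ⟨C1, hC1⟩ : ∃ C1, C1 = (2 * R + 1) + R * R := ⟨_, rfl⟩
  have hC10 : 0 < C1 := by rw [hC1]; positivity
  refine ⟨C1 * 2 * (2 * C), by positivity, ?_⟩
  intro a v ha ha1 haR hv hv1 hvR y
  have b0 := B0_nonneg (norm_nonneg y)
  have b1 := B0_nonneg (norm_nonneg (y - 1))
  have b2 := B0_nonneg (norm_nonneg (y - a))
  have b3 := B0_nonneg (norm_nonneg (y - v))
  have hnn : 0 ≤ C1 * 2 * (2 * C) * √‖a - v‖ * (B0 ‖y‖ + B0 ‖y - 1‖ + B0 ‖y - a‖ + B0 ‖y - v‖) := by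
    positivity
  by_cases y0 : y = 0
  · have h2 : KD a v y = 0 := by unfold KD; rw [y0]; simp
    rw [h2]
    exact hnn
  by_cases y1 : y = 1
  · have h2 : KD a v y = 0 := by unfold KD; rw [y1]; simp
    rw [h2]
    exact hnn
  by_cases ya : y = a
  · have h2 : KD a v y = 0 := by unfold KD; rw [ya]; simp
    rw [h2]
    exact hnn
  by_cases yv : y = v
  · have h2 : KD a v y = 0 := by unfold KD; rw [yv]; simp
    rw [h2]
    exact hnn
  have p0 : 0 < ‖y‖ := norm_pos_iff.2 y0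
  have p1 : 0 < ‖y - 1‖ := norm_pos_iff.2 (sub_ne_zero.2 y1)
  have p2 : 0 < ‖y - a‖ := norm_pos_iff.2 (sub_ne_zero.2 ya)
  have p3 : 0 < ‖y - v‖ := norm_pos_iff.2 (sub_ne_zero.2 yv)
  have h1 := h a ha ha1 haR y y0 y1 ya
  have h2 := h v hv hv1 hvR y y0 y1 yv
  -- the numerator
  have h3 : ‖y‖ * ‖a + v - 1‖ + ‖a * v‖ ≤ C1 * (1 + ‖y‖) := by
    have k1 : ‖a + v - 1‖ ≤ 2 * R + 1 := by
      have k2 := norm_sub_le (a + v) 1
      have k3 := norm_add_le a v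
      rw [norm_one] at k2
      linarith
    have k2 : ‖a * v‖ ≤ R * R := by
      rw [norm_mul]
      exact mul_le_mul haR hvR (norm_nonneg _) hR
    have k3 := mul_le_mul_of_nonneg_left k1 p0.le
    have k4 : 0 ≤ R * R * ‖y‖ := by positivity
    rw [hC1]
    nlinarith
  -- the difference
  have h4 : ‖a - v‖ ≤ √‖a - v‖ * (√‖y - a‖ + √‖y - v‖) := by
    have k1 : √‖a - v‖ ≤ √‖y - a‖ + √‖y - v‖ := by
      have k2 : ‖a - v‖ ≤ ‖y - a‖ + ‖y - v‖ := by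
        have k3 := norm_sub_le (y - v) (y - a)
        rw [show y - v - (y - a) = a - v by ring] at k3
        linarith
      refine Real.sqrt_le_iff.2 ⟨by positivity, k2.trans ?_⟩
      have e1 := ker_sq p2
      have e2 := ker_sq p3
      have e3 : 0 ≤ √‖y - a‖ * √‖y - v‖ := by positivity
      nlinarith
    have k2 := Real.mul_self_sqrt (norm_nonneg (a - v))
    calc ‖a - v‖ = √‖a - v‖ * √‖a - v‖ := k2.symm
      _ ≤ _ := mul_le_mul_of_nonneg_left k1 (Real.sqrt_nonneg _)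
  have h5 : KD a v y ≤ √‖a - v‖ * C1 * (((1 + ‖y‖) / (‖y‖ * ‖y - 1‖)) *
      ((√‖y - a‖ + √‖y - v‖) / (‖y - a‖ * ‖y - v‖))) := by
    unfold KD
    calc _ ≤ (√‖a - v‖ * (√‖y - a‖ + √‖y - v‖)) * (C1 * (1 + ‖y‖)) /
          (‖y‖ * ‖y - 1‖ * ‖y - a‖ * ‖y - v‖) :=
          div_le_div_of_nonneg_right (mul_le_mul h4 h3 (by positivity) (by positivity)) (by positivity)
      _ = _ := by field_simp
  have h6 := ker_split p2 p3
  have h7 : (1 + ‖y‖) / (‖y‖ * ‖y - 1‖) * ((√‖y - a‖ + √‖y - v‖) / (‖y - a‖ * ‖y - v‖)) ≤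
      2 * (2 * C * (B0 ‖y‖ + B0 ‖y - 1‖ + B0 ‖y - a‖ + B0 ‖y - v‖)) := by
    calc _ ≤ (1 + ‖y‖) / (‖y‖ * ‖y - 1‖) * (2 * (1 / (‖y - a‖ * √‖y - a‖) +
          1 / (‖y - v‖ * √‖y - v‖))) := mul_le_mul_of_nonneg_left h6 (by positivity)
      _ = 2 * ((1 + ‖y‖) / (‖y‖ * ‖y - 1‖) * (1 / (‖y - a‖ * √‖y - a‖)) +
          (1 + ‖y‖) / (‖y‖ * ‖y - 1‖) * (1 / (‖y - v‖ * √‖y - v‖))) := by ring
      _ ≤ 2 * (C * (B0 ‖y‖ + B0 ‖y - 1‖ + B0 ‖y - a‖) + C * (B0 ‖y‖ + B0 ‖y - 1‖ + B0 ‖y - v‖)) := by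
          linarith
      _ ≤ _ := by nlinarith [mul_nonneg hC b2, mul_nonneg hC b3]
  calc KD a v y ≤ _ := h5
    _ ≤ √‖a - v‖ * C1 * (2 * (2 * C * (B0 ‖y‖ + B0 ‖y - 1‖ + B0 ‖y - a‖ + B0 ‖y - v‖))) :=
        mul_le_mul_of_nonneg_left h7 (by positivity)
    _ = _ := by ring

theorem kd_int {v : ℂ} (h0 : v ≠ 0) (h1 : v ≠ 1) {ε : ℝ} (hε : 0 < ε) :
    ∃ η : ℝ, 0 < η ∧ ∀ a : ℂ, ‖a - v‖ < η → Integrable (KD a v) ∧ ∫ y, KD a v y ≤ ε := by
  have hp : 0 < ‖v‖ := norm_pos_iff.2 h0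
  have hp1 : 0 < ‖v - 1‖ := norm_pos_iff.2 (sub_ne_zero.2 h1)
  obtain ⟨m, hm⟩ : ∃ m, m = min ‖v‖ ‖v - 1‖ / 2 := ⟨_, rfl⟩
  have hmin := lt_min hp hp1
  have hm0 : 0 < m := by rw [hm]; linarith
  have hmv : 2 * m ≤ ‖v‖ := by rw [hm]; have := min_le_left ‖v‖ ‖v - 1‖; linarith
  have hmv1 : 2 * m ≤ ‖v - 1‖ := by rw [hm]; have := min_le_right ‖v‖ ‖v - 1‖; linarith
  obtain ⟨C, hC, h⟩ := kd_pt (R := ‖v‖ + m) hm0 (by positivity)
  obtain ⟨I, hI⟩ : ∃ I, I = ∫ y : ℂ, B0 ‖y‖ := ⟨_, rfl⟩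
  have hI0 : 0 ≤ I := by
    rw [hI]
    exact integral_nonneg fun y => B0_nonneg (norm_nonneg y)
  obtain ⟨t, ht⟩ : ∃ t, t = ε / (C * (4 * I) + 1) := ⟨_, rfl⟩
  have ht0 : 0 < t := by rw [ht]; positivity
  refine ⟨min m (t * t), lt_min hm0 (by positivity), fun a ha => ?_⟩
  have ha1 : ‖a - v‖ < m := lt_of_lt_of_le ha (min_le_left _ _)
  have ha2 : ‖a - v‖ < t * t := lt_of_lt_of_le ha (min_le_right _ _)
  have g1 : m ≤ ‖a‖ := by
    have k1 := norm_sub_le a (a - v)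
    rw [sub_sub_cancel] at k1
    linarith
  have g2 : m ≤ ‖a - 1‖ := by
    have k1 := norm_sub_le (a - 1) (a - v)
    rw [show a - 1 - (a - v) = v - 1 by ring] at k1
    linarith
  have g3 : ‖a‖ ≤ ‖v‖ + m := by
    have k1 := norm_add_le (a - v) v
    rw [sub_add_cancel] at k1
    linarith
  have h2 := h a v g1 g2 g3 (by linarith) (by linarith) (by linarith)
  have hint : Integrable (fun y : ℂ => C * √‖a - v‖ *
      (B0 ‖y‖ + B0 ‖y - 1‖ + B0 ‖y - a‖ + B0 ‖y - v‖)) :=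
    (((B0_int.add (B0_shift 1)).add (B0_shift a)).add (B0_shift v)).const_mul _
  have hnn : ∀ y, 0 ≤ KD a v y := fun y => by unfold KD; positivity
  have hK : Integrable (KD a v) := by
    refine hint.mono' ?_ (Eventually.of_forall fun y => ?_)
    · unfold KD
      exact Measurable.aestronglyMeasurable (by fun_prop)
    · rw [Real.norm_eq_abs, abs_of_nonneg (hnn y)]
      exact h2 y
  refine ⟨hK, ?_⟩
  have h3 : ∫ y, KD a v y ≤ ∫ y : ℂ, C * √‖a - v‖ *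
      (B0 ‖y‖ + B0 ‖y - 1‖ + B0 ‖y - a‖ + B0 ‖y - v‖) := integral_mono hK hint h2
  have h4 : ∫ y : ℂ, C * √‖a - v‖ * (B0 ‖y‖ + B0 ‖y - 1‖ + B0 ‖y - a‖ + B0 ‖y - v‖) =
      C * √‖a - v‖ * (4 * I) := by
    have k1 : ∫ y : ℂ, (B0 ‖y‖ + B0 ‖y - 1‖ + B0 ‖y - a‖ + B0 ‖y - v‖) =
        (∫ y : ℂ, (B0 ‖y‖ + B0 ‖y - 1‖ + B0 ‖y - a‖)) + ∫ y : ℂ, B0 ‖y - v‖ :=
      integral_add ((B0_int.add (B0_shift 1)).add (B0_shift a)) (B0_shift v)
    have k2 : ∫ y : ℂ, (B0 ‖y‖ + B0 ‖y - 1‖ + B0 ‖y - a‖) =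
        (∫ y : ℂ, (B0 ‖y‖ + B0 ‖y - 1‖)) + ∫ y : ℂ, B0 ‖y - a‖ :=
      integral_add (B0_int.add (B0_shift 1)) (B0_shift a)
    have k3 : ∫ y : ℂ, (B0 ‖y‖ + B0 ‖y - 1‖) = (∫ y : ℂ, B0 ‖y‖) + ∫ y : ℂ, B0 ‖y - 1‖ :=
      integral_add B0_int (B0_shift 1)
    rw [integral_const_mul, k1, k2, k3, B0_shift_int, B0_shift_int, B0_shift_int, ← hI]
    ring
  have h5 : √‖a - v‖ ≤ t := by
    refine Real.sqrt_le_iff.2 ⟨ht0.le, ?_⟩
    rw [sq]
    exact ha2.le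
  rw [h4] at h3
  have h6 : C * √‖a - v‖ * (4 * I) ≤ t * (C * (4 * I) + 1) := by
    have k1 : √‖a - v‖ * (C * (4 * I)) ≤ t * (C * (4 * I)) := mul_le_mul_of_nonneg_right h5 (by positivity)
    nlinarith
  have h7 : t * (C * (4 * I) + 1) = ε := by
    rw [ht]
    have : C * (4 * I) + 1 ≠ 0 := by positivity
    field_simp
  linarith

end Pool.Agent.H1.PU
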