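import Pool.Agent.H1.PU.RetB
import Pool.Agent.H1.PU.Ker
import Pool.Agent.H1.RO.Chg
import Pool.Agent.H50.ST.OPA

/-!
# Module Ent: sums over the first entries

PROOFS. `ee_maj`: `u p = KK^2 M / volume A * ∫ (br p '' A), F`: for `x ∈ ball c (6 s)`, `z ∈ A`: `‖deriv (br p) x‖^2 F (br p x) ≤ KK^2 ‖deriv (br p) z‖^2 M F (br p z)` (`koe_der`, hypothesis); integrate over `z ∈ A` (`chg`, H1/RO/Chg); the sets `br p '' A` are disjoint (`ee_disj`), countable index (`ix_cnt`):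
`∑ ∫ (br p '' A), F ≤ ∫ F`. `ka_cmp`, `kd_cmp`: `0, 1, a, v` are not in `br p '' ball c (8 s)` (`PA`, `LAM`; `br_orb`), `koe_cmp` for each factor of the denominator, and for `‖y‖` in the numerator the inequality in the other direction (exchange `x` and `z`). `ea_bd`: `ee_maj` with `F = ‖KA a ·‖`, and
`Complex.differentiableOn_tsum_of_summable_norm`.
-/

set_option autoImplicit false

open Filter Topology Polynomial OnePoint Metric Set MeasureTheory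

namespace Pool.Agent.H1.PU

open Pool.Agent.H44.Fatou Pool.Agent.H32.BT Pool.Agent.H80.AJ Pool.Agent.H35.EX Pool.Agent.H61.TT

variable {d : ℕ} {P Q : Polynomial ℂ} {PA : Set (OnePoint ℂ)} {c : ℂ} {s : ℝ}

variable {A : Set ℂ}

/-- majorants for the sums over the entries -/
theorem ee_maj (h : PSys d P Q PA c s) (hA : Nice P Q c s A) :
    ∃ C : ℝ, 0 ≤ C ∧ ∀ (F : ℂ → ℝ) (M : ℝ), Integrable F → (∀ y, 0 ≤ F y) → 0 ≤ M →
      (∀ p ∈ EE P Q c A, ∀ x ∈ ball c (6 * s), ∀ z ∈ A, F (br P Q c s p x) ≤ M * F (br P Q c s p z)) →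
      ∃ u : EE P Q c A → ℝ, Summable u ∧ ∑' p, u p ≤ C * M * ∫ y, F y ∧
        ∀ (p : EE P Q c A), ∀ x ∈ ball c (6 * s),
          ‖deriv (br P Q c s p.1) x‖ ^ 2 * F (br P Q c s p.1 x) ≤ u p := by
  have h0 := h.s0
  have hK := KK_pos
  have hcnt : Countable (EE P Q c A) := ((ix_cnt h).mono fun p hp => hp.1).to_subtype
  have hAb : A ⊆ ball c (8 * s) := hA.As.trans (ball_subset_ball (by linarith))
  have h68 : ball c (6 * s) ⊆ ball c (8 * s) := ball_subset_ball (by linarith)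
  have hAm : MeasurableSet A := hA.Ao.measurableSet
  have h8 : ball c (8 * s) ⊆ ball c (rho s) :=
    ball_subset_ball (by have := rho_ge h0; linarith)
  have hvt : volume A ≠ ⊤ := ((measure_mono hA.As).trans_lt measure_ball_lt_top).ne
  have hv0 : volume A ≠ 0 := by
    have h1 : 0 < volume (ball c s) := measure_ball_pos _ _ h0
    exact (h1.trans_le (measure_mono hA.bA)).ne'
  have hV : 0 < (volume A).toReal := ENNReal.toReal_pos hv0 hvt
  refine ⟨KK ^ 2 / (volume A).toReal, by positivity, ?_⟩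
  intro F M hF hF0 hM hcmp
  set J : EE P Q c A → ENNReal := fun p => ∫⁻ y in br P Q c s p.1 '' A, ENNReal.ofReal (F y)
    with hJ
  have hJm : ∀ p : EE P Q c A, MeasurableSet (br P Q c s p.1 '' A) := fun p =>
    (open_image (br_diff h p.2.1) (br_inj h p.2.1) hA.Ao (hAb.trans h8)).measurableSet
  have hJs : ∑' p, J p ≤ ∫⁻ y, ENNReal.ofReal (F y) := by
    rw [hJ, ← lintegral_iUnion hJm
      (fun p q hpq => ee_disj h hA p.2 q.2 (fun he => hpq (Subtype.ext he)))]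
    exact setLIntegral_le_lintegral _ _
  have hFt : ∫⁻ y, ENNReal.ofReal (F y) ≠ ⊤ := by
    rw [← ofReal_integral_eq_lintegral_ofReal hF (ae_of_all _ hF0)]
    exact ENNReal.ofReal_ne_top
  have hJt : ∑' p, J p ≠ ⊤ := ne_top_of_le_ne_top hFt hJs
  have hJp : ∀ p, J p ≠ ⊤ := ENNReal.ne_top_of_tsum_ne_top hJt
  have hsum : Summable fun p => (J p).toReal := ENNReal.summable_toReal hJt
  refine ⟨fun p => KK ^ 2 / (volume A).toReal * M * (J p).toReal, hsum.mul_left _, ?_, ?_⟩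
  · rw [tsum_mul_left]
    refine mul_le_mul_of_nonneg_left ?_ (by positivity)
    rw [← ENNReal.tsum_toReal_eq hJp, integral_eq_lintegral_of_nonneg_ae (ae_of_all _ hF0)
      hF.aestronglyMeasurable]
    exact ENNReal.toReal_mono hFt hJs
  · intro p x hx
    have hchg := Pool.Agent.H1.RO.chg isOpen_ball hAm hAb (G := br P Q c s p.1)
      ((br_diff h p.2.1).mono h8) ((br_inj h p.2.1).mono (hAb.trans h8))
      (fun y => ENNReal.ofReal (F y))
    set T : ℝ := ‖deriv (br P Q c s p.1) x‖ ^ 2 * F (br P Q c s p.1 x) with hT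
    have hT0 : 0 ≤ T := mul_nonneg (by positivity) (hF0 _)
    have hle : ENNReal.ofReal T * volume A ≤ ENNReal.ofReal (KK ^ 2 * M) * J p := by
      have e0 : J p = ∫⁻ y in A, ENNReal.ofReal (‖deriv (br P Q c s p.1) y‖ ^ 2) *
          ENNReal.ofReal (F (br P Q c s p.1 y)) := hchg
      rw [e0, ← lintegral_const_mul' _ _ ENNReal.ofReal_ne_top, ← setLIntegral_const]
      refine setLIntegral_mono' hAm fun z hz => ?_
      rw [← ENNReal.ofReal_mul (by positivity), ← ENNReal.ofReal_mul (by positivity)]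
      apply ENNReal.ofReal_le_ofReal
      have e1 := (koe_der h p.2.1 (h68 hx) (hAb hz)).2
      have e2 := hcmp p.1 p.2 x hx z hz
      have e3 : ‖deriv (br P Q c s p.1) x‖ ^ 2 ≤ (KK * ‖deriv (br P Q c s p.1) z‖) ^ 2 := by
        gcongr
      calc T ≤ (KK * ‖deriv (br P Q c s p.1) z‖) ^ 2 * (M * F (br P Q c s p.1 z)) :=
            mul_le_mul e3 e2 (hF0 _) (by positivity)
        _ = KK ^ 2 * M * (‖deriv (br P Q c s p.1) z‖ ^ 2 * F (br P Q c s p.1 z)) := by ring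
    have h5 := ENNReal.toReal_mono (ENNReal.mul_ne_top ENNReal.ofReal_ne_top (hJp p)) hle
    rw [ENNReal.toReal_mul, ENNReal.toReal_mul, ENNReal.toReal_ofReal hT0,
      ENNReal.toReal_ofReal (by positivity)] at h5
    have h6 : KK ^ 2 / (volume A).toReal * M * (J p).toReal =
        KK ^ 2 * M * (J p).toReal / (volume A).toReal := by ring
    show T ≤ KK ^ 2 / (volume A).toReal * M * (J p).toReal
    rw [h6, le_div_iff₀ hV]
    exact h5

/-- the constant in the comparison of the kernels -/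
noncomputable def CK : ℝ := (1 + 96 * KK) ^ 5

theorem CK_pos : 0 < CK := by
  unfold CK
  have := KK_pos
  positivity

theorem mem_PA_nim (h : PSys d P Q PA c s) {b : ℂ} (hb : (b : OnePoint ℂ) ∈ PA) {p : ℕ × ℂ}
    (hp : p ∈ IX P Q c) : b ∉ br P Q c s p '' ball c (8 * s) := by
  rintro ⟨u, hu, rfl⟩
  have h0 := h.s0
  exact br_off h hp (ball_subset_ball (by have := rho_ge h0; linarith) hu) hb

theorem lam_nim (h : PSys d P Q PA c s) {a : ℂ} (ha : a ∈ LAM P Q c s) {p : ℕ × ℂ}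
    (hp : p ∈ IX P Q c) : a ∉ br P Q c s p '' ball c (8 * s) := by
  rintro ⟨u, hu, rfl⟩
  have h0 := h.s0
  exact ha p.1 u hu (br_inv h hp (ball_subset_ball (by have := rho_ge h0; linarith) hu))

theorem inv_cmp (h : PSys d P Q PA c s) {p : ℕ × ℂ} (hp : p ∈ IX P Q c) {x z b : ℂ}
    (hx : x ∈ ball c (6 * s)) (hz : z ∈ ball c (6 * s))
    (hb : b ∉ br P Q c s p '' ball c (8 * s)) :
    ‖br P Q c s p x - b‖⁻¹ ≤ (1 + 96 * KK) * ‖br P Q c s p z - b‖⁻¹ := by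
  have hK := KK_pos
  have h1 := koe_cmp h hp hx hz hb
  have h68 : ball c (6 * s) ⊆ ball c (8 * s) := ball_subset_ball (by have := h.s0; linarith)
  have h2 : 0 < ‖br P Q c s p x - b‖ := by
    rw [norm_pos_iff, sub_ne_zero]
    intro he
    exact hb ⟨x, h68 hx, he⟩
  have h3 : 0 < ‖br P Q c s p z - b‖ := by
    rw [norm_pos_iff, sub_ne_zero]
    intro he
    exact hb ⟨z, h68 hz, he⟩
  rw [← div_eq_mul_inv, inv_eq_one_div, div_le_div_iff₀ h2 h3, one_mul]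
  exact h1

theorem ka_cmp (h : PSys d P Q PA c s) {a : ℂ} (ha : a ∈ LAM P Q c s) {p : ℕ × ℂ} (hp : p ∈ IX P Q c) {x z : ℂ}
    (hx : x ∈ ball c (6 * s)) (hz : z ∈ ball c (6 * s)) :
    ‖KA a (br P Q c s p x)‖ ≤ CK * ‖KA a (br P Q c s p z)‖ := by
  have hK := KK_pos
  set k : ℝ := 1 + 96 * KK with hk
  have hk1 : 1 ≤ k := by rw [hk]; linarith
  have h1 := inv_cmp h hp hx hz (mem_PA_nim h h.z0 hp)
  have h2 := inv_cmp h hp hx hz (mem_PA_nim h h.z1 hp)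
  have h3 := inv_cmp h hp hx hz (lam_nim h ha hp)
  have e : ∀ y : ℂ, ‖KA a y‖ = ‖a * (a - 1)‖ * (‖y - 0‖⁻¹ * ‖y - 1‖⁻¹ * ‖y - a‖⁻¹) := by
    intro y
    unfold KA
    rw [norm_div, norm_mul (y * (y - 1)), norm_mul y, sub_zero]
    rw [div_eq_mul_inv, mul_inv, mul_inv]
  rw [e, e]
  calc ‖a * (a - 1)‖ * (‖br P Q c s p x - 0‖⁻¹ * ‖br P Q c s p x - 1‖⁻¹ * ‖br P Q c s p x - a‖⁻¹)
      ≤ ‖a * (a - 1)‖ * ((k * ‖br P Q c s p z - 0‖⁻¹) * (k * ‖br P Q c s p z - 1‖⁻¹) *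
        (k * ‖br P Q c s p z - a‖⁻¹)) := by gcongr
    _ = k ^ 3 * (‖a * (a - 1)‖ * (‖br P Q c s p z - 0‖⁻¹ * ‖br P Q c s p z - 1‖⁻¹ *
        ‖br P Q c s p z - a‖⁻¹)) := by ring
    _ ≤ CK * (‖a * (a - 1)‖ * (‖br P Q c s p z - 0‖⁻¹ * ‖br P Q c s p z - 1‖⁻¹ *
        ‖br P Q c s p z - a‖⁻¹)) := by
      refine mul_le_mul_of_nonneg_right ?_ (by positivity)
      unfold CK
      exact pow_le_pow_right₀ hk1 (by norm_num)

theorem kd_cmp (h : PSys d P Q PA c s) {a v : ℂ} (ha : a ∈ LAM P Q c s) (hv : v ∈ LAM P Q c s) {p : ℕ × ℂ}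
    (hp : p ∈ IX P Q c) {x z : ℂ} (hx : x ∈ ball c (6 * s)) (hz : z ∈ ball c (6 * s)) :
    KD a v (br P Q c s p x) ≤ CK * KD a v (br P Q c s p z) := by
  have hK := KK_pos
  set k : ℝ := 1 + 96 * KK with hk
  have hk1 : 1 ≤ k := by rw [hk]; linarith
  have h1 := inv_cmp h hp hx hz (mem_PA_nim h h.z0 hp)
  have h2 := inv_cmp h hp hx hz (mem_PA_nim h h.z1 hp)
  have h3 := inv_cmp h hp hx hz (lam_nim h ha hp)
  have h4 := inv_cmp h hp hx hz (lam_nim h hv hp)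
  have h5 := koe_cmp h hp hz hx (mem_PA_nim h h.z0 hp)
  rw [← hk] at h5
  rw [sub_zero, sub_zero] at h1 h5
  have e : ∀ y : ℂ, KD a v y = ‖a - v‖ * (‖y‖ * ‖a + v - 1‖ + ‖a * v‖) *
      (‖y‖⁻¹ * ‖y - 1‖⁻¹ * ‖y - a‖⁻¹ * ‖y - v‖⁻¹) := by
    intro y
    unfold KD
    rw [div_eq_mul_inv, mul_inv, mul_inv, mul_inv]
  rw [e, e]
  have h6 : ‖br P Q c s p x‖ * ‖a + v - 1‖ + ‖a * v‖ ≤
      k * (‖br P Q c s p z‖ * ‖a + v - 1‖ + ‖a * v‖) := by
    have h7 : ‖a * v‖ ≤ k * ‖a * v‖ := le_mul_of_one_le_left (norm_nonneg _) hk1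
    calc ‖br P Q c s p x‖ * ‖a + v - 1‖ + ‖a * v‖
        ≤ (k * ‖br P Q c s p z‖) * ‖a + v - 1‖ + k * ‖a * v‖ := by gcongr
      _ = k * (‖br P Q c s p z‖ * ‖a + v - 1‖ + ‖a * v‖) := by ring
  calc ‖a - v‖ * (‖br P Q c s p x‖ * ‖a + v - 1‖ + ‖a * v‖) *
        (‖br P Q c s p x‖⁻¹ * ‖br P Q c s p x - 1‖⁻¹ * ‖br P Q c s p x - a‖⁻¹ *
          ‖br P Q c s p x - v‖⁻¹)
      ≤ ‖a - v‖ * (k * (‖br P Q c s p z‖ * ‖a + v - 1‖ + ‖a * v‖)) *
        ((k * ‖br P Q c s p z‖⁻¹) * (k * ‖br P Q c s p z - 1‖⁻¹) * (k * ‖br P Q c s p z - a‖⁻¹) *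
          (k * ‖br P Q c s p z - v‖⁻¹)) := by gcongr
    _ = k ^ 5 * (‖a - v‖ * (‖br P Q c s p z‖ * ‖a + v - 1‖ + ‖a * v‖) *
        (‖br P Q c s p z‖⁻¹ * ‖br P Q c s p z - 1‖⁻¹ * ‖br P Q c s p z - a‖⁻¹ *
          ‖br P Q c s p z - v‖⁻¹)) := by ring

/-- the functions `EA a`: uniform convergence, bound -/
theorem ea_bd (h : PSys d P Q PA c s) (hA : Nice P Q c s A) :
    ∃ C : ℝ, 0 ≤ C ∧ ∀ a ∈ LAM P Q c s, Pool.H50.ST.Bd c (6 * s) (C * ∫ y, ‖KA a y‖) (EA P Q c s A a) ∧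
      ∃ u : EE P Q c A → ℝ, Summable u ∧ ∀ (p : EE P Q c A), ∀ x ∈ ball c (6 * s),
        ‖deriv (br P Q c s p.1) x ^ 2 * KA a (br P Q c s p.1 x)‖ ≤ u p := by
  have h0 := h.s0
  obtain ⟨C, hC, hmaj⟩ := ee_maj h hA
  have hA6 : A ⊆ ball c (6 * s) := hA.As.trans (ball_subset_ball (by linarith))
  have h6 : ball c (6 * s) ⊆ ball c (rho s) :=
    ball_subset_ball (by have := rho_ge h0; linarith)
  have h68 : ball c (6 * s) ⊆ ball c (8 * s) := ball_subset_ball (by linarith)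
  refine ⟨C * CK, mul_nonneg hC CK_pos.le, ?_⟩
  intro a ha
  obtain ⟨u, hu1, hu2, hu3⟩ := hmaj (fun y => ‖KA a y‖) CK (ka_int a).norm
    (fun y => norm_nonneg _) CK_pos.le (fun p hp x hx z hz => ka_cmp h ha hp.1 hx (hA6 hz))
  have hu4 : ∀ (p : EE P Q c A), ∀ x ∈ ball c (6 * s),
      ‖deriv (br P Q c s p.1) x ^ 2 * KA a (br P Q c s p.1 x)‖ ≤ u p := by
    intro p x hx
    rw [norm_mul, norm_pow]
    exact hu3 p x hx
  refine ⟨⟨?_, ?_⟩, u, hu1, hu4⟩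
  · refine Complex.differentiableOn_tsum_of_summable_norm hu1 (fun p => ?_) isOpen_ball hu4
    have hd := (br_diff h p.2.1).mono h6
    have hne0 : ∀ x ∈ ball c (6 * s), br P Q c s p.1 x ≠ 0 := fun x hx he =>
      mem_PA_nim h h.z0 p.2.1 ⟨x, h68 hx, he⟩
    have hne1 : ∀ x ∈ ball c (6 * s), br P Q c s p.1 x ≠ 1 := fun x hx he =>
      mem_PA_nim h h.z1 p.2.1 ⟨x, h68 hx, he⟩
    have hnea : ∀ x ∈ ball c (6 * s), br P Q c s p.1 x ≠ a := fun x hx he =>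
      lam_nim h ha p.2.1 ⟨x, h68 hx, he⟩
    refine DifferentiableOn.mul ((hd.deriv isOpen_ball).pow 2) ?_
    unfold KA
    refine DifferentiableOn.div (differentiableOn_const _) ((hd.mul (hd.sub_const 1)).mul
      (hd.sub_const a)) fun x hx => ?_
    exact mul_ne_zero (mul_ne_zero (hne0 x hx) (sub_ne_zero.2 (hne1 x hx)))
      (sub_ne_zero.2 (hnea x hx))
  · intro x hx
    have h1 : Summable fun p : EE P Q c A =>
        ‖deriv (br P Q c s p.1) x ^ 2 * KA a (br P Q c s p.1 x)‖ :=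
      Summable.of_nonneg_of_le (fun _ => norm_nonneg _) (fun p => hu4 p x hx) hu1
    unfold EA
    calc ‖∑' p : EE P Q c A, deriv (br P Q c s p.1) x ^ 2 * KA a (br P Q c s p.1 x)‖
        ≤ ∑' p : EE P Q c A, ‖deriv (br P Q c s p.1) x ^ 2 * KA a (br P Q c s p.1 x)‖ :=
          norm_tsum_le_tsum_norm h1
      _ ≤ ∑' p, u p := h1.tsum_le_tsum (fun p => hu4 p x hx) hu1
      _ ≤ C * CK * ∫ y, ‖KA a y‖ := hu2

end Pool.Agent.H1.PU
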