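import Pool.Agent.H1.PU.RetB
import Pool.Agent.H1.PU.Abs
import Pool.Agent.H50.ST.OPA

/-!
# Module Fla: the flat case, alignment for all returns

`Flt`: `φ` is a bounded holomorphic fixed point of the return operator, not `0`.

`fla_abs`: equality in the triangle inequality (`flat_abs`, Abs) and almost every point of `A` with `φ ≠ 0` is in the image of a first return; `fla1`: the constants for first returns (`flat_rho`); `fla`: all returns
(`rr_induct`). `r1_inf`: there are infinitely many first returns (finitely many images miss a disc at `c`). `fla_zero`: if `φ c = 0` then `φ` vanishes at the centres of all first returns, which accumulate in the closed disc: `φ = 0`.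
-/

set_option autoImplicit false

open Filter Topology Polynomial OnePoint Metric Set MeasureTheory

namespace Pool.Agent.H1.PU

open Pool.Agent.H44.Fatou Pool.Agent.H32.BT Pool.Agent.H80.AJ Pool.Agent.H35.EX Pool.Agent.H61.TT

variable {d : ℕ} {P Q : Polynomial ℂ} {PA : Set (OnePoint ℂ)} {c : ℂ} {s : ℝ}

/-- the flat case -/
def Flt (P Q : Polynomial ℂ) (c : ℂ) (s : ℝ) (A : Set ℂ) (φ : ℂ → ℂ) : Prop :=
  (∃ M : ℝ, Pool.H50.ST.Bd c (6 * s) M φ) ∧ (∃ w ∈ ball c (3 * s), φ w ≠ 0) ∧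
    ∀ w ∈ ball c (6 * s), φ w = Pool.H50.ST.Lop (g1 P Q c s A) φ w

variable {A : Set ℂ} {φ : ℂ → ℂ}

theorem R1_cnt (h : PSys d P Q PA c s) : Countable (R1 P Q c A) :=
  ((ix_cnt h).mono fun _ hp => hp.1).to_subtype

theorem vol_A (hN : Nice P Q c s A) : volume A ≠ ⊤ :=
  ne_top_of_le_ne_top measure_ball_lt_top.ne (measure_mono hN.As)

theorem r1_sum (h : PSys d P Q PA c s) (hN : Nice P Q c s A) :
    Summable fun p : R1 P Q c A => ‖deriv (br P Q c s p.1) c‖ ^ 2 := by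
  have hcnt := R1_cnt (A := A) h
  have hsB : ball c s ⊆ ball c (rho s) := ball_subset_ball (by
    have := rho_ge h.s0; have := h.s0; linarith)
  refine Pool.H50.ST.sum_bd (g := fun p : R1 P Q c A => br P Q c s p.1) h.s0
    (fun p => (br_diff h p.2.1).mono hsB) (fun p => (br_inj h p.2.1).mono hsB) (vol_A hN)
    (fun p => ?_) (fun p q hpq => ?_)
  · rintro _ ⟨u, hu, rfl⟩
    exact rr_maps h hN (R1_sub_RR p.2) (hN.bA hu)
  · exact (r1_disj h hN p.2 q.2 fun he => hpq (Subtype.ext he)).mono (image_mono hN.bA)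
      (image_mono hN.bA)

theorem dv_A (h : PSys d P Q PA c s) {p : ℕ × ℂ} (hp : p ∈ IX P Q c) :
    ∀ w ∈ ball c (6 * s), ‖deriv (br P Q c s p) w‖ ^ 2 ≤ 1600 * ‖deriv (br P Q c s p) c‖ ^ 2 := by
  intro w hw
  have hs := h.s0
  refine Pool.H50.ST.dv_bd (δ := 3 * s) (ρ := rho s) (by positivity) ?_ (br_diff h hp) (br_inj h hp)
    w ?_
  · have := rho_ge hs; linarith
  · rwa [show 2 * (3 * s) = 6 * s by ring]

theorem sub6 (hs : 0 < s) (hN : Nice P Q c s A) : A ⊆ ball c (6 * s) :=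
  hN.As.trans (ball_subset_ball (by linarith))

/-- the first step: equality in the triangle inequality -/
theorem fla_abs (h : PSys d P Q PA c s) (hN : Nice P Q c s A) (hφ : Flt P Q c s A φ) :
    (∀ p : R1 P Q c A, ∀ w ∈ A, (deriv (br P Q c s p.1) w ^ 2 * φ (br P Q c s p.1 w)) *
        (starRingEnd ℂ) (φ w) =
      ((‖deriv (br P Q c s p.1) w ^ 2 * φ (br P Q c s p.1 w)‖ * ‖φ w‖ : ℝ) : ℂ)) ∧
    ∀ᵐ w : ℂ, w ∈ A → φ w ≠ 0 → ∃ p : R1 P Q c A, w ∈ br P Q c s p.1 '' A := by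
  have hcnt := R1_cnt (A := A) h
  have hs := h.s0
  have hA6 := sub6 hs hN
  obtain ⟨⟨M, hdf, hbd⟩, -, hfx⟩ := hφ
  have hM0 : 0 ≤ M := (norm_nonneg _).trans (hbd c (mem_ball_self (by positivity)))
  refine flat_abs (g := fun p : R1 P Q c A => br P Q c s p.1) hN.Ao (vol_A hN)
    (fun p => (br_diff h p.2.1).mono (hN.sub hs)) (fun p => (br_inj h p.2.1).mono (hN.sub hs))
    (fun p => rr_maps h hN (R1_sub_RR p.2))
    (fun p q hpq => r1_disj h hN p.2 q.2 fun he => hpq (Subtype.ext he))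
    (hdf.mono hA6) (fun w hw => hbd w (hA6 hw)) (fun w hw => ?_) (fun w hw => ?_)
  · refine Summable.of_nonneg_of_le (fun _ => norm_nonneg _) (fun p => ?_)
      (((r1_sum h hN).mul_left 1600).mul_right M)
    rw [norm_mul, norm_pow]
    exact mul_le_mul (dv_A h p.2.1 w (hA6 hw))
      (hbd _ (hA6 (rr_maps h hN (R1_sub_RR p.2) hw))) (norm_nonneg _) (by positivity)
  · exact hfx w (hA6 hw)

theorem fix_neA (hs : 0 < s) (hφ : Flt P Q c s A φ) {w : ℂ} {r : ℝ} (hr : 0 < r)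
    (hw : ball w r ⊆ ball c (6 * s)) : ∃ z ∈ ball w r, φ z ≠ 0 := by
  by_contra hno
  push Not at hno
  obtain ⟨⟨M, hdf, -⟩, ⟨w1, hw1, hne⟩, -⟩ := hφ
  apply hne
  refine ident isOpen_ball (convex_ball c (6 * s)).isPreconnected hdf
    (differentiableOn_const (0 : ℂ)) (hw (mem_ball_self hr)) ?_ w1
    (ball_subset_ball (by linarith) hw1)
  filter_upwards [isOpen_ball.mem_nhds (mem_ball_self (x := w) hr)] with z hz using hno z hz

/-- the constants for first returns -/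
theorem fla1 (h : PSys d P Q PA c s) (hN : Nice P Q c s A) (hφ : Flt P Q c s A φ) {p : ℕ × ℂ}
    (hp : p ∈ R1 P Q c A) :
    ∃ ρ : ℝ, 0 < ρ ∧ ∀ w ∈ A, deriv (br P Q c s p) w ^ 2 * φ (br P Q c s p w) = ρ * φ w := by
  have hs := h.s0
  have hA6 := sub6 hs hN
  obtain ⟨M, hdf, -⟩ := hφ.1
  refine flat_rho hN.Ao hN.Ac ((br_diff h hp.1).mono (hN.sub hs))
    ((br_inj h hp.1).mono (hN.sub hs)) (rr_maps h hN (R1_sub_RR hp)) (hdf.mono hA6) ?_
    ((fla_abs h hN hφ).1 ⟨p, hp⟩)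
  obtain ⟨z, hz, hne⟩ := fix_neA hs hφ hs (ball_subset_ball (by linarith) : ball c s ⊆ _)
  exact ⟨z, hN.bA hz, hne⟩

theorem fla (h : PSys d P Q PA c s) (hA : Nice P Q c s A) (hf : Flt P Q c s A φ) {p : ℕ × ℂ}
    (hp : p ∈ RR P Q c A) :
    ∃ r : ℝ, 0 < r ∧ ∀ z ∈ A, deriv (br P Q c s p) z ^ 2 * φ (br P Q c s p z) = r * φ z := by
  have hs := h.s0
  refine rr_induct h hA (Φ := fun g => ∃ ρ : ℝ, 0 < ρ ∧
    ∀ w ∈ A, deriv g w ^ 2 * φ (g w) = ρ * φ w) ?_ (fun p hp => fla1 h hA hf hp) ?_ p hp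
  · rintro g g' hgg ⟨ρ, hρ, hg⟩
    refine ⟨ρ, hρ, fun w hw => ?_⟩
    have h1 : g =ᶠ[𝓝 w] g' := hgg.eventuallyEq_of_mem (hA.Ao.mem_nhds hw)
    rw [← h1.deriv_eq, ← hgg hw]
    exact hg w hw
  · rintro p hp r hr ⟨ρ, hρ, hg⟩
    obtain ⟨ρ', hρ', hg'⟩ := fla1 h hA hf hp
    refine ⟨ρ' * ρ, mul_pos hρ' hρ, fun w hw => ?_⟩
    have hmr := rr_maps h hA hr
    have h1 : deriv (fun u => br P Q c s p (br P Q c s r u)) w =
        deriv (br P Q c s p) (br P Q c s r w) * deriv (br P Q c s r) w := by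
      refine deriv_comp (h₂ := br P Q c s p) w ?_ ?_
      · exact (br_diff h hp.1).differentiableAt (isOpen_ball.mem_nhds (hA.sub hs (hmr hw)))
      · exact (br_diff h hr.1).differentiableAt (isOpen_ball.mem_nhds (hA.sub hs hw))
    have h2 := hg' _ (hmr hw)
    have h3 := hg w hw
    rw [h1]
    push_cast
    linear_combination (deriv (br P Q c s r) w) ^ 2 * h2 + ρ' * h3

/-- almost every point of `A` is in the image of a first return -/
theorem fla_ae (h : PSys d P Q PA c s) (hN : Nice P Q c s A) (hφ : Flt P Q c s A φ) :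
    ∀ᵐ w : ℂ, w ∈ A → φ w ≠ 0 → ∃ p ∈ R1 P Q c A, w ∈ br P Q c s p '' A := by
  filter_upwards [(fla_abs h hN hφ).2] with w hw h1 h2
  obtain ⟨p, hp⟩ := hw h1 h2
  exact ⟨p.1, p.2, hp⟩

theorem br_dne (h : PSys d P Q PA c s) {p : ℕ × ℂ} (hp : p ∈ IX P Q c) {w : ℂ}
    (hw : w ∈ ball c (6 * s)) : deriv (br P Q c s p) w ≠ 0 := by
  have hs := h.s0
  have h1 := deriv_ne (rho_pos hs) (br_diff h hp) (br_inj h hp) (w := w)
    (closedBall_subset_closedBall (by have := rho_ge hs; linarith) (ball_subset_closedBall hw))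
  exact norm_pos_iff.1 h1

/-- there are infinitely many first returns -/
theorem r1_inf (h : PSys d P Q PA c s) (hc : (ww P Q).eval c = 0) (hN : Nice P Q c s A)
    (hφ : Flt P Q c s A φ) : (R1 P Q c A).Infinite := by
  intro hfin
  have hs := h.s0
  have hA6 := sub6 hs hN
  obtain ⟨M, hdf, -⟩ := hφ.1
  have h2B : closedBall c (2 * s) ⊆ ball c (rho s) :=
    closedBall_subset_ball (by have := rho_ge hs; linarith)
  set K : Set ℂ := ⋃ p ∈ R1 P Q c A, br P Q c s p '' closedBall c (2 * s) with hK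
  have hKc : IsCompact K := hfin.isCompact_biUnion fun p hp =>
    (isCompact_closedBall c (2 * s)).image_of_continuousOn ((br_diff h hp.1).continuousOn.mono h2B)
  have hcK : c ∉ K := by
    intro hcK
    obtain ⟨p, hp, hpc⟩ := mem_iUnion₂.1 hcK
    exact omit_c h hc hp.1 hp.2.1 (image_mono h2B hpc)
  obtain ⟨ε, hε, hb⟩ := Metric.isOpen_iff.1 (hKc.isClosed.isOpen_compl.inter hN.Ao) c
    ⟨hcK, hN.c_mem hs⟩
  have hbA : ball c ε ⊆ A := fun z hz => (hb hz).2
  obtain ⟨z, hz, hne⟩ := fix_neA hs hφ hε (hbA.trans hA6)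
  have ho : IsOpen (ball c ε ∩ φ ⁻¹' {z : ℂ | z ≠ 0}) :=
    (hdf.mono (hbA.trans hA6)).continuousOn.isOpen_inter_preimage isOpen_ball isOpen_ne
  have hpos := ho.measure_pos volume ⟨z, hz, hne⟩
  refine hpos.ne' (measure_mono_null ?_ (ae_iff.1 (fla_ae h hN hφ)))
  rintro u ⟨hu, hune⟩ hcon
  obtain ⟨p, hp, hpu⟩ := hcon (hbA hu) hune
  apply (hb hu).1
  refine mem_iUnion₂.2 ⟨p, hp, ?_⟩
  exact image_mono (hN.As.trans ((ball_subset_ball (by linarith)).trans
    ball_subset_closedBall)) hpu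

/-- the fixed point does not vanish at `c` -/
theorem fix_c (h : PSys d P Q PA c s) (hc : (ww P Q).eval c = 0) (hN : Nice P Q c s A)
    (hφ : Flt P Q c s A φ) : φ c ≠ 0 := by
  intro h0
  have hs := h.s0
  have hA6 := sub6 hs hN
  have hcA := hN.c_mem hs
  obtain ⟨M, hdf, -⟩ := hφ.1
  have hz : ∀ p ∈ R1 P Q c A, φ p.2 = 0 := by
    intro p hp
    obtain ⟨ρ, hρ, hg⟩ := fla1 h hN hφ hp
    have h1 := hg c hcA
    rw [h0, mul_zero, br_c h hp.1, mul_eq_zero] at h1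
    rcases h1 with h1 | h1
    · exact absurd ((pow_eq_zero_iff two_ne_zero).1 h1) (br_dne h hp.1 (hA6 hcA))
    · exact h1
  have hinj : InjOn (fun p : ℕ × ℂ => p.2) (R1 P Q c A) := by
    intro p hp q hq hpq
    by_contra hne
    have h1 := r1_disj h hN hp hq hne
    rw [Set.disjoint_left] at h1
    refine h1 ⟨c, hcA, br_c h hp.1⟩ ⟨c, hcA, ?_⟩
    rw [br_c h hq.1]
    exact hpq.symm
  have hinf : ((fun p : ℕ × ℂ => p.2) '' R1 P Q c A).Infinite := (r1_inf h hc hN hφ).image hinj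
  have hsub : ((fun p : ℕ × ℂ => p.2) '' R1 P Q c A) ⊆ closedBall c (2 * s) := by
    rintro _ ⟨p, hp, rfl⟩
    exact ball_subset_closedBall (ball_subset_ball (by linarith) (hN.As hp.2.2.1))
  obtain ⟨x, hx, hacc⟩ := hinf.exists_accPt_of_subset_isCompact (isCompact_closedBall c (2 * s)) hsub
  rw [accPt_iff_frequently] at hacc
  have hfr : ∃ᶠ z in 𝓝[≠] x, φ z = 0 := by
    rw [frequently_nhdsWithin_iff]
    refine hacc.mono ?_
    rintro y ⟨hyx, p, hp, rfl⟩
    exact ⟨hz p hp, hyx⟩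
  have hx6 : x ∈ ball c (6 * s) := closedBall_subset_ball (by linarith) hx
  have hall := (hdf.analyticOnNhd isOpen_ball).eqOn_zero_of_preconnected_of_frequently_eq_zero
    (convex_ball c (6 * s)).isPreconnected hx6 hfr
  obtain ⟨w, hw, hne⟩ := hφ.2.1
  exact hne (hall (ball_subset_ball (by linarith) hw))

theorem fla_zero (h : PSys d P Q PA c s) (hA : Nice P Q c s A) (hf : Flt P Q c s A φ) (hc : Crt P Q c)
    {J : Set (OnePoint ℂ)} (_hJ : JP P Q c J) : φ c ≠ 0 := fix_c h hc.w hA hf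

end Pool.Agent.H1.PU
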