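import Pool.Agent.H1.PU.BraA
import Pool.Agent.H50.ST.KoeA

/-!
# Module Koe: Koebe estimates for the branches

PROOFS. Write `g = br P Q c s p`, univalent on `ball c (rho s)`, `rho s = 131072 KK s`. `koe_small`: `c` is not a value of `g`: `f^n (g u) = u ∉ PA`, but `f^n c ∈ PA` for `n ≥ 1` (`fc`, `iter_mem`). `univ_cover` on `ball u0 (rho s / 2) ⊆ ball c (rho s)`:
`rho s / 2 * ‖g' u0‖ / 16 ≤ ‖g u0 - c‖ ≤ 8 s`, so `‖g' u0‖ ≤ 256 s / rho s`; `distort_lip` (`R = rho s`, `ball c (8 s) ⊆ closedBall c (rho s / 2)`): `‖g u - g u'‖ ≤ KK * 256 s / (131072 KK s) * 16 s = s / 32`.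
`koe_low`: `univ_cover` on `ball x (2 s) ⊆ ball c (8 s)`: `b ∉ g '' ball x (2 s)`. `koe_cmp`: `‖g z - b‖ ≤ ‖g z - g x‖ + ‖g x - b‖`, `‖g z - g x‖ ≤ KK ‖g' x‖ 12 s ≤ 96 KK ‖g x - b‖`. `koe_der`: `distort`, `deriv_ne`.
-/

set_option autoImplicit false

open Filter Topology Polynomial OnePoint Metric Set MeasureTheory

namespace Pool.Agent.H1.PU

open Pool.Agent.H44.Fatou Pool.Agent.H32.BT Pool.Agent.H80.AJ Pool.Agent.H35.EX Pool.Agent.H61.TT

variable {d : ℕ} {P Q : Polynomial ℂ} {PA : Set (OnePoint ℂ)} {c : ℂ} {s : ℝ}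

theorem br_ne_c (h : PSys d P Q PA c s) {p : ℕ × ℂ} (hp : p ∈ IX P Q c) (h1 : 1 ≤ p.1) {u : ℂ}
    (hu : u ∈ ball c (rho s)) : br P Q c s p u ≠ c := by
  intro he
  have h2 := (br_spec h hp).inv u hu
  rw [he] at h2
  obtain ⟨m, hm⟩ := Nat.exists_eq_add_of_le' h1
  rw [hm, Function.iterate_succ_apply] at h2
  apply h.off u hu
  rw [← h2]
  exact iter_mem h.sys.inv h.fc m

private theorem rad8 (h0 : 0 < s) : ball c (8 * s) ⊆ closedBall c (rho s / 2) := by
  have hK := one_le_KK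
  intro w hw
  rw [mem_ball] at hw
  rw [mem_closedBall, rho]
  nlinarith

private theorem rad8' (h0 : 0 < s) : ball c (8 * s) ⊆ ball c (rho s) := by
  have hK := one_le_KK
  apply ball_subset_ball
  rw [rho]
  nlinarith

/-- a branch which returns is small -/
theorem koe_small (h : PSys d P Q PA c s) {p : ℕ × ℂ} (hp : p ∈ IX P Q c) (h1 : 1 ≤ p.1) {u0 : ℂ}
    (hu0 : u0 ∈ ball c (8 * s)) (hb : br P Q c s p u0 ∈ ball c (8 * s)) {u u' : ℂ}
    (hu : u ∈ ball c (8 * s)) (hu' : u' ∈ ball c (8 * s)) :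
    ‖br P Q c s p u - br P Q c s p u'‖ ≤ s / 20 := by
  have h2 := Pool.H50.ST.small_ret2 h.s0 (g := br P Q c s p) (c := c) (br_spec h hp).diff
    (br_inj h hp) (by
      rintro ⟨w, hw, hwc⟩
      exact br_ne_c h hp h1 hw hwc) hu0 hb
  have h3 := h2 u hu
  have h4 := h2 u' hu'
  have h5 : br P Q c s p u - br P Q c s p u' = (br P Q c s p u - br P Q c s p u0) -
      (br P Q c s p u' - br P Q c s p u0) := by ring
  rw [h5]
  refine (norm_sub_le _ _).trans ?_
  have := h.s0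
  linarith

theorem koe_der (h : PSys d P Q PA c s) {p : ℕ × ℂ} (hp : p ∈ IX P Q c) {x z : ℂ}
    (hx : x ∈ ball c (8 * s)) (hz : z ∈ ball c (8 * s)) :
    0 < ‖deriv (br P Q c s p) x‖ ∧ ‖deriv (br P Q c s p) x‖ ≤ KK * ‖deriv (br P Q c s p) z‖ := by
  have hx' := rad8 h.s0 hx
  have hz' := rad8 h.s0 hz
  exact ⟨deriv_ne (rho_pos h.s0) (br_spec h hp).diff (br_inj h hp) hx',
    distort (rho_pos h.s0) (br_spec h hp).diff (br_inj h hp) hx' hz'⟩

theorem koe_low (h : PSys d P Q PA c s) {p : ℕ × ℂ} (hp : p ∈ IX P Q c) {x b : ℂ} (hx : x ∈ ball c (6 * s))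
    (hb : b ∉ br P Q c s p '' ball c (8 * s)) : s * ‖deriv (br P Q c s p) x‖ / 8 ≤ ‖br P Q c s p x - b‖ := by
  have h0 := h.s0
  have hsub : ball x (2 * s) ⊆ ball c (8 * s) := by
    apply ball_subset_ball'
    rw [mem_ball] at hx
    linarith
  have hsub2 := hsub.trans (rad8' h.s0)
  by_contra hcon
  push Not at hcon
  apply hb
  apply image_mono hsub
  apply univ_cover (R := 2 * s) (by linarith) ((br_spec h hp).diff.mono hsub2)
    ((br_inj h hp).mono hsub2)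
  rw [mem_ball, dist_eq_norm, norm_sub_rev]
  refine lt_of_lt_of_le hcon (le_of_eq ?_)
  ring

/-- comparison of the distances to a point which is not in the image -/
theorem koe_cmp (h : PSys d P Q PA c s) {p : ℕ × ℂ} (hp : p ∈ IX P Q c) {x z b : ℂ}
    (hx : x ∈ ball c (6 * s)) (hz : z ∈ ball c (6 * s)) (hb : b ∉ br P Q c s p '' ball c (8 * s)) :
    ‖br P Q c s p z - b‖ ≤ (1 + 96 * KK) * ‖br P Q c s p x - b‖ := by
  have h0 := h.s0
  have h68 : ball c (6 * s) ⊆ ball c (8 * s) := ball_subset_ball (by linarith)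
  have h1 := koe_low h hp hx hb
  have h2 := distort_lip (rho_pos h.s0) (br_spec h hp).diff (br_inj h hp) (rad8 h0 (h68 hz))
    (rad8 h0 (h68 hx)) (rad8 h0 (h68 hx))
  have h3 : ‖z - x‖ ≤ 12 * s := by
    rw [mem_ball, dist_eq_norm] at hx hz
    have e : z - x = (z - c) - (x - c) := by ring
    rw [e]
    refine (norm_sub_le _ _).trans ?_
    linarith
  have hK := KK_pos
  have h4 : KK * ‖deriv (br P Q c s p) x‖ * ‖z - x‖ ≤ KK * ‖deriv (br P Q c s p) x‖ * (12 * s) :=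
    mul_le_mul_of_nonneg_left h3 (by positivity)
  have h5 : KK * ‖deriv (br P Q c s p) x‖ * (12 * s) ≤ 96 * KK * ‖br P Q c s p x - b‖ := by
    calc KK * ‖deriv (br P Q c s p) x‖ * (12 * s)
        = 96 * KK * (s * ‖deriv (br P Q c s p) x‖ / 8) := by ring
      _ ≤ 96 * KK * ‖br P Q c s p x - b‖ := mul_le_mul_of_nonneg_left h1 (by positivity)
  have h6 : ‖br P Q c s p z - b‖ ≤ ‖br P Q c s p z - br P Q c s p x‖ + ‖br P Q c s p x - b‖ :=
    norm_sub_le_norm_sub_add_norm_sub _ _ _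
  linarith

/-- the image of a small ball contains a ball -/
theorem koe_in (h : PSys d P Q PA c s) {p : ℕ × ℂ} (hp : p ∈ IX P Q c) :
    ball p.2 (s * ‖deriv (br P Q c s p) c‖ / 16) ⊆ br P Q c s p '' ball c s := by
  have h0 := h.s0
  have hsub : ball c s ⊆ ball c (rho s) :=
    (ball_subset_ball (by linarith)).trans (rad8' h.s0)
  have h1 := univ_cover h0 ((br_spec h hp).diff.mono hsub) ((br_inj h hp).mono hsub)
  rwa [(br_spec h hp).val] at h1

end Pool.Agent.H1.PU
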