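import Pool.Agent.H1.PU.Fla
import Pool.Agent.H61.TT.Fib
import Pool.Agent.H1.PU.Koe
import Pool.Agent.H35.NA.Alg

/-!
# Module Flc: the flat case, no noncritical way from `A` to the orbit of `c` (1017 (6)(d))

PROOF. `flift`: there is `H` holomorphic near `c` with `H c = w`, `f^k (H u) = f^n u` and `H' c = 0`: by induction on `n`, the planar `f^n`; by induction on `k`, the local inverses of `f` at the noncritical points of the orbit of `w`. `flc`: choose a disc `ball c ε` on which `H` is holomorphic with values in `A`, and `y0 ∈ ball c ε`, `y0 ≠ c`,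
`m > n` with `f^m y0 = c` (`JP.tr` for a preimage of `f^n c`... of `c`). `p2 = (m, y0)` and `p1 = (m - n + k, H y0)` are in `RR` and `br p1 = H ∘ br p2` near `c` (`uni_on`). `fla` for both: `H'(x)^2 φ(H x) = (r1 / r2) φ x` near `y0`, so on `ball c ε` (identity theorem), and at `c`: `0 = (r1 / r2) φ c`, against `fla_zero`.
-/

set_option autoImplicit false

open Filter Topology Polynomial OnePoint Metric Set MeasureTheory

namespace Pool.Agent.H1.PU

open Pool.Agent.H44.Fatou Pool.Agent.H32.BT Pool.Agent.H80.AJ Pool.Agent.H35.EX Pool.Agent.H61.TT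

variable {d : ℕ} {P Q : Polynomial ℂ} {PA : Set (OnePoint ℂ)} {c : ℂ} {s : ℝ}

variable {A : Set ℂ} {φ : ℂ → ℂ}

/-- the iterates are holomorphic near `c` in the plane, with derivative `0` at `c` for `n ≥ 1` -/
theorem lift0 (hw : (ww P Q).eval c = 0)
    (hf : ∀ n : ℕ, (rat P Q)^[n] (c : OnePoint ℂ) ≠ ∞) (n : ℕ) :
    ∃ H : ℂ → ℂ, AnalyticAt ℂ H c ∧ (∀ᶠ u : ℂ in 𝓝 c, (rat P Q)^[n] (u : OnePoint ℂ) = (H u : OnePoint ℂ)) ∧
      (1 ≤ n → deriv H c = 0) := by
  induction n with
  | zero => exact ⟨id, analyticAt_id, Eventually.of_forall fun u => rfl, fun h => absurd h (by omega)⟩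
  | succ n ih =>
    obtain ⟨H, hH, hHe, hHd⟩ := ih
    have hHc : (rat P Q)^[n] (c : OnePoint ℂ) = (H c : OnePoint ℂ) := hHe.self_of_nhds
    have hb : Q.eval (H c) ≠ 0 := by
      intro h0
      have h1 := hf (n + 1)
      rw [Function.iterate_succ_apply', hHc, rat_coe, h0] at h1
      unfold pt at h1
      rw [if_pos rfl] at h1
      exact h1 rfl
    have hgd : ∀ z, Q.eval z ≠ 0 → HasDerivAt (gg P Q) (Pool.Agent.H61.TT.dg P Q z) z := fun z hz => hasDerivAt_gg hz
    have hga : AnalyticAt ℂ (gg P Q) (H c) := by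
      refine DifferentiableOn.analyticAt (s := {z | Q.eval z ≠ 0}) ?_ ?_
      · intro z hz
        exact (hgd z hz).differentiableAt.differentiableWithinAt
      · exact (Q.continuous.isOpen_preimage _ isOpen_ne).mem_nhds hb
    have hcomp : HasDerivAt (fun u => gg P Q (H u)) (Pool.Agent.H61.TT.dg P Q (H c) * deriv H c) c :=
      (hgd _ hb).comp c hH.differentiableAt.hasDerivAt
    refine ⟨fun u => gg P Q (H u), hga.comp hH, ?_, fun _ => ?_⟩
    · have h1 : ∀ᶠ u in 𝓝 c, Q.eval (H u) ≠ 0 :=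
        (Q.continuous.continuousAt.comp hH.continuousAt).eventually_ne hb
      filter_upwards [hHe, h1] with u hu1 hu2
      rw [Function.iterate_succ_apply', hu1, rat_coe_of_ne hu2]
      rfl
    · rw [hcomp.deriv]
      rcases Nat.eq_zero_or_pos n with h0 | h0
      · subst h0
        have h1 : c = H c := OnePoint.coe_injective hHc
        have h2 : Pool.Agent.H61.TT.dg P Q (H c) = 0 := by
          unfold Pool.Agent.H61.TT.dg
          rw [← h1, hw, zero_div]
        rw [h2, zero_mul]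
      · rw [hHd h0, mul_zero]

/-- lifts of `f^n` near `c` through `f^k` -/
theorem flift (hw : (ww P Q).eval c = 0)
    (hf : ∀ n : ℕ, (rat P Q)^[n] (c : OnePoint ℂ) ≠ ∞) {n : ℕ} (hn : 1 ≤ n) (k : ℕ) :
    ∀ w : ℂ, (rat P Q)^[k] (w : OnePoint ℂ) = (rat P Q)^[n] (c : OnePoint ℂ) →
      (∀ i < k, ∃ z : ℂ, (rat P Q)^[i] (w : OnePoint ℂ) = (z : OnePoint ℂ) ∧ (ww P Q).eval z ≠ 0) →
      ∃ H : ℂ → ℂ, AnalyticAt ℂ H c ∧ H c = w ∧ deriv H c = 0 ∧
        ∀ᶠ u : ℂ in 𝓝 c, (rat P Q)^[k] (H u : OnePoint ℂ) = (rat P Q)^[n] (u : OnePoint ℂ) := by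
  induction k with
  | zero =>
    intro w hwc _
    obtain ⟨H, hH, hHe, hHd⟩ := lift0 hw hf n
    refine ⟨H, hH, ?_, hHd hn, ?_⟩
    · have h1 := hHe.self_of_nhds
      rw [← hwc] at h1
      exact (OnePoint.coe_injective h1).symm
    · filter_upwards [hHe] with u hu
      exact hu.symm
  | succ k ih =>
    intro w hwc hreg
    obtain ⟨z, hz, hzw⟩ := hreg 0 (Nat.succ_pos k)
    have hwz : w = z := OnePoint.coe_injective hz
    rw [← hwz] at hzw
    -- the image of w is finite
    have hfin : rat P Q (w : OnePoint ℂ) ≠ ∞ := by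
      rcases Nat.eq_zero_or_pos k with h0 | h0
      · subst h0
        intro h1
        have h2 : rat P Q (w : OnePoint ℂ) = (rat P Q)^[n] (c : OnePoint ℂ) := hwc
        rw [h2] at h1
        exact hf n h1
      · obtain ⟨z1, hz1, _⟩ := hreg 1 (by omega)
        intro h1
        have h2 : rat P Q (w : OnePoint ℂ) = (z1 : OnePoint ℂ) := hz1
        rw [h2] at h1
        exact OnePoint.coe_ne_infty z1 h1
    have hb : Q.eval w ≠ 0 := by
      intro h0
      apply hfin
      rw [rat_coe, h0]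
      unfold pt
      rw [if_pos rfl]
    have hgw : rat P Q (w : OnePoint ℂ) = (gg P Q w : OnePoint ℂ) := by
      rw [rat_coe_of_ne hb]
      rfl
    obtain ⟨H, hH, hHc, hHd, hHe⟩ := ih (gg P Q w) (by
      rw [← hgw, ← Function.iterate_succ_apply]
      exact hwc) (by
      intro i hi
      rw [← hgw, ← Function.iterate_succ_apply]
      exact hreg (i + 1) (by omega))
    have hgd : ∀ z, Q.eval z ≠ 0 → HasDerivAt (gg P Q) (Pool.Agent.H61.TT.dg P Q z) z := fun z hz => hasDerivAt_gg hz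
    have hga : AnalyticAt ℂ (gg P Q) w := by
      refine DifferentiableOn.analyticAt (s := {z | Q.eval z ≠ 0}) ?_ ?_
      · intro z hz
        exact (hgd z hz).differentiableAt.differentiableWithinAt
      · exact (Q.continuous.isOpen_preimage _ isOpen_ne).mem_nhds hb
    have hn' : deriv (gg P Q) w ≠ 0 := by
      rw [(hgd w hb).deriv]
      exact (dg_ne hb).2 hzw
    obtain ⟨y, hy⟩ : ∃ y : ℂ → ℂ, y = hga.hasStrictDerivAt.localInverse _ _ _ hn' := ⟨_, rfl⟩
    have hya : AnalyticAt ℂ y (gg P Q w) := by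
      rw [hy]
      exact hga.analyticAt_localInverse hn'
    have hyw : y (gg P Q w) = w := by
      rw [hy]
      exact HasStrictFDerivAt.localInverse_apply_image ..
    have hyr : ∀ᶠ z in 𝓝 (gg P Q w), gg P Q (y z) = z := by
      rw [hy]
      exact HasStrictDerivAt.eventually_right_inverse ..
    rw [← hHc] at hya hyr
    refine ⟨fun u => y (H u), hya.comp hH, ?_, ?_, ?_⟩
    · show y (H c) = w
      rw [hHc, hyw]
    · have h1 : HasDerivAt (fun u => y (H u)) (deriv y (H c) * deriv H c) c :=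
        hya.differentiableAt.hasDerivAt.comp c hH.differentiableAt.hasDerivAt
      rw [h1.deriv, hHd, mul_zero]
    · have h1 : ∀ᶠ u in 𝓝 c, gg P Q (y (H u)) = H u := hH.continuousAt.eventually hyr
      have h2 : ∀ᶠ u in 𝓝 c, Q.eval (y (H u)) ≠ 0 := by
        have h3 : ContinuousAt (fun u => y (H u)) c :=
          ContinuousAt.comp (g := y) (f := H) (x := c) hya.continuousAt hH.continuousAt
        refine (Q.continuous.continuousAt.comp h3).eventually_ne ?_
        show Q.eval (y (H c)) ≠ 0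
        rw [hHc, hyw]
        exact hb
      filter_upwards [h1, h2, hHe] with u hu1 hu2 hu3
      rw [Function.iterate_succ_apply, rat_coe_of_ne hu2, ← hu3]
      congr 2

theorem flc (h : PSys d P Q PA c s) (hA : Nice P Q c s A) (hf : Flt P Q c s A φ) (hc : Crt P Q c)
    {J : Set (OnePoint ℂ)} (hJ : JP P Q c J) {n k : ℕ} (hn : 1 ≤ n) {w pt : ℂ} (hw : w ∈ A)
    (h1 : (rat P Q)^[n] (c : OnePoint ℂ) = (pt : OnePoint ℂ))
    (h2 : (rat P Q)^[k] (w : OnePoint ℂ) = (pt : OnePoint ℂ))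
    (h3 : ∀ i < k, ∃ z : ℂ, (rat P Q)^[i] (w : OnePoint ℂ) = (z : OnePoint ℂ) ∧ (ww P Q).eval z ≠ 0) :
    False := by
  have hf' := hf
  obtain ⟨H, hH, hHc, hHd, hHe⟩ := flift hc.w (fun n => hc.ninf n 0) hn k w (h2.trans h1.symm) h3
  have hcA : c ∈ A := hA.bA (mem_ball_self h.s0)
  have hHA : ∀ᶠ u in 𝓝 c, H u ∈ A := hH.continuousAt.eventually (hA.Ao.mem_nhds (by rw [hHc]; exact hw))
  have huA : ∀ᶠ u in 𝓝 c, u ∈ A := hA.Ao.mem_nhds hcA
  obtain ⟨ε, hε, hball⟩ := Metric.eventually_nhds_iff_ball.1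
    ((hH.eventually_analyticAt.and hHe).and (hHA.and huA))
  have hHdiff : DifferentiableOn ℂ H (ball c ε) := fun z hz =>
    (hball z hz).1.1.differentiableAt.differentiableWithinAt
  have hHf : ∀ u ∈ ball c ε, (rat P Q)^[k] (H u : OnePoint ℂ) = (rat P Q)^[n] (u : OnePoint ℂ) :=
    fun u hu => (hball u hu).1.2
  have hHA' : ∀ u ∈ ball c ε, H u ∈ A := fun u hu => (hball u hu).2.1
  have hεA : ball c ε ⊆ A := fun u hu => (hball u hu).2.2
  -- a preimage of `c` of order `> n` near `c`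
  obtain ⟨m, y0, hy0, hm, hmn⟩ : ∃ (m : ℕ) (y0 : ℂ), y0 ∈ ball c ε ∧
      (rat P Q)^[m] (y0 : OnePoint ℂ) = (c : OnePoint ℂ) ∧ n < m := by
    have hsur : Function.Surjective ((rat P Q)^[n + 1]) :=
      (Pool.Agent.H35.NA.rat_surjective h.sys.cop h.sys.deg).iterate (n + 1)
    obtain ⟨z2, hz2⟩ := hsur (c : OnePoint ℂ)
    have hJit : ∀ (j : ℕ) (z : OnePoint ℂ), (rat P Q)^[j] z ∈ J → z ∈ J := by
      intro j
      induction j with
      | zero => exact fun z hz => hz
      | succ j ih =>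
        intro z hz
        rw [Function.iterate_succ_apply] at hz
        exact (hJ.inv z).2 (ih _ hz)
    have hz2J : z2 ∈ J := hJit (n + 1) z2 (by rw [hz2]; exact hJ.cJ)
    obtain ⟨m, u, hu, hm⟩ := hJ.tr c hJ.cJ z2 hz2J ε hε
    refine ⟨n + 1 + m, u, hu, ?_, by omega⟩
    rw [Function.iterate_add_apply, hm, hz2]
  have hp2 : (m, y0) ∈ RR P Q c A := ⟨hm, by show 1 ≤ m; omega, hεA hy0⟩
  have hp1I : (m - n + k, H y0) ∈ IX P Q c := by
    show (rat P Q)^[m - n + k] (H y0 : OnePoint ℂ) = _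
    rw [Function.iterate_add_apply, hHf y0 hy0, ← Function.iterate_add_apply, Nat.sub_add_cancel hmn.le]
    exact hm
  have hp1 : (m - n + k, H y0) ∈ RR P Q c A := ⟨hp1I, by show 1 ≤ m - n + k; omega, hHA' y0 hy0⟩
  obtain ⟨r1, hr1, hfl1⟩ := fla h hA hf hp1
  obtain ⟨r2, hr2, hfl2⟩ := fla h hA hf hp2
  -- a small disc around `c`
  have hg2c : br P Q c s (m, y0) c = y0 := br_c h hp2.1
  have hg2cont : ContinuousAt (br P Q c s (m, y0)) c :=
    (br_diff h hp2.1).continuousOn.continuousAt (isOpen_ball.mem_nhds (c_mem h))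
  have hev : ∀ᶠ u in 𝓝 c, br P Q c s (m, y0) u ∈ ball c ε := by
    unfold ContinuousAt at hg2cont
    rw [hg2c] at hg2cont
    exact hg2cont.eventually (isOpen_ball.mem_nhds hy0)
  have hev2 : ∀ᶠ u in 𝓝 c, u ∈ ball c (rho s) := isOpen_ball.mem_nhds (c_mem h)
  obtain ⟨δ, hδ, hδb⟩ := Metric.eventually_nhds_iff_ball.1 ((hev.and hev2).and huA)
  have heq : ∀ u ∈ ball c δ, H (br P Q c s (m, y0) u) = br P Q c s (m - n + k, H y0) u := by
    have h4 := uni_on (br_spec h hp1I) (convex_ball c δ).isPreconnected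
      (fun u hu => (hδb u hu).1.2)
      (g := fun u => (H (br P Q c s (m, y0) u) : OnePoint ℂ))
      (continuous_coe.comp_continuousOn (hHdiff.continuousOn.comp
        ((br_diff h hp2.1).continuousOn.mono fun u hu => (hδb u hu).1.2)
        (fun u hu => (hδb u hu).1.1)))
      (fun u hu => by
        show (rat P Q)^[m - n + k] (H (br P Q c s (m, y0) u) : OnePoint ℂ) = _
        rw [Function.iterate_add_apply, hHf _ (hδb u hu).1.1, ← Function.iterate_add_apply,
          Nat.sub_add_cancel hmn.le]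
        exact br_inv h hp2.1 (hδb u hu).1.2)
      (mem_ball_self hδ) (by
        show (H (br P Q c s (m, y0) c) : OnePoint ℂ) = _
        rw [hg2c, br_c h hp1I])
    intro u hu
    exact OnePoint.coe_injective (h4 u hu)
  obtain ⟨⟨M, hφd, -⟩, -, -⟩ := hf
  have hA6 : A ⊆ ball c (6 * s) := hA.As.trans (ball_subset_ball (by have := h.s0; linarith))
  -- the identity near `y0`
  have hid : ∀ u ∈ ball c δ, deriv H (br P Q c s (m, y0) u) ^ 2 * φ (H (br P Q c s (m, y0) u)) -
      ((r1 / r2 : ℝ) : ℂ) * φ (br P Q c s (m, y0) u) = 0 := by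
    intro u hu
    obtain ⟨⟨hu1, hu2⟩, hu3⟩ := hδb u hu
    have e1 := hfl1 u hu3
    have e2 := hfl2 u hu3
    have hd2 : HasDerivAt (br P Q c s (m, y0)) (deriv (br P Q c s (m, y0)) u) u :=
      ((br_diff h hp2.1).differentiableAt (isOpen_ball.mem_nhds hu2)).hasDerivAt
    have hdH : HasDerivAt H (deriv H (br P Q c s (m, y0) u)) (br P Q c s (m, y0) u) :=
      (hball _ hu1).1.1.differentiableAt.hasDerivAt
    have hd1 : deriv (br P Q c s (m - n + k, H y0)) u =
        deriv H (br P Q c s (m, y0) u) * deriv (br P Q c s (m, y0)) u := by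
      have e3 : (fun u => H (br P Q c s (m, y0) u)) =ᶠ[𝓝 u] br P Q c s (m - n + k, H y0) := by
        filter_upwards [isOpen_ball.mem_nhds hu] with x hx
        exact heq x hx
      rw [← e3.deriv_eq]
      exact (hdH.comp u hd2).deriv
    have hne : deriv (br P Q c s (m, y0)) u ≠ 0 := by
      have e4 : u ∈ ball c (8 * s) := by
        refine ball_subset_ball ?_ (hA.As hu3)
        have := h.s0
        linarith
      exact norm_pos_iff.1 (koe_der h hp2.1 e4 e4).1
    rw [hd1, ← heq u hu] at e1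
    have hr2c : (r2 : ℂ) ≠ 0 := by
      exact_mod_cast hr2.ne'
    have e5 : deriv (br P Q c s (m, y0)) u ^ 2 *
        (deriv H (br P Q c s (m, y0) u) ^ 2 * φ (H (br P Q c s (m, y0) u)) -
      ((r1 / r2 : ℝ) : ℂ) * φ (br P Q c s (m, y0) u)) = 0 := by
      have e6 : (deriv H (br P Q c s (m, y0) u) * deriv (br P Q c s (m, y0)) u) ^ 2 *
          φ (H (br P Q c s (m, y0) u)) * r2 = r1 * (deriv (br P Q c s (m, y0)) u ^ 2 *
          φ (br P Q c s (m, y0) u)) := by
        rw [e1, e2]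
        ring
      push_cast
      field_simp
      linear_combination e6
    rcases mul_eq_zero.1 e5 with e7 | e7
    · exact absurd e7 (pow_ne_zero 2 hne)
    · exact e7
  have hΘ : AnalyticOnNhd ℂ (fun x => deriv H x ^ 2 * φ (H x) - ((r1 / r2 : ℝ) : ℂ) * φ x)
      (ball c ε) := by
    refine DifferentiableOn.analyticOnNhd ?_ isOpen_ball
    refine (((hHdiff.deriv isOpen_ball).pow 2).mul (hφd.comp hHdiff fun u hu => hA6 (hHA' u hu))).sub
      ((hφd.mono (hεA.trans hA6)).const_mul _)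
  have hev0 : (fun x => deriv H x ^ 2 * φ (H x) - ((r1 / r2 : ℝ) : ℂ) * φ x) =ᶠ[𝓝 y0] 0 := by
    have e1 : IsOpen (br P Q c s (m, y0) '' ball c δ) :=
      Br.open_image (br_spec h hp2.1) isOpen_ball fun u hu => (hδb u hu).1.2
    have e2 : y0 ∈ br P Q c s (m, y0) '' ball c δ := ⟨c, mem_ball_self hδ, hg2c⟩
    filter_upwards [e1.mem_nhds e2] with x hx
    obtain ⟨u, hu, rfl⟩ := hx
    exact hid u hu
  have hzero := hΘ.eqOn_zero_of_preconnected_of_eventuallyEq_zero
    (convex_ball c ε).isPreconnected hy0 hev0 (mem_ball_self hε)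
  have hzero' : deriv H c ^ 2 * φ (H c) - ((r1 / r2 : ℝ) : ℂ) * φ c = 0 := hzero
  rw [hHd] at hzero'
  have hrr : ((r1 / r2 : ℝ) : ℂ) ≠ 0 := by
    have : r1 / r2 ≠ 0 := (div_pos hr1 hr2).ne'
    exact_mod_cast this
  have hφc : φ c = 0 := by
    have e1 : ((r1 / r2 : ℝ) : ℂ) * φ c = 0 := by linear_combination -hzero'
    exact (mul_eq_zero.1 e1).resolve_left hrr
  exact fla_zero h hA hf' hc hJ hφc

end Pool.Agent.H1.PU
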