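import Pool.Agent.H1.PU.Flc
import Pool.Agent.H61.TT.Fib

/-!
# Module Fld: a noncritical way exists; the flat case is impossible (1017 (6)(e))

PROOF. `v_n = f^n c` is finite for all `n` (`ninf` with `f^0 ∞ = ∞`) and the `v_n` are distinct (`inf`). All but finitely many points are regular values (`reg_finite`, H61/TT/Fib), so for `n ≥ N` `fs P Q v_n` has `d ≥ 2` elements: choose `w_n ∈ fs P Q v_n`, `w_n ≠ v_(n-1)`. CLAIM: for some `n ≥ N` `w_n` is not of the form `f^i c'`, `i ≥ 0`,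
`ww P Q c' = 0`. Otherwise `w_n = f^(i n) (c' n)` for all `n ≥ N`, `c' n` a root of `ww` (finitely many): two `n < n'` with the same `c'`: `f^(n'-n+i n+1) c' = f^(n'-n) v_n = v_(n') = f^(i n' + 1) c'`. If the exponents are different, `c'` and so `c` has a finite orbit (two equal `f^a c' = f^b c'`, `a < b`, give `v_(m+b-a) = v_m` for large `m`, against `inf`).
If they are equal, `w_(n') = f^(i n') c' = f^(n'-n-1) (f^(i n + 1) c') = f^(n'-n-1) v_n = v_(n'-1)`: contradiction with the choice. Now `w_n ∈ J` (`JP.inv`, `cJ`): `JP.tr` with `z1 = c`, `z2 = w_n`, `ε = s`: `u ∈ ball c s ⊆ A`, `f^m u = w_n`. The points `f^i u`, `i ≤ m`, are finite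
(otherwise `v_n = f (w_n)` is in the orbit of `∞`, against `ninf`) and not critical (claim). `flc` with `k = m + 1`.
-/

set_option autoImplicit false

open Filter Topology Polynomial OnePoint Metric Set MeasureTheory

namespace Pool.Agent.H1.PU

open Pool.Agent.H44.Fatou Pool.Agent.H32.BT Pool.Agent.H80.AJ Pool.Agent.H35.EX Pool.Agent.H61.TT

variable {d : ℕ} {P Q : Polynomial ℂ} {PA : Set (OnePoint ℂ)} {c : ℂ} {s : ℝ}

variable {A : Set ℂ} {φ : ℂ → ℂ}

/-- a preimage of a point of the orbit of `c` which is not in the orbit of a critical point -/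
theorem fld_pre (hrd : RatD d P Q) {v : ℕ → ℂ}
    (hv : ∀ n, rat P Q (v n : OnePoint ℂ) = (v (n + 1) : OnePoint ℂ)) (hvi : Function.Injective v) :
    ∃ (n : ℕ) (w : ℂ), rat P Q (w : OnePoint ℂ) = (v (n + 1) : OnePoint ℂ) ∧
      ∀ c' : ℂ, (ww P Q).eval c' = 0 → ∀ i : ℕ, (rat P Q)^[i] (c' : OnePoint ℂ) ≠ (w : OnePoint ℂ) := by
  have hit : ∀ m n, (rat P Q)^[m] (v n : OnePoint ℂ) = (v (n + m) : OnePoint ℂ) := by
    intro m
    induction m with
    | zero => intro n; rfl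
    | succ m ih =>
      intro n
      rw [Function.iterate_succ_apply, hv, ih]
      congr 2
      omega
  obtain ⟨N, hN⟩ : ∃ N : ℕ, ∀ n, N ≤ n → RegV d P Q (v (n + 1)) := by
    have h1 : {n : ℕ | ¬ RegV d P Q (v n)}.Finite :=
      Set.Finite.preimage hvi.injOn (reg_finite hrd)
    obtain ⟨N, hN⟩ := h1.bddAbove
    refine ⟨N, fun n hn => ?_⟩
    by_contra hcon
    have h2 := hN (show n + 1 ∈ {n : ℕ | ¬ RegV d P Q (v n)} from hcon)
    omega
  have hw : ∀ n, ∃ w : ℂ, N ≤ n → (w ∈ fs P Q (v (n + 1)) ∧ w ≠ v n) := by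
    intro n
    by_cases hn : N ≤ n
    · have h1 := (hN n hn).card
      have h2 : 1 < (fs P Q (v (n + 1))).card := by
        rw [h1]
        exact hrd.hd
      obtain ⟨w, hw1, hw2⟩ := Finset.exists_mem_ne h2 (v n)
      exact ⟨w, fun _ => ⟨hw1, hw2⟩⟩
    · exact ⟨0, fun h => absurd h hn⟩
  choose w hw using hw
  have hfw : ∀ n, N ≤ n → rat P Q (w n : OnePoint ℂ) = (v (n + 1) : OnePoint ℂ) := by
    intro n hn
    obtain ⟨h1, h2⟩ := (mem_fs hrd _ _).1 (hw n hn).1
    rw [rat_coe_of_ne h1]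
    exact congrArg _ h2
  by_contra hcon
  push Not at hcon
  have hcon' : ∀ n, ∃ (c' : ℂ) (i : ℕ), N ≤ n → ((ww P Q).eval c' = 0 ∧
      (rat P Q)^[i] (c' : OnePoint ℂ) = (w n : OnePoint ℂ)) := by
    intro n
    by_cases hn : N ≤ n
    · obtain ⟨c', h1, i, h2⟩ := hcon n (w n) (hfw n hn)
      exact ⟨c', i, fun _ => ⟨h1, h2⟩⟩
    · exact ⟨0, 0, fun h => absurd h hn⟩
  choose c' i hci using hcon'
  have hfin : {y : ℂ | (ww P Q).eval y = 0}.Finite := finite_setOfPred_isRoot (ww_ne hrd)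
  obtain ⟨n1, hn1, n2, hn2, hne, he⟩ : ∃ i ∈ Set.Ici N, ∃ j ∈ Set.Ici N, i ≠ j ∧ c' i = c' j := by
    obtain ⟨i, hi, j, hj, hij, he⟩ := (Set.Ici_infinite N).exists_ne_map_eq_of_mapsTo (f := c')
      (t := {y : ℂ | (ww P Q).eval y = 0}) (fun n hn => (hci n hn).1) hfin
    exact ⟨i, hi, j, hj, hij, he⟩
  have key : ∀ n n' : ℕ, N ≤ n → N ≤ n' → n < n' → c' n = c' n' → False := by
    intro n n' hn hn' hlt he
    have h1 : (rat P Q)^[i n + 1] (c' n : OnePoint ℂ) = (v (n + 1) : OnePoint ℂ) := by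
      rw [Function.iterate_succ_apply', (hci n hn).2, hfw n hn]
    have h2 : (rat P Q)^[i n' + 1] (c' n : OnePoint ℂ) = (v (n' + 1) : OnePoint ℂ) := by
      rw [he, Function.iterate_succ_apply', (hci n' hn').2, hfw n' hn']
    have h3 : (rat P Q)^[(n' - n) + (i n + 1)] (c' n : OnePoint ℂ) = (v (n' + 1) : OnePoint ℂ) := by
      rw [Function.iterate_add_apply, h1, hit]
      congr 2
      omega
    have hper : ∀ a b : ℕ, a < b → (rat P Q)^[a] (c' n : OnePoint ℂ) = (v (n' + 1) : OnePoint ℂ) →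
        (rat P Q)^[b] (c' n : OnePoint ℂ) = (v (n' + 1) : OnePoint ℂ) → False := by
      intro a b hab ha hb
      have e : b = (b - a) + a := by omega
      rw [e, Function.iterate_add_apply, ha, hit] at hb
      have h4 := hvi (OnePoint.coe_injective hb)
      omega
    rcases lt_trichotomy ((n' - n) + (i n + 1)) (i n' + 1) with h4 | h4 | h4
    · exact hper _ _ h4 h3 h2
    · have h5 : (rat P Q)^[(n' - n - 1) + (i n + 1)] (c' n : OnePoint ℂ) = (v n' : OnePoint ℂ) := by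
        rw [Function.iterate_add_apply, h1, hit]
        congr 2
        omega
      have e : (n' - n - 1) + (i n + 1) = i n' := by omega
      rw [e, he, (hci n' hn').2] at h5
      exact (hw n' hn').2 (OnePoint.coe_injective h5)
    · exact hper _ _ h4 h2 h3
  rcases lt_or_gt_of_ne hne with h | h
  · exact key n1 n2 hn1 hn2 h he
  · exact key n2 n1 hn2 hn1 h he.symm

theorem fld (h : PSys d P Q PA c s) (hc : Crt P Q c) {J : Set (OnePoint ℂ)} (hJ : JP P Q c J) :
    ∃ (n k : ℕ) (w pt : ℂ), 1 ≤ n ∧ w ∈ ball c s ∧ (rat P Q)^[n] (c : OnePoint ℂ) = (pt : OnePoint ℂ) ∧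
      (rat P Q)^[k] (w : OnePoint ℂ) = (pt : OnePoint ℂ) ∧
      ∀ i < k, ∃ z : ℂ, (rat P Q)^[i] (w : OnePoint ℂ) = (z : OnePoint ℂ) ∧ (ww P Q).eval z ≠ 0 := by
  have hfin : ∀ n : ℕ, ∃ z : ℂ, (rat P Q)^[n] (c : OnePoint ℂ) = (z : OnePoint ℂ) := by
    intro n
    obtain ⟨z, hz⟩ := OnePoint.ne_infty_iff_exists.1 (hc.ninf n 0)
    exact ⟨z, hz.symm⟩
  choose v hv using hfin
  have hstep : ∀ n, rat P Q (v n : OnePoint ℂ) = (v (n + 1) : OnePoint ℂ) := by
    intro n
    rw [← hv n, ← hv (n + 1), Function.iterate_succ_apply']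
  have hvi : Function.Injective v := by
    intro m n hmn
    by_contra hne
    rcases lt_or_gt_of_ne hne with h1 | h1
    · exact hc.inf m n h1 (by rw [hv, hv, hmn])
    · exact hc.inf n m h1 (by rw [hv, hv, hmn])
  obtain ⟨n, w, hw, hwc⟩ := fld_pre h.rd hstep hvi
  have hvJ : ∀ n, (v n : OnePoint ℂ) ∈ J := by
    intro n
    induction n with
    | zero =>
      have h1 : (c : OnePoint ℂ) = (v 0 : OnePoint ℂ) := hv 0
      rw [← h1]
      exact hJ.cJ
    | succ n ih =>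
      rw [← hstep n]
      exact (hJ.inv _).1 ih
  have hwJ : (w : OnePoint ℂ) ∈ J := by
    rw [hJ.inv, hw]
    exact hvJ _
  obtain ⟨m, u, hu, hm⟩ := hJ.tr c hJ.cJ _ hwJ s h.s0
  have hm1 : (rat P Q)^[m + 1] (u : OnePoint ℂ) = (v (n + 1) : OnePoint ℂ) := by
    rw [Function.iterate_succ_apply', hm, hw]
  refine ⟨n + 1, m + 1, u, v (n + 1), by omega, hu, hv _, hm1, fun i hi => ?_⟩
  obtain ⟨z, hz⟩ := OnePoint.ne_infty_iff_exists.1 (show (rat P Q)^[i] (u : OnePoint ℂ) ≠ ∞ by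
    intro h0
    have e : m + 1 = (m + 1 - i) + i := by omega
    rw [e, Function.iterate_add_apply, h0, ← hv] at hm1
    exact hc.ninf _ _ hm1.symm)
  refine ⟨z, hz.symm, fun h0 => ?_⟩
  refine hwc z h0 (m - i) ?_
  rw [hz, ← Function.iterate_add_apply, Nat.sub_add_cancel (by omega)]
  exact hm

/-- the flat case is impossible -/
theorem flat (h : PSys d P Q PA c s) (hA : Nice P Q c s A) (hf : Flt P Q c s A φ) (hc : Crt P Q c)
    {J : Set (OnePoint ℂ)} (hJ : JP P Q c J) : False := by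
  obtain ⟨n, k, w, pt, hn, hw, h1, h2, h3⟩ := fld h hc hJ
  exact flc h hA hf hc hJ hn (hA.bA hw) h1 h2 h3

end Pool.Agent.H1.PU
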