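import Pool.Agent.H1.PU.Ret
import Pool.Agent.H50.ST.OPA
import Pool.Agent.H50.ST.KoeA
import Pool.Agent.H1.RO.Der
import Pool.Agent.H1.PU.Koe

/-!
# Module Sum: the first return branches satisfy the hypotheses of `opa`

PROOF. `rsys` (Ret), `δ = 3 s`: `ball c (2 δ) = ball c (6 s)`, returns land in `ball c (2 s) ⊆ ball c (3/4 δ)`; `u p = (KK ‖deriv (br p) c‖)^2` (`distort`), summable by `sum_bd` (KoeA) or `RO/Der`.
-/

set_option autoImplicit false

open Filter Topology Polynomial OnePoint Metric Set MeasureTheory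

namespace Pool.Agent.H1.PU

open Pool.Agent.H44.Fatou Pool.Agent.H32.BT Pool.Agent.H80.AJ Pool.Agent.H35.EX Pool.Agent.H61.TT

variable {d : ℕ} {P Q : Polynomial ℂ} {PA : Set (OnePoint ℂ)} {c : ℂ} {s : ℝ}

variable {A : Set ℂ}

private theorem r1_rsys (h : PSys d P Q PA c s) (hA : Nice P Q c s A) :
    Pool.Agent.H1.RO.RSys (R1 P Q c A) c s A (g1 P Q c s A) := by
  have hs := h.s0
  have h8 : ball c (8 * s) ⊆ ball c (rho s) := ball_subset_ball (by have := rho_ge hs; linarith)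
  have hc8 : c ∈ ball c (8 * s) := mem_ball_self (by linarith)
  have hcA := hA.c_mem hs
  refine ⟨hs, hA.Ao, hA.Ac, (ball_subset_ball (by linarith)).trans hA.bA,
    hA.As.trans (ball_subset_ball (by linarith)), fun i => (br_diff h i.2.1).mono h8,
    fun i => (br_inj h i.2.1).mono h8, fun i w hw => ?_, fun i => maps_of h hA i.2.1 i.2.2.2.1,
    fun i j hij => r1_disj h hA i.2 j.2 fun he => hij (Subtype.ext he)⟩
  have h1 : br P Q c s i.1 c ∈ A := maps_of h hA i.2.1 i.2.2.2.1 hcA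
  have h2 := hA.As h1
  have h3 := koe_small h i.2.1 i.2.2.1 hc8 (ball_subset_ball (by linarith) h2) hw hc8
  rw [mem_ball, dist_eq_norm] at h2
  show br P Q c s i.1 w ∈ ball c (2 * s)
  rw [mem_ball, dist_eq_norm]
  have e : br P Q c s i.1 w - c = (br P Q c s i.1 w - br P Q c s i.1 c) +
      (br P Q c s i.1 c - c) := by ring
  rw [e]
  refine lt_of_le_of_lt (norm_add_le _ _) ?_
  linarith

theorem r1_sys (h : PSys d P Q PA c s) (hA : Nice P Q c s A) :
    ∃ u : R1 P Q c A → ℝ, Pool.H50.ST.Sys c (3 * s) (g1 P Q c s A) u := by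
  have hs := h.s0
  have hK := KK_pos
  have hr := r1_rsys h hA
  have h68 : ball c (2 * (3 * s)) ⊆ ball c (8 * s) := ball_subset_ball (by linarith)
  have hc8 : c ∈ ball c (8 * s) := mem_ball_self (by linarith)
  have hc4 : c ∈ ball c (4 * s) := mem_ball_self (by linarith)
  refine ⟨fun i => KK ^ 2 * ‖deriv (g1 P Q c s A i) c‖ ^ 2, ?_, ?_, ?_, ?_⟩
  · exact (Pool.Agent.H1.RO.der_sum hr hc4).1.mul_left _
  · intro i
    exact (hr.dif i).mono h68
  · intro i w hw
    have h1 := hr.big i (h68 hw)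
    exact ball_subset_ball (by linarith) h1
  · intro i w hw
    have h1 : ‖deriv (g1 P Q c s A i) w‖ ≤ KK * ‖deriv (g1 P Q c s A i) c‖ :=
      (koe_der h i.2.1 (h68 hw) hc8).2
    calc ‖deriv (g1 P Q c s A i) w‖ ^ 2 ≤ (KK * ‖deriv (g1 P Q c s A i) c‖) ^ 2 := by gcongr
      _ = KK ^ 2 * ‖deriv (g1 P Q c s A i) c‖ ^ 2 := by ring

end Pool.Agent.H1.PU
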