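import Pool.Agent.H1.PU.BraC
import Pool.Agent.H1.PU.Ent
import Pool.Agent.H1.PU.Sum
import Pool.Agent.H61.TT.Lagr

/-!
# Module Idn: the identity, summed over the entries

PROOFS. `lagr_ka`: `lagr` at the regular value `σ ≠ 0, 1` with `KA z y = 1/(y - z) + (z - 1)/y - z/(y - 1)` (`ka_pf`): the extra terms are `dg z ((z - 1) α - z β)` and `(f z - 1)/σ - f z/(σ - 1)`, `(polynomial of degree ≤ 2 d)/Q^2`.
`idn`: fix `x ∈ ball c (6 s)`. For `(n, y) ∈ EE`, `σ = br (n, y) x` (`br_reg`, `σ ≠ 0, 1`): `dg z ∑_(y' ∈ fs P Q y) KA z (br (n+1, y') x) / dg (br (n+1, y') x)^2 = KA (gg z) σ + N/Q(z)^2` (`fib_img`), times `deriv (br (n, y)) x^2` (`br_der`): the terms become `deriv (br (n+1, y')) x^2 KA z (br (n+1, y') x)`. Sum over `EE`: the pairs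
`((n, y), y')`, `y' ∈ fs P Q y`, correspond to `(n+1, y') ∈ (EE - {(0, c)}) ∪ R1` (`ee_split`, `fib_ix`), all sums converge absolutely (`ea_bd`, `r1_sys`; `KA z` is bounded on `ball c (2 s)` for `z ∈ LAM`), the term of `(0, c)` in `EA z x` is `KA z x` (`br_zero`). The sum of the polynomials `deriv^2 N` converges at every `z ∈ LAM` with `Q z ≠ 0`, so
at `2 d + 1` such points (`hinf`), so the coefficients converge and the sum is a polynomial of degree `≤ 2 d`; at `z = c` (`dg c = 0`, `gg c ≠ σ` because `gg c ∈ PA`): `0 = KA (gg c) σ + N(c)/Q(c)^2`.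
-/

set_option autoImplicit false

open Filter Topology Polynomial OnePoint Metric Set MeasureTheory

namespace Pool.Agent.H1.PU

open Pool.Agent.H44.Fatou Pool.Agent.H32.BT Pool.Agent.H80.AJ Pool.Agent.H35.EX Pool.Agent.H61.TT

variable {d : ℕ} {P Q : Polynomial ℂ} {PA : Set (OnePoint ℂ)} {c : ℂ} {s : ℝ}

variable {A : Set ℂ}

theorem ww_deg (h : RatD d P Q) : (ww P Q).natDegree + 1 ≤ 2 * d := by
  have hd := h.hd
  have ha : P.natDegree ≤ d := by rw [← h.deg]; exact le_max_left _ _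
  have hb : Q.natDegree ≤ d := by rw [← h.deg]; exact le_max_right _ _
  have ha' := natDegree_derivative_le P
  have hb' := natDegree_derivative_le Q
  have h1 : (ww P Q).natDegree ≤ 2 * d - 1 := by
    unfold ww
    refine (natDegree_sub_le _ _).trans (max_le ?_ ?_)
    · refine natDegree_mul_le.trans ?_
      omega
    · refine natDegree_mul_le.trans ?_
      omega
  omega

theorem lagr_ka (h : RatD d P Q) {σ : ℂ} (hσ : RegV d P Q σ) (h0 : σ ≠ 0) (h1 : σ ≠ 1)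
    (hf : ∀ y ∈ fs P Q σ, y ≠ 0 ∧ y ≠ 1) :
    ∃ N : Polynomial ℂ, N.natDegree ≤ 2 * d ∧ ∀ z : ℂ, Q.eval z ≠ 0 → gg P Q z ≠ σ →
      dg P Q z * ∑ y ∈ fs P Q σ, KA z y / dg P Q y ^ 2 = KA (gg P Q z) σ + N.eval z / Q.eval z ^ 2 := by
  have ha : P.natDegree ≤ d := by rw [← h.deg]; exact le_max_left _ _
  have hb : Q.natDegree ≤ d := by rw [← h.deg]; exact le_max_right _ _
  obtain ⟨η, hη, hl⟩ := lagr h hσ
  set α : ℂ := ∑ y ∈ fs P Q σ, 1 / (y * dg P Q y ^ 2) with hα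
  set β : ℂ := ∑ y ∈ fs P Q σ, 1 / ((y - 1) * dg P Q y ^ 2) with hβ
  refine ⟨η + ww P Q * ((X - 1) * C α - X * C β) - (P * Q - Q ^ 2) * C (1 / σ) +
    P * Q * C (1 / (σ - 1)), ?_, ?_⟩
  · have e1 : (ww P Q * ((X - 1) * C α - X * C β)).natDegree ≤ 2 * d := by
      have e2 : ((X - 1) * C α - X * C β : Polynomial ℂ).natDegree ≤ 1 := by compute_degree
      refine natDegree_mul_le.trans ?_
      have := ww_deg h
      omega
    have e3 : (P * Q).natDegree ≤ 2 * d := natDegree_mul_le.trans (by omega)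
    have e4 : ((P * Q - Q ^ 2) * C (1 / σ)).natDegree ≤ 2 * d := by
      refine (natDegree_mul_C_le _ _).trans ((natDegree_sub_le _ _).trans (max_le e3 ?_))
      exact natDegree_pow_le.trans (by omega)
    have e5 : (P * Q * C (1 / (σ - 1))).natDegree ≤ 2 * d := (natDegree_mul_C_le _ _).trans e3
    exact (natDegree_add_le _ _).trans (max_le ((natDegree_sub_le _ _).trans (max_le
      ((natDegree_add_le _ _).trans (max_le hη e1)) e4)) e5)
  · intro z hz hzσ
    have hl' := hl z hz hzσ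
    have hσ1 : σ - 1 ≠ 0 := sub_ne_zero.2 h1
    have hσz : σ - gg P Q z ≠ 0 := sub_ne_zero.2 (Ne.symm hzσ)
    have e1 : dg P Q z * ∑ y ∈ fs P Q σ, KA z y / dg P Q y ^ 2 =
        ∑ y ∈ fs P Q σ, dg P Q z / ((y - z) * dg P Q y ^ 2) +
          dg P Q z * ((z - 1) * α - z * β) := by
      rw [hα, hβ, Finset.mul_sum, Finset.mul_sum, Finset.mul_sum, ← Finset.sum_sub_distrib,
        Finset.mul_sum, ← Finset.sum_add_distrib]
      refine Finset.sum_congr rfl fun y hy => ?_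
      obtain ⟨hy0, hy1⟩ := hf y hy
      have hyz : y ≠ z := by
        intro he
        apply hzσ
        rw [← he]
        exact ((mem_fs h σ y).1 hy).2
      have hdy : dg P Q y ≠ 0 := (dg_ne (hσ.hb y hy)).2 (hσ.hw y hy)
      rw [ka_pf hy0 hy1 hyz]
      have hy1' : y - 1 ≠ 0 := sub_ne_zero.2 hy1
      have hyz' : y - z ≠ 0 := sub_ne_zero.2 hyz
      field_simp
      ring
    rw [e1, hl', ka_pf h0 h1 (Ne.symm hzσ)]
    have e2 : dg P Q z = (ww P Q).eval z / Q.eval z ^ 2 := rfl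
    have e3 : gg P Q z = P.eval z / Q.eval z := rfl
    have e4 : 1 / (σ - gg P Q z) + η.eval z / Q.eval z ^ 2 + dg P Q z * ((z - 1) * α - z * β) =
        1 / (σ - gg P Q z) + (η.eval z + (ww P Q).eval z * ((z - 1) * α - z * β)) /
          Q.eval z ^ 2 := by
      rw [e2]
      ring
    rw [e4]
    have e5 : (η + ww P Q * ((X - 1) * C α - X * C β) - (P * Q - Q ^ 2) * C (1 / σ) +
        P * Q * C (1 / (σ - 1))).eval z =
        (η.eval z + (ww P Q).eval z * ((z - 1) * α - z * β)) -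
          (P.eval z * Q.eval z - Q.eval z ^ 2) * (1 / σ) +
          P.eval z * Q.eval z * (1 / (σ - 1)) := by
      simp only [eval_add, eval_sub, eval_mul, eval_pow, eval_C, eval_X, eval_one]
    rw [e5]
    generalize η.eval z + (ww P Q).eval z * ((z - 1) * α - z * β) = W
    have e6 : (gg P Q z - 1) / σ = ((P.eval z * Q.eval z - Q.eval z ^ 2) * (1 / σ)) /
        Q.eval z ^ 2 := by
      rw [e3]
      field_simp
    have e7 : gg P Q z / (σ - 1) = (P.eval z * Q.eval z * (1 / (σ - 1))) / Q.eval z ^ 2 := by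
      rw [e3]
      field_simp
    rw [e6, e7]
    ring

/-- sums of polynomials of bounded degree which converge at infinitely many points -/
theorem lim_hasSum {ι : Type*} {D : ℕ} {N : ι → Polynomial ℂ} (hN : ∀ i, (N i).natDegree ≤ D)
    {T : Set ℂ} (hT : T.Infinite) (hs : ∀ z ∈ T, Summable fun i => (N i).eval z) :
    ∃ M : Polynomial ℂ, M.natDegree ≤ D ∧ ∀ z, HasSum (fun i => (N i).eval z) (M.eval z) := by
  classical
  obtain ⟨F, hF, hFc⟩ := hT.exists_subset_card_eq (D + 1)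
  have hinj : InjOn (id : ℂ → ℂ) (F : Set ℂ) := injOn_id _
  have hi : ∀ i, N i = Lagrange.interpolate F id (fun t => (N i).eval t) := by
    intro i
    refine Lagrange.eq_interpolate_of_eval_eq _ hinj ?_ (fun t _ => rfl)
    rw [hFc]
    exact (degree_le_of_natDegree_le (hN i)).trans_lt (by exact_mod_cast Nat.lt_succ_self D)
  refine ⟨Lagrange.interpolate F id (fun t => ∑' i, (N i).eval t), ?_, fun z => ?_⟩
  · have h1 := Lagrange.degree_interpolate_lt (fun t => ∑' i, (N i).eval t) hinj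
    rw [hFc] at h1
    refine Nat.le_of_lt_succ ?_
    by_cases h0 : Lagrange.interpolate F id (fun t => ∑' i, (N i).eval t) = 0
    · rw [h0, natDegree_zero]
      exact Nat.succ_pos D
    · exact (natDegree_lt_iff_degree_lt h0).2 h1
  · have h2 : ∀ g : ℂ → ℂ, (Lagrange.interpolate F id g).eval z =
        ∑ t ∈ F, g t * (Lagrange.basis F id t).eval z := by
      intro g
      rw [Lagrange.interpolate_apply, eval_finsetSum]
      refine Finset.sum_congr rfl fun t _ => ?_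
      rw [eval_mul, eval_C]
    rw [h2]
    have h3 : (fun i => (N i).eval z) =
        fun i => ∑ t ∈ F, (N i).eval t * (Lagrange.basis F id t).eval z := by
      funext i
      conv_lhs => rw [hi i, h2]
    rw [h3]
    refine hasSum_sum fun t ht => ?_
    exact (hs t (hF ht)).hasSum.mul_right _

private theorem pa_lam (h : PSys d P Q PA c s) {a : ℂ} (ha : (a : OnePoint ℂ) ∈ PA) : a ∈ LAM P Q c s := by
  intro n u hu he
  have h0 := h.s0
  apply h.off u (ball_subset_ball (by have := rho_ge h0; linarith) hu)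
  rw [← he]
  exact iter_mem h.sys.inv ha n

private theorem lam_step {a : ℂ} (ha : a ∈ LAM P Q c s) (hQ : Q.eval a ≠ 0) : gg P Q a ∈ LAM P Q c s := by
  intro n u hu he
  apply ha (n + 1) u hu
  rw [Function.iterate_succ_apply, rat_coe_of_ne hQ]
  exact he

/-- the terms -/
noncomputable def TT (P Q : Polynomial ℂ) (c : ℂ) (s : ℝ) (x z : ℂ) (q : ℕ × ℂ) : ℂ :=
  deriv (br P Q c s q) x ^ 2 * KA z (br P Q c s q x)

/-- the entries of positive order -/
def E1 (P Q : Polynomial ℂ) (c : ℂ) (A : Set ℂ) : Set (ℕ × ℂ) := {q | q ∈ EE P Q c A ∧ 1 ≤ q.1}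

theorem tt_zero (h : PSys d P Q PA c s) {x : ℂ} (hx : x ∈ ball c (6 * s)) (z : ℂ) :
    TT P Q c s x z (0, c) = KA z x := by
  have h0 := h.s0
  have hx' : x ∈ ball c (rho s) := ball_subset_ball (by have := rho_ge h0; linarith) hx
  have h1 := br_zero h
  unfold TT
  rw [h1 hx']
  have h2 : br P Q c s (0, c) =ᶠ[𝓝 x] id := by
    filter_upwards [isOpen_ball.mem_nhds hx'] with v hv
    exact h1 hv
  rw [h2.deriv_eq, deriv_id, one_pow, one_mul]
  rfl

theorem ee_eq : EE P Q c A = {((0 : ℕ), c)} ∪ E1 P Q c A := by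
  ext ⟨n, y⟩
  simp only [mem_union, mem_singleton_iff]
  constructor
  · intro hp
    rcases Nat.eq_zero_or_pos n with rfl | hn
    · left
      have h1 : (rat P Q)^[0] (y : OnePoint ℂ) = (c : OnePoint ℂ) := hp.1
      rw [OnePoint.coe_injective h1]
    · exact Or.inr ⟨hp, hn⟩
  · rintro (h1 | h1)
    · rw [Prod.mk.injEq] at h1
      obtain ⟨rfl, rfl⟩ := h1
      exact ⟨rfl, fun i _ hi => absurd hi (Nat.not_lt_zero i)⟩
    · exact h1.1

theorem e1_disj : Disjoint ({((0 : ℕ), c)} : Set (ℕ × ℂ)) (E1 P Q c A) := by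
  rw [Set.disjoint_left]
  rintro p hp1 hp2
  rw [mem_singleton_iff] at hp1
  have h2 := hp2.2
  rw [hp1] at h2
  exact absurd h2 (by norm_num)

theorem e1_r1 : Disjoint (E1 P Q c A) (R1 P Q c A) := by
  rw [Set.disjoint_left]
  rintro p hp1 hp2
  exact hp1.1.2 0 le_rfl hp1.2 p.2 hp2.2.2.1 rfl

/-- the sum over the entries of positive order and the first returns -/
theorem tot_sum (h : PSys d P Q PA c s) (hA : Nice P Q c s A) {x z : ℂ} (hx : x ∈ ball c (6 * s))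
    (hz : z ∈ LAM P Q c s) :
    HasSum (TT P Q c s x z ∘ (Subtype.val : (E1 P Q c A ∪ R1 P Q c A : Set (ℕ × ℂ)) → ℕ × ℂ))
      (EA P Q c s A z x - KA z x + Pool.H50.ST.Lop (g1 P Q c s A) (KA z) x) := by
  have h0 := h.s0
  obtain ⟨C', -, hbd⟩ := ea_bd h hA
  obtain ⟨-, u, hu1, hu2⟩ := hbd z hz
  have hsE : Summable (TT P Q c s x z ∘ (Subtype.val : EE P Q c A → ℕ × ℂ)) :=
    Summable.of_norm_bounded hu1 (fun p => hu2 p x hx)
  have hsub : E1 P Q c A ⊆ EE P Q c A := fun p hp => hp.1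
  have hs1 : Summable (TT P Q c s x z ∘ (Subtype.val : E1 P Q c A → ℕ × ℂ)) := by
    have := hsE.comp_injective (Set.inclusion_injective hsub)
    exact this
  have h1 : HasSum (TT P Q c s x z ∘ (Subtype.val : ({((0 : ℕ), c)} : Set (ℕ × ℂ)) → ℕ × ℂ))
      (KA z x) := by
    have h2 := hasSum_fintype (TT P Q c s x z ∘ (Subtype.val : ({((0 : ℕ), c)} : Set (ℕ × ℂ)) → ℕ × ℂ))
    rw [Fintype.sum_unique] at h2
    have h3 : (TT P Q c s x z ∘ (Subtype.val : ({((0 : ℕ), c)} : Set (ℕ × ℂ)) → ℕ × ℂ)) default =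
        KA z x := tt_zero h hx z
    rw [h3] at h2
    exact h2
  have h2 := h1.add_disjoint e1_disj hs1.hasSum
  rw [← ee_eq] at h2
  have h3 : EA P Q c s A z x = KA z x + ∑' p, (TT P Q c s x z ∘ (Subtype.val : E1 P Q c A → ℕ × ℂ)) p :=
    h2.tsum_eq
  have h4 : HasSum (TT P Q c s x z ∘ (Subtype.val : E1 P Q c A → ℕ × ℂ))
      (EA P Q c s A z x - KA z x) := by
    have h5 := hs1.hasSum
    have h6 : EA P Q c s A z x - KA z x =
        ∑' p, (TT P Q c s x z ∘ (Subtype.val : E1 P Q c A → ℕ × ℂ)) p := by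
      rw [h3]; ring
    rw [h6]
    exact h5
  refine h4.add_disjoint e1_r1 ?_
  -- the first returns
  obtain ⟨v, hv⟩ := r1_sys h hA
  have h36 : (2 : ℝ) * (3 * s) = 6 * s := by ring
  have hfar : ∀ e : ℂ, e ∉ ball c (8 * s) → ∀ y ∈ ball c (3 * s), 5 * s ≤ ‖y - e‖ := by
    intro e he y hy
    rw [mem_ball, dist_eq_norm, not_lt] at he
    rw [mem_ball, dist_eq_norm] at hy
    have h6 : ‖e - c‖ ≤ ‖y - c‖ + ‖y - e‖ := by
      have h7 : e - c = (y - c) - (y - e) := by ring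
      rw [h7]
      exact norm_sub_le _ _
    linarith
  have hn0 : (0 : ℂ) ∉ ball c (8 * s) := fun he =>
    h.off 0 (ball_subset_ball (by have := rho_ge h0; linarith) he) h.z0
  have hn1 : (1 : ℂ) ∉ ball c (8 * s) := fun he =>
    h.off 1 (ball_subset_ball (by have := rho_ge h0; linarith) he) h.z1
  have hnz : z ∉ ball c (8 * s) := fun he => hz 0 z he rfl
  have hKb : ∀ y ∈ ball c (3 * s), ‖KA z y‖ ≤ ‖z * (z - 1)‖ / (5 * s) ^ 3 := by
    intro y hy
    have e0 := hfar 0 hn0 y hy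
    have e1 := hfar 1 hn1 y hy
    have e2 := hfar z hnz y hy
    rw [sub_zero] at e0
    unfold KA
    rw [norm_div, norm_mul (y * (y - 1)), norm_mul y]
    refine div_le_div_of_nonneg_left (norm_nonneg _) (by positivity) ?_
    calc (5 * s) ^ 3 = 5 * s * (5 * s) * (5 * s) := by ring
      _ ≤ ‖y‖ * ‖y - 1‖ * ‖y - z‖ := by gcongr
  have hsR : Summable (TT P Q c s x z ∘ (Subtype.val : R1 P Q c A → ℕ × ℂ)) := by
    refine Summable.of_norm_bounded (hv.su.mul_right (‖z * (z - 1)‖ / (5 * s) ^ 3)) fun p => ?_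
    have e1 := hv.dv p x (by rw [h36]; exact hx)
    have e2 := hv.mp p x (by rw [h36]; exact hx)
    have e3 := hKb _ (ball_subset_ball (by linarith) e2)
    show ‖deriv (br P Q c s p.1) x ^ 2 * KA z (br P Q c s p.1 x)‖ ≤ _
    rw [norm_mul, norm_pow]
    exact mul_le_mul e1 e3 (norm_nonneg _) ((by positivity : (0 : ℝ) ≤ _ ^ 2).trans e1)
  exact hsR.hasSum

/-- the sum, arranged by the fibres over the entries -/
private theorem ee_split (n : ℕ) (y : ℂ) (hQ : Q.eval y ≠ 0) :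
    ((n, gg P Q y) ∈ EE P Q c A ∧ (n + 1, y) ∈ IX P Q c) ↔
      ((n + 1, y) ∈ EE P Q c A ∨ (n + 1, y) ∈ R1 P Q c A) := by
  have h1 : (n, gg P Q y) ∈ EE P Q c A ↔
      ((n + 1, y) ∈ EE P Q c A ∨ (n + 1, y) ∈ R1 P Q c A) := succ_iff (rat_coe_of_ne hQ)
  exact ⟨fun h => h1.1 h.1, fun h => ⟨h1.2 h, h.elim (fun h => h.1) (fun h => h.1)⟩⟩

theorem fib_sum (h : PSys d P Q PA c s) (hA : Nice P Q c s A) {x z : ℂ} (hx : x ∈ ball c (6 * s))
    (hz : z ∈ LAM P Q c s) :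
    HasSum (fun p : EE P Q c A => ∑ y ∈ fs P Q p.1.2, TT P Q c s x z (p.1.1 + 1, y))
      (EA P Q c s A z x - KA z x + Pool.H50.ST.Lop (g1 P Q c s A) (KA z) x) := by
  have hmem : ∀ (p : EE P Q c A) (y : fs P Q p.1.2), (p.1.1 + 1, (y : ℂ)) ∈
      (E1 P Q c A ∪ R1 P Q c A : Set (ℕ × ℂ)) := by
    intro p y
    obtain ⟨h1, h2, h3⟩ := fib_ix h (n := p.1.1) (y := p.1.2) p.2.1 y.2
    have h4 := (ee_split (P := P) (Q := Q) (c := c) (A := A) p.1.1 (y : ℂ) h2).1
      ⟨by rw [h3]; exact p.2, h1⟩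
    rcases h4 with h4 | h4
    · exact Or.inl ⟨h4, Nat.succ_le_succ (Nat.zero_le _)⟩
    · exact Or.inr h4
  set e : (Σ p : EE P Q c A, fs P Q p.1.2) → (E1 P Q c A ∪ R1 P Q c A : Set (ℕ × ℂ)) :=
    fun q => ⟨(q.1.1.1 + 1, (q.2 : ℂ)), hmem q.1 q.2⟩ with he
  have hinj : Function.Injective e := by
    rintro ⟨⟨⟨n, w⟩, hp⟩, ⟨y, hy⟩⟩ ⟨⟨⟨n', w'⟩, hp'⟩, ⟨y', hy'⟩⟩ hee
    have h1 := congrArg Subtype.val hee
    simp only [he, Prod.mk.injEq, add_left_inj] at h1
    obtain ⟨h2, h3⟩ := h1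
    have h4 := ((mem_fs h.rd w y).1 hy).2
    have h5 := ((mem_fs h.rd w' y').1 hy').2
    subst h2
    subst h3
    rw [h4] at h5
    subst h5
    rfl
  have hsurj : Function.Surjective e := by
    rintro ⟨⟨m, y⟩, hq⟩
    have h1 : (m, y) ∈ IX P Q c ∧ 1 ≤ m ∧ ((m, y) ∈ EE P Q c A ∨ (m, y) ∈ R1 P Q c A) := by
      rcases hq with hq | hq
      · exact ⟨hq.1.1, hq.2, Or.inl hq.1⟩
      · exact ⟨hq.1, hq.2.1, Or.inr hq⟩
    obtain ⟨h2, h3, h4⟩ := h1
    obtain ⟨n, rfl⟩ := Nat.exists_eq_add_of_le' h3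
    obtain ⟨h5, h6⟩ := (ix_step h).1 h2
    have h7 := (ee_split (P := P) (Q := Q) (c := c) (A := A) n y h5).2 h4
    exact ⟨⟨⟨(n, gg P Q y), h7.1⟩, ⟨y, (mem_fs h.rd _ _).2 ⟨h5, rfl⟩⟩⟩, rfl⟩
  have h1 := tot_sum h hA hx hz
  rw [← (Equiv.ofBijective e ⟨hinj, hsurj⟩).hasSum_iff] at h1
  refine h1.sigma fun p => ?_
  have h2 := hasSum_fintype (fun y : fs P Q p.1.2 => TT P Q c s x z (p.1.1 + 1, (y : ℂ)))
  rw [Finset.sum_coe_sort (fs P Q p.1.2) (fun y => TT P Q c s x z (p.1.1 + 1, y))] at h2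
  exact h2

theorem idn (h : PSys d P Q PA c s) (hA : Nice P Q c s A) (hc : Crt P Q c)
    (hinf : {z : ℂ | z ∈ LAM P Q c s ∧ Q.eval z ≠ 0}.Infinite) {x : ℂ} (hx : x ∈ ball c (6 * s)) :
    ∃ N : Polynomial ℂ, N.natDegree ≤ 2 * d ∧
      (∀ z ∈ {z : ℂ | z ∈ LAM P Q c s ∧ Q.eval z ≠ 0},
        dg P Q z * (EA P Q c s A z x - KA z x + Pool.H50.ST.Lop (g1 P Q c s A) (KA z) x) =
          EA P Q c s A (gg P Q z) x + N.eval z / Q.eval z ^ 2) ∧
      0 = EA P Q c s A (gg P Q c) x + N.eval c / Q.eval c ^ 2 := by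
  have h0 := h.s0
  have h68 : ball c (6 * s) ⊆ ball c (8 * s) := ball_subset_ball (by linarith)
  have hx' : x ∈ ball c (rho s) := ball_subset_ball (by have := rho_ge h0; linarith) hx
  have hbn : ∀ {q : ℕ × ℂ}, q ∈ IX P Q c → br P Q c s q x ≠ 0 ∧ br P Q c s q x ≠ 1 := by
    intro q hq
    exact ⟨fun he => mem_PA_nim h h.z0 hq ⟨x, h68 hx, he⟩,
      fun he => mem_PA_nim h h.z1 hq ⟨x, h68 hx, he⟩⟩
  -- the polynomials
  have hex : ∀ p : EE P Q c A, ∃ N : Polynomial ℂ, N.natDegree ≤ 2 * d ∧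
      ∀ z : ℂ, Q.eval z ≠ 0 → gg P Q z ≠ br P Q c s p.1 x →
        dg P Q z * ∑ y ∈ fs P Q p.1.2, TT P Q c s x z (p.1.1 + 1, y) =
          TT P Q c s x (gg P Q z) p.1 + N.eval z / Q.eval z ^ 2 := by
    rintro ⟨⟨n, w⟩, hp⟩
    obtain ⟨himg, hinj⟩ := fib_img h hp.1 hx'
    obtain ⟨N, hN1, hN2⟩ := lagr_ka h.rd (br_reg h hp.1 hx') (hbn hp.1).1 (hbn hp.1).2
      (fun y hy => by
        rw [himg] at hy
        obtain ⟨y', hy', rfl⟩ := Finset.mem_image.1 hy
        exact hbn (fib_ix h hp.1 hy').1)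
    refine ⟨C (deriv (br P Q c s (n, w)) x ^ 2) * N, (natDegree_C_mul_le _ _).trans hN1, ?_⟩
    intro z hz hzn
    have h1 := hN2 z hz hzn
    rw [himg, Finset.sum_image hinj] at h1
    have h2 : ∑ y ∈ fs P Q w, TT P Q c s x z (n + 1, y) = deriv (br P Q c s (n, w)) x ^ 2 *
        ∑ y ∈ fs P Q w, KA z (br P Q c s (n + 1, y) x) / dg P Q (br P Q c s (n + 1, y) x) ^ 2 := by
      rw [Finset.mul_sum]
      refine Finset.sum_congr rfl fun y hy => ?_
      obtain ⟨hi1, hi2, hi3⟩ := fib_ix h hp.1 hy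
      obtain ⟨-, -, -, hd1, -, hd2⟩ := br_der h hi1 hx'
      rw [hi3] at hd2
      unfold TT
      rw [← hd2, mul_pow]
      field_simp
    show dg P Q z * ∑ y ∈ fs P Q w, TT P Q c s x z (n + 1, y) =
      TT P Q c s x (gg P Q z) (n, w) + _
    rw [h2, eval_mul, eval_C]
    unfold TT
    linear_combination (deriv (br P Q c s (n, w)) x ^ 2) * h1
  choose N hN1 hN2 using hex
  have hEA : ∀ z ∈ LAM P Q c s, HasSum (fun p : EE P Q c A => TT P Q c s x z p.1)
      (EA P Q c s A z x) := by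
    intro z hz
    obtain ⟨C', -, hbd⟩ := ea_bd h hA
    obtain ⟨-, u, hu1, hu2⟩ := hbd z hz
    have hsE : Summable (fun p : EE P Q c A => TT P Q c s x z p.1) :=
      Summable.of_norm_bounded hu1 (fun p => hu2 p x hx)
    exact hsE.hasSum
  have hsum : ∀ z ∈ {z : ℂ | z ∈ LAM P Q c s ∧ Q.eval z ≠ 0},
      HasSum (fun p => (N p).eval z) ((dg P Q z * (EA P Q c s A z x - KA z x +
        Pool.H50.ST.Lop (g1 P Q c s A) (KA z) x) - EA P Q c s A (gg P Q z) x) *
          Q.eval z ^ 2) := by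
    rintro z ⟨hz, hQ⟩
    have h1 := (fib_sum h hA hx hz).mul_left (dg P Q z)
    have h2 := hEA _ (lam_step hz hQ)
    have h3 := (h1.sub h2).mul_right (Q.eval z ^ 2)
    have h4 : (fun p : EE P Q c A => (dg P Q z * ∑ y ∈ fs P Q p.1.2, TT P Q c s x z (p.1.1 + 1, y) -
        TT P Q c s x (gg P Q z) p.1) * Q.eval z ^ 2) = fun p => (N p).eval z := by
      funext p
      have h5 := hN2 p z hQ (fun he => lam_nim h (lam_step hz hQ) p.2.1 ⟨x, h68 hx, he.symm⟩)
      rw [h5, add_sub_cancel_left, div_mul_cancel₀ _ (pow_ne_zero 2 hQ)]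
    rw [← h4]
    exact h3
  obtain ⟨M, hM1, hM2⟩ := lim_hasSum hN1 hinf (fun z hz => (hsum z hz).summable)
  refine ⟨M, hM1, ?_, ?_⟩
  · intro z hz
    have h1 := (hM2 z).unique (hsum z hz)
    rw [h1]
    have hQ : Q.eval z ≠ 0 := hz.2
    field_simp
    ring
  · have hQ : Q.eval c ≠ 0 := by
      intro hq
      apply hc.ninf 1 0
      rw [Function.iterate_one, rat_coe, hq]
      unfold pt
      rw [if_pos rfl]
      rfl
    have hdc : dg P Q c = 0 := by
      show (ww P Q).eval c / Q.eval c ^ 2 = 0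
      rw [hc.w, zero_div]
    have hPA : (gg P Q c : OnePoint ℂ) ∈ PA := by
      have h1 := h.fc
      rw [rat_coe_of_ne hQ] at h1
      exact h1
    have h2 := hEA _ (pa_lam h hPA)
    have h3 := h2.add ((hM2 c).div_const (Q.eval c ^ 2))
    have h4 : (fun p : EE P Q c A => TT P Q c s x (gg P Q c) p.1 + (N p).eval c / Q.eval c ^ 2) =
        fun _ => 0 := by
      funext p
      have h5 := hN2 p c hQ (fun he => mem_PA_nim h hPA p.2.1 ⟨x, h68 hx, he.symm⟩)
      rw [hdc, zero_mul] at h5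
      exact h5.symm
    rw [h4] at h3
    exact hasSum_zero.unique h3

end Pool.Agent.H1.PU
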