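import Pool.Agent.H1.PU.Defs
import Pool.Agent.H47.RJ.COV
import Pool.Agent.H47.RJ.FSI

/-!
# THEOREM P, stage 2: the Julia set of a rational map satisfies `JP`

`jp_tr`: the images of every disc centred at a point of the Julia set cover the Julia set: the exceptional set is finite (`exc_fin`, Montel) and backward invariant, so it is in the Fatou set (`bwd_fin`, `trap_crit`). `jp_of`: `JP` for `JS (Rf v)`.
-/

set_option autoImplicit false

open Filter Topology Polynomial OnePoint Metric Set MeasureTheory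

namespace Pool.Agent.H1.PU

open Pool.Agent.H44.Fatou Pool.Agent.H32.BT Pool.Agent.H80.AJ Pool.Agent.H35.EX Pool.Agent.H61.TT
open Pool.Agent.H79.Eul Pool.Agent.H79.Par Pool.Agent.H44.RC

/-- open sets which meet the Julia set cover it under the iterates -/
theorem jp_cov {d : ℕ} {v : E d} (h : RatD d (pol v.1) (pol v.2)) {B : Set (OnePoint ℂ)}
    (hB : IsOpen B) (hBJ : (B ∩ JS (Rf v)).Nonempty) {x : OnePoint ℂ} (hx : x ∈ JS (Rf v)) :
    ∃ (m : ℕ) (b : OnePoint ℂ), b ∈ B ∧ (Rf v)^[m] b = x := by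
  have hfin := Pool.Agent.H47.RJ.exc_fin (v := v) h.hd h.cop h.deg hB hBJ
  set T : Set (OnePoint ℂ) := {x | ∀ j : ℕ, x ∉ (Rf v)^[j] '' B} with hT
  have hb : ∀ y, Rf v y ∈ T → y ∈ T := by
    intro y hy j hj
    obtain ⟨z, hz, rfl⟩ := hj
    refine hy (j + 1) ⟨z, hz, ?_⟩
    rw [Function.iterate_succ_apply']
  obtain ⟨h1, h2⟩ := Pool.Agent.H47.RJ.bwd_fin h.hd h.cop h.deg hfin hb
  obtain ⟨N, -, hTN, -, hNF, -⟩ :=
    Pool.Agent.H47.RJ.trap_crit h.hd h.cop h.deg hfin h1 h2 one_pos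
  have h3 : x ∉ T := fun h4 => hx (hNF (hTN h4))
  simp only [hT, Set.mem_ofPred_eq, not_forall, not_not] at h3
  obtain ⟨j, b, hb1, hb2⟩ := h3
  exact ⟨j, b, hb1, hb2⟩

theorem jp_of {d : ℕ} {v : E d} (h : RatD d (pol v.1) (pol v.2)) {c : ℂ}
    (hc : (c : OnePoint ℂ) ∈ JS (Rf v)) : JP (pol v.1) (pol v.2) c (JS (Rf v)) where
  inv z := by
    have h1 := Pool.Agent.H47.RJ.fs_iff (v := v) (le_trans one_le_two h.hd) h.cop h.deg 1 z
    exact not_congr h1.symm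
  tr z1 hz1 z2 hz2 ε hε := by
    have hBo : IsOpen (((↑) : ℂ → OnePoint ℂ) '' ball z1 ε) :=
      isOpenEmbedding_coe.isOpenMap _ isOpen_ball
    obtain ⟨m, b, ⟨u, hu, rfl⟩, hm⟩ := jp_cov h hBo ⟨_, ⟨_, mem_ball_self hε, rfl⟩, hz1⟩ hz2
    exact ⟨m, u, hu, hm⟩
  cJ := hc

end Pool.Agent.H1.PU
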