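import Pool.Agent.H1.PU.Defs
import Pool.Agent.H61.TT.Fib

/-!
# THEOREM P, unified version, module Unb: the end

`Prep P Q n0 N z`: a preperiodic orbit in the plane without critical points, whose cycle is repelling. `unb`: if `Ξ` solves the cohomological equation on `S`, is continuous at the
critical value along `S`, and preperiodic orbits in `S` accumulate at the critical value, then the velocities of preperiodic orbits are unbounded near the critical point.
-/

set_option autoImplicit false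

open Filter Topology Polynomial OnePoint Metric Set MeasureTheory

namespace Pool.Agent.H1.PU

open Pool.Agent.H44.Fatou Pool.Agent.H32.BT Pool.Agent.H80.AJ Pool.Agent.H35.EX Pool.Agent.H61.TT

/-- a preperiodic orbit in the plane without critical points, with repelling cycle -/
structure Prep (P Q : Polynomial ℂ) (n0 N : ℕ) (z : ℕ → ℂ) : Prop where
  hN : 0 < N
  ne : ∀ i, Q.eval (z i) ≠ 0
  st : ∀ i, gg P Q (z i) = z (i + 1)
  dn : ∀ i, Pool.Agent.H61.TT.dg P Q (z i) ≠ 0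
  per : ∀ i, n0 ≤ i → z (i + N) = z i
  rep : 1 < ‖∏ i ∈ Finset.range N, Pool.Agent.H61.TT.dg P Q (z (n0 + i))‖

/-- velocities along a preperiodic orbit, for the vector field `η / Q ^ 2` -/
structure Velo (P Q η : Polynomial ℂ) (n0 N : ℕ) (z u : ℕ → ℂ) : Prop where
  st : ∀ i, u (i + 1) = Pool.Agent.H61.TT.dg P Q (z i) * u i + η.eval (z i) / Q.eval (z i) ^ 2
  per : ∀ i, n0 ≤ i → u (i + N) = u i

theorem prep_rat {P Q : Polynomial ℂ} {n0 N : ℕ} {z : ℕ → ℂ} (h : Prep P Q n0 N z) (i : ℕ) :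
    (rat P Q)^[i] ((z 0 : ℂ) : OnePoint ℂ) = ((z i : ℂ) : OnePoint ℂ) := by
  induction i with
  | zero => rfl
  | succ i ih =>
    rw [Function.iterate_succ_apply', ih, Pool.Agent.H44.Fatou.rat_coe_of_ne (h.ne i), ← h.st i]
    rfl

/-- a solution of the homogeneous equation along a preperiodic orbit vanishes -/
theorem prep_zero {P Q : Polynomial ℂ} {n0 N : ℕ} {z : ℕ → ℂ} (h : Prep P Q n0 N z) {δ : ℕ → ℂ}
    (hδ : ∀ i, δ (i + 1) = Pool.Agent.H61.TT.dg P Q (z i) * δ i) (hp : δ (n0 + N) = δ n0) : δ 0 = 0 := by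
  have h1 : ∀ m, δ (n0 + m) = (∏ i ∈ Finset.range m, Pool.Agent.H61.TT.dg P Q (z (n0 + i))) * δ n0 := by
    intro m
    induction m with
    | zero => simp
    | succ m ih =>
      rw [← Nat.add_assoc, hδ, ih, Finset.prod_range_succ]
      ring
  have h2 : δ n0 = 0 := by
    by_contra h3
    have h4 := h1 N
    rw [hp] at h4
    have h5 : (∏ i ∈ Finset.range N, Pool.Agent.H61.TT.dg P Q (z (n0 + i))) = 1 := by
      have h6 : ((∏ i ∈ Finset.range N, Pool.Agent.H61.TT.dg P Q (z (n0 + i))) - 1) * δ n0 = 0 := by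
        linear_combination -h4
      rcases mul_eq_zero.1 h6 with h7 | h7
      · exact sub_eq_zero.1 h7
      · exact absurd h7 h3
    have h6 := h.rep
    rw [h5, norm_one] at h6
    exact lt_irrefl _ h6
  have h3 : ∀ m ≤ n0, δ (n0 - m) = 0 := by
    intro m
    induction m with
    | zero => intro _; simpa using h2
    | succ m ih =>
      intro hm
      have h4 := ih (by omega)
      have h5 := hδ (n0 - (m + 1))
      rw [show n0 - (m + 1) + 1 = n0 - m by omega, h4] at h5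
      rcases mul_eq_zero.1 h5.symm with h6 | h6
      · exact absurd h6 (h.dn _)
      · exact h6
  simpa using h3 n0 le_rfl

private theorem unb_q {P Q : Polynomial ℂ} {c : ℂ} (hc : Crt P Q c) : Q.eval c ≠ 0 := by
  intro h0
  refine hc.ninf 1 0 ?_
  rw [Function.iterate_one, Function.iterate_zero, id, Pool.Agent.H44.Fatou.rat_coe]
  unfold Pool.Agent.H44.Fatou.pt
  rw [if_pos h0]

/-- the denominators, the derivative and the values near a critical point -/
theorem near_crit {P Q : Polynomial ℂ} {c : ℂ} (hw : (ww P Q).eval c = 0) (hq : Q.eval c ≠ 0)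
    (hW0 : ww P Q ≠ 0) {ε : ℝ} (hε : 0 < ε) : ∃ r > 0, r ≤ ε ∧
      ∀ y ∈ ball c r, y ≠ c → Q.eval y ≠ 0 ∧ Pool.Agent.H61.TT.dg P Q y ≠ 0 ∧
        ‖Pool.Agent.H61.TT.dg P Q y‖ < ε := by
  have h1 : ∀ᶠ y in 𝓝 c, Q.eval y ≠ 0 := Q.continuous.continuousAt.eventually_ne hq
  have h2 : ContinuousAt (Pool.Agent.H61.TT.dg P Q) c := by
    have h3 : ContinuousAt (fun y => (ww P Q).eval y / Q.eval y ^ 2) c :=
      (ww P Q).continuous.continuousAt.div (Q.continuous.continuousAt.pow 2) (pow_ne_zero 2 hq)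
    exact h3
  have h3 : Pool.Agent.H61.TT.dg P Q c = 0 := by
    unfold Pool.Agent.H61.TT.dg
    rw [hw, zero_div]
  have h4 : ∀ᶠ y in 𝓝 c, ‖Pool.Agent.H61.TT.dg P Q y‖ < ε := by
    have h5 : Tendsto (fun y => ‖Pool.Agent.H61.TT.dg P Q y‖) (𝓝 c) (𝓝 0) := by
      have h6 : Tendsto (fun y => ‖Pool.Agent.H61.TT.dg P Q y‖) (𝓝 c)
          (𝓝 ‖Pool.Agent.H61.TT.dg P Q c‖) := h2.norm
      rwa [h3, norm_zero] at h6
    exact h5.eventually_lt_const hε
  have h5 : ∀ᶠ y in 𝓝 c, y ≠ c → (ww P Q).eval y ≠ 0 := by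
    have h6 : {y | (ww P Q).eval y = 0 ∧ y ≠ c}.Finite := by
      refine ((ww P Q).roots.toFinset.finite_toSet).subset fun y hy => ?_
      rw [Finset.mem_coe, Multiset.mem_toFinset, mem_roots hW0]
      exact hy.1
    have h7 := h6.isClosed.isOpen_compl.mem_nhds (x := c) (fun h8 => h8.2 rfl)
    filter_upwards [h7] with y hy hyc h8
    exact hy ⟨h8, hyc⟩
  obtain ⟨r, hr, h6⟩ := Metric.eventually_nhds_iff_ball.1 (h1.and (h4.and h5))
  refine ⟨min r ε, lt_min hr hε, min_le_right _ _, fun y hy hyc => ?_⟩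
  obtain ⟨h7, h8, h9⟩ := h6 y (ball_subset_ball (min_le_left _ _) hy)
  refine ⟨h7, ?_, h8⟩
  unfold Pool.Agent.H61.TT.dg
  exact div_ne_zero (h9 hyc) (pow_ne_zero 2 h7)

/-- the map is open at a critical point -/
theorem open_at {P Q : Polynomial ℂ} {c : ℂ} (hq : Q.eval c ≠ 0)
    (hW0 : ww P Q ≠ 0) {r : ℝ} (hr : 0 < r) : ∃ t > 0, ∀ a ∈ ball (gg P Q c) t,
      ∃ y ∈ ball c r, gg P Q y = a := by
  have h1 : AnalyticAt ℂ (gg P Q) c := by
    have hpol : ∀ R : Polynomial ℂ, AnalyticAt ℂ (fun z => R.eval z) c := fun R =>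
      R.differentiable.analyticAt c
    have h2 : AnalyticAt ℂ (fun z => P.eval z / Q.eval z) c := (hpol P).div (hpol Q) hq
    exact h2
  rcases h1.eventually_constant_or_nhds_le_map_nhds with h2 | h2
  · exfalso
    have h3 : ∀ᶠ y in 𝓝 c, Q.eval y ≠ 0 := Q.continuous.continuousAt.eventually_ne hq
    have h4 : ∀ᶠ y in 𝓝 c, (ww P Q).eval y = 0 := by
      filter_upwards [h2.eventually_nhds, h3] with y hy hqy
      have h5 : HasDerivAt (gg P Q) 0 y :=
        (hasDerivAt_const y (gg P Q c)).congr_of_eventuallyEq hy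
      have h6 := h5.unique (hasDerivAt_gg hqy)
      unfold Pool.Agent.H61.TT.dg at h6
      rcases div_eq_zero_iff.1 h6.symm with h7 | h7
      · exact h7
      · exact absurd h7 (pow_ne_zero 2 hqy)
    have h5 : {y | (ww P Q).eval y = 0}.Infinite := by
      intro hf
      have h6 : (𝓝[≠] c).NeBot := inferInstance
      obtain ⟨t, ht, h7⟩ := Metric.eventually_nhds_iff_ball.1 h4
      have h8 : (ball c t).Infinite := infinite_of_mem_nhds c (ball_mem_nhds c ht)
      exact h8 (hf.subset h7)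
    refine h5 (((ww P Q).roots.toFinset.finite_toSet).subset fun y hy => ?_)
    rw [Finset.mem_coe, Multiset.mem_toFinset, mem_roots hW0]
    exact hy
  · have h3 : gg P Q '' ball c r ∈ 𝓝 (gg P Q c) := h2 (image_mem_map (ball_mem_nhds c hr))
    obtain ⟨t, ht, h4⟩ := Metric.mem_nhds_iff.1 h3
    exact ⟨t, ht, fun a ha => h4 ha⟩

/-- **The end**: unbounded velocities near the critical point. -/
theorem unb {P Q : Polynomial ℂ} {c : ℂ} (hc : Crt P Q c) (hW0 : ww P Q ≠ 0) {S : Set ℂ} {Ξ : ℂ → ℂ}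
    {η : Polynomial ℂ} {κ : ℂ} (hκ : κ ≠ 0)
    (hX : ∀ z ∈ S, Q.eval z ≠ 0 → Ξ (gg P Q z) = Pool.Agent.H61.TT.dg P Q z * Ξ z + η.eval z / Q.eval z ^ 2)
    (hv : η.eval c / Q.eval c ^ 2 = Ξ (gg P Q c) + κ)
    (hcont : ∀ ε > 0, ∃ t > 0, ∀ a ∈ S, ‖a - gg P Q c‖ < t → ‖Ξ a - Ξ (gg P Q c)‖ < ε)
    {x0 : ℂ} (hvee : ∀ ε > 0, ∃ (n0 N : ℕ) (z : ℕ → ℂ), Prep P Q n0 N z ∧ (∀ i, z i ∈ S) ∧
      (∃ k, z k = x0) ∧ ‖z 0 - gg P Q c‖ < ε) :
    ∀ ε > 0, ∀ M : ℝ, ∃ (n0 N : ℕ) (z : ℕ → ℂ), Prep P Q n0 N z ∧ (∃ k, z k = x0) ∧ ‖z 0 - c‖ < ε ∧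
      ∀ u : ℕ → ℂ, Velo P Q η n0 N z u → M < ‖u 0‖ := by
  intro ε hε M
  have hcq := unb_q hc
  obtain ⟨b, hb⟩ : ∃ b, b = ‖κ‖ := ⟨_, rfl⟩
  have hb0 : 0 < b := by
    rw [hb]
    exact norm_pos_iff.2 hκ
  -- continuity of the vector field at `c`
  have h1 : ContinuousAt (fun y => η.eval y / Q.eval y ^ 2) c :=
    η.continuous.continuousAt.div (Q.continuous.continuousAt.pow 2) (pow_ne_zero 2 hcq)
  obtain ⟨r1, hr1, h2⟩ := Metric.continuousAt_iff.1 h1 (b / 4) (by positivity)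
  obtain ⟨t1, ht1, h3⟩ := hcont (b / 4) (by positivity)
  obtain ⟨r2, hr2, hr2', h4⟩ := near_crit hc.w hcq hW0
    (lt_min hε (show 0 < b / (2 * (|M| + 1)) by positivity))
  obtain ⟨t2, ht2, h5⟩ := open_at hcq hW0 (lt_min hr1 hr2)
  obtain ⟨n0, N, z, hz, hzS, ⟨k, hk⟩, hzv⟩ := hvee (min t1 t2) (lt_min ht1 ht2)
  obtain ⟨y, hy, hyz⟩ := h5 (z 0) (by
    rw [mem_ball, dist_eq_norm]
    exact lt_of_lt_of_le hzv (min_le_right _ _))
  have hyc : y ≠ c := by
    intro h6
    rw [h6] at hyz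
    have h7 : ∀ i, (rat P Q)^[i + 1] (c : OnePoint ℂ) = ((z i : ℂ) : OnePoint ℂ) := by
      intro i
      rw [Function.iterate_succ_apply, Pool.Agent.H44.Fatou.rat_coe_of_ne hcq]
      have h8 : P.eval c / Q.eval c = z 0 := hyz
      rw [h8]
      exact prep_rat hz i
    have h8 := hz.per n0 le_rfl
    refine hc.inf (n0 + 1) (n0 + N + 1) (by have := hz.hN; omega) ?_
    rw [h7, h7, h8]
  have hyr2 : y ∈ ball c r2 := ball_subset_ball (min_le_right _ _) hy
  obtain ⟨h6, h7, h8⟩ := h4 y hyr2 hyc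
  -- the new orbit
  obtain ⟨z', e0, e1⟩ : ∃ z' : ℕ → ℂ, z' 0 = y ∧ ∀ i, z' (i + 1) = z i :=
    ⟨fun i => if i = 0 then y else z (i - 1), by simp, fun i => by simp⟩
  refine ⟨n0 + 1, N, z', ⟨hz.hN, ?_, ?_, ?_, ?_, ?_⟩, ⟨k + 1, by rw [e1, hk]⟩, ?_, ?_⟩
  · intro i
    cases i with
    | zero => rw [e0]; exact h6
    | succ i => rw [e1]; exact hz.ne i
  · intro i
    cases i with
    | zero => rw [e0, e1]; exact hyz
    | succ i => rw [e1, e1]; exact hz.st i
  · intro i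
    cases i with
    | zero => rw [e0]; exact h7
    | succ i => rw [e1]; exact hz.dn i
  · intro i hi
    cases i with
    | zero => omega
    | succ i =>
      rw [show i + 1 + N = (i + N) + 1 by omega, e1, e1]
      exact hz.per i (by omega)
  · have h9 : ∀ i, z' (n0 + 1 + i) = z (n0 + i) := fun i => by
      rw [show n0 + 1 + i = (n0 + i) + 1 by omega, e1]
    simp only [h9]
    exact hz.rep
  · rw [e0, ← dist_eq_norm]
    exact lt_of_lt_of_le (mem_ball.1 hyr2) (hr2'.trans (min_le_left _ _))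
  · intro u hu
    -- `u` agrees with `Ξ` on the old orbit
    have h9 : u 1 = Ξ (z 0) := by
      have h10 := prep_zero hz (δ := fun i => u (i + 1) - Ξ (z i)) (fun i => by
        have h11 := hu.st (i + 1)
        rw [e1] at h11
        have h12 := hX (z i) (hzS i) (hz.ne i)
        rw [hz.st i] at h12
        show u (i + 1 + 1) - Ξ (z (i + 1)) = Pool.Agent.H61.TT.dg P Q (z i) * (u (i + 1) - Ξ (z i))
        rw [h11, h12]
        ring) (by
        show u (n0 + N + 1) - Ξ (z (n0 + N)) = u (n0 + 1) - Ξ (z n0)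
        rw [hz.per n0 le_rfl, show n0 + N + 1 = n0 + 1 + N by omega, hu.per (n0 + 1) le_rfl])
      exact sub_eq_zero.1 h10
    have h10 := hu.st 0
    rw [e0, Nat.zero_add, h9] at h10
    -- the equation at `y`
    have h11 : ‖Ξ (z 0) - Ξ (gg P Q c)‖ < b / 4 := h3 (z 0) (hzS 0) (lt_of_lt_of_le hzv (min_le_left _ _))
    have h12 : ‖η.eval y / Q.eval y ^ 2 - η.eval c / Q.eval c ^ 2‖ < b / 4 := by
      have h13 := h2 (x := y) (lt_of_lt_of_le (mem_ball.1 hy) (min_le_left _ _))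
      rwa [dist_eq_norm] at h13
    have h13 : Pool.Agent.H61.TT.dg P Q y * u 0 = (Ξ (z 0) - Ξ (gg P Q c)) -
        (η.eval y / Q.eval y ^ 2 - η.eval c / Q.eval c ^ 2) -
        κ := by
      rw [hv]
      linear_combination -h10
    have h14 : b / 2 < ‖Pool.Agent.H61.TT.dg P Q y * u 0‖ := by
      rw [h13]
      have h15 := norm_sub_norm_le κ
        ((Ξ (z 0) - Ξ (gg P Q c)) - (η.eval y / Q.eval y ^ 2 - η.eval c / Q.eval c ^ 2))
      have h17 := norm_sub_rev κ
        ((Ξ (z 0) - Ξ (gg P Q c)) - (η.eval y / Q.eval y ^ 2 - η.eval c / Q.eval c ^ 2))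
      rw [← hb, h17] at h15
      have h16 := norm_sub_le (Ξ (z 0) - Ξ (gg P Q c))
        (η.eval y / Q.eval y ^ 2 - η.eval c / Q.eval c ^ 2)
      linarith
    rw [norm_mul] at h14
    have h15 : ‖Pool.Agent.H61.TT.dg P Q y‖ < b / (2 * (|M| + 1)) := lt_of_lt_of_le h8 (min_le_right _ _)
    have h16 : |M| + 1 < ‖u 0‖ := by
      by_contra h17
      have h18 : ‖u 0‖ ≤ |M| + 1 := not_lt.1 h17
      have h19 : ‖Pool.Agent.H61.TT.dg P Q y‖ * ‖u 0‖ ≤ b / (2 * (|M| + 1)) * (|M| + 1) :=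
        mul_le_mul h15.le h18 (norm_nonneg _) (by positivity)
      have h20 : b / (2 * (|M| + 1)) * (|M| + 1) = b / 2 := by
        have : |M| + 1 ≠ 0 := by positivity
        field_simp
      linarith
    have h17 := le_abs_self M
    linarith

end Pool.Agent.H1.PU
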