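import Pool.Agent.H1.PU.Defs
import Pool.Agent.H47.RJ.COV
import Pool.Agent.H47.RJ.FSI

/-!
# THEOREM P, stage 2: preimages of `w` close to the critical value whose orbits avoid a small disc around `c`

`vee`: let `w ∈ ball c s` be a point whose orbit avoids `ball c (8 s')`, `16 s' ≤ s`. Suppose that points close to the critical value have orbits
which visit `ball c s`. Then there are points `a` arbitrarily close to the critical value with `f^n a = w` for some `n` whose orbits avoid `ball c (8 s')`.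

Proof: `n` minimal such that some `z` close to the critical value has `f^n z = u ∈ ball c s`; `R = rho s / 2`, `G` the branch of `f^n` at `u` with value `z` on `ball u R`;
the critical value is in `PA`, hence not in the image of `G`, so (`univ_cover`) `|G'(u)| ≤ 16 |v - z| / R` and `a = G w` is close to `z`. If `f^i a = y ∈ ball c (s/2)` for some `i < n`,
then `y = G_i w`, `G_i` the branch of `f^(n-i)` at `u` with value `f^i z`, which is not in `ball c s` (`n` is minimal); `c` is not in the image of `G_i` (`f^(n-i) c ∈ PA`), so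
`|G_i'(w)| ≤ 16 s / R` and `|G_i w - G_i u| ≤ s / 2048`: contradiction.
-/

set_option autoImplicit false

open Filter Topology Polynomial OnePoint Metric Set MeasureTheory

namespace Pool.Agent.H1.PU

open Pool.Agent.H44.Fatou Pool.Agent.H32.BT Pool.Agent.H80.AJ Pool.Agent.H35.EX Pool.Agent.H61.TT
open Pool.Agent.H79.Eul Pool.Agent.H79.Par Pool.Agent.H44.RC

private theorem vee_gc {d : ℕ} {P Q : Polynomial ℂ} {PA : Set (OnePoint ℂ)} {c : ℂ} {s : ℝ}
    (h : PSys d P Q PA c s) (hc : Crt P Q c) :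
    rat P Q (c : OnePoint ℂ) = ((gg P Q c : ℂ) : OnePoint ℂ) ∧
      ((gg P Q c : ℂ) : OnePoint ℂ) ∈ PA := by
  have hq : Q.eval c ≠ 0 := by
    intro h0
    apply hc.ninf 1 0
    show rat P Q (c : OnePoint ℂ) = ∞
    have h1 : rat P Q (OnePoint.some c) = ∞ := by
      rw [rat_coe]
      unfold pt
      rw [if_pos h0]
    exact h1
  have h1 : rat P Q (c : OnePoint ℂ) = ((gg P Q c : ℂ) : OnePoint ℂ) := rat_coe_of_ne hq
  refine ⟨h1, ?_⟩
  rw [← h1]
  exact h.fc

private theorem vee_iter {d : ℕ} {P Q : Polynomial ℂ} {PA : Set (OnePoint ℂ)} {c : ℂ} {s : ℝ}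
    (h : PSys d P Q PA c s) (hc : Crt P Q c) (m : ℕ) (hm : 1 ≤ m) :
    (rat P Q)^[m] (c : OnePoint ℂ) ∈ PA := by
  obtain ⟨k, rfl⟩ := Nat.exists_eq_add_of_le' hm
  rw [Function.iterate_succ_apply, (vee_gc h hc).1]
  exact iter_mem h.sys.inv (vee_gc h hc).2 k

private theorem vee_reg {P Q : Polynomial ℂ} {PA : Set (OnePoint ℂ)} (h : Sys0 P Q PA) {u : ℂ}
    {R : ℝ} (ho : Off PA u R) (m : ℕ) (t : ℂ) (ht : t ∈ ball u R) :
    (t : OnePoint ℂ) ∈ Pool.Agent.H91.Fatou.Reg (rat P Q) m := by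
  intro w hw i hi hcr
  have h1 : (rat P Q)^[i + 1] w ∈ PA := by
    rw [Function.iterate_succ_apply']
    exact h.crit _ hcr
  obtain ⟨j, rfl⟩ := Nat.exists_eq_add_of_le (show i + 1 ≤ m from hi)
  refine ho t ht ?_
  rw [← hw, Nat.add_comm, Function.iterate_add_apply]
  exact iter_mem h.inv h1 j

/-- the images of a branch under the iterates are branches -/
private theorem vee_br {P Q : Polynomial ℂ} {PA : Set (OnePoint ℂ)} (h : Sys0 P Q PA) {u : ℂ}
    {R : ℝ} (hR : 0 < R) (ho : Off PA u R) {i m : ℕ} {z zi : ℂ} {G Gi : ℂ → ℂ}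
    (hG : Br (rat P Q) (m + i) u R z G) (hGi : Br (rat P Q) m u R zi Gi)
    (hz : (rat P Q)^[i] (z : OnePoint ℂ) = (zi : OnePoint ℂ)) (t : ℂ) (ht : t ∈ ball u R) :
    (rat P Q)^[i] (G t : OnePoint ℂ) = (Gi t : OnePoint ℂ) := by
  have hf : Continuous (rat P Q) := rat_continuous h.cop
  refine Pool.Agent.H91.Fatou.branch_unique hf (rat_open h.cop h.deg) (n := m)
    (ψ := fun t => (t : OnePoint ℂ)) continuous_coe (convex_ball u R) isOpen_ball
    (fun t ht => vee_reg h ho m t ht) (mem_ball_self hR)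
    (g := fun t => (rat P Q)^[i] (G t : OnePoint ℂ)) (g' := fun t => (Gi t : OnePoint ℂ))
    ?_ ?_ ?_ ?_ ?_ t ht
  · exact (hf.iterate i).comp_continuousOn
      (continuous_coe.comp_continuousOn hG.diff.continuousOn)
  · exact continuous_coe.comp_continuousOn hGi.diff.continuousOn
  · intro t ht
    rw [← Function.iterate_add_apply]
    exact hG.inv t ht
  · intro t ht
    exact hGi.inv t ht
  · show (rat P Q)^[i] (G u : OnePoint ℂ) = (Gi u : OnePoint ℂ)
    rw [hG.val, hGi.val, hz]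

/-- points close to the critical value whose orbits avoid `ball c (8 s')` and end in `w` -/
theorem vee {d : ℕ} {P Q : Polynomial ℂ} {PA : Set (OnePoint ℂ)} {c : ℂ} {s s' : ℝ}
    (h : PSys d P Q PA c s) (hc : Crt P Q c) (hss : 16 * s' ≤ s) {w : ℂ}
    (hw : w ∈ ball c s) (hwL : w ∈ LAM P Q c s')
    (hit : ∀ ε : ℝ, 0 < ε → ∃ z : ℂ, ‖z - gg P Q c‖ < ε ∧ ∃ (j : ℕ) (u : ℂ), u ∈ ball c s ∧
      (rat P Q)^[j] (z : OnePoint ℂ) = (u : OnePoint ℂ)) :
    ∀ ε : ℝ, 0 < ε → ∃ (a : ℂ) (n : ℕ), ‖a - gg P Q c‖ < ε ∧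
      (rat P Q)^[n] (a : OnePoint ℂ) = (w : OnePoint ℂ) ∧ a ∈ LAM P Q c s' := by
  classical
  intro ε hε
  have hKK : 1 ≤ KK := one_le_KK
  have hs : 0 < s := h.s0
  -- the minimal time
  have hex : ∃ n : ℕ, ∃ z u : ℂ, ‖z - gg P Q c‖ < ε / 2 ∧ u ∈ ball c s ∧
      (rat P Q)^[n] (z : OnePoint ℂ) = (u : OnePoint ℂ) := by
    obtain ⟨z, hz, j, u, hu, hzu⟩ := hit (ε / 2) (half_pos hε)
    exact ⟨j, z, u, hz, hu, hzu⟩
  set n := Nat.find hex with hn
  obtain ⟨z, u, hz, hu, hzu⟩ := Nat.find_spec hex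
  rw [← hn] at hzu
  have hmin : ∀ m < n, ∀ u' : ℂ, (rat P Q)^[m] (z : OnePoint ℂ) = (u' : OnePoint ℂ) →
      u' ∉ ball c s := by
    intro m hm u' h1 h2
    exact Nat.find_min hex (hn ▸ hm) ⟨z, u', hz, h2, h1⟩
  -- the disc around `u`
  set R : ℝ := 65536 * KK * s with hRdef
  have hKs : s ≤ KK * s := le_mul_of_one_le_left hs.le hKK
  have hR : 0 < R := by positivity
  have hRs : 65536 * s ≤ R := by rw [hRdef]; nlinarith
  have hrho : rho s = 2 * R := by rw [hRdef, rho]; ring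
  have hdu : dist u c < s := mem_ball.1 hu
  have hdw : dist w c < s := mem_ball.1 hw
  have hoff : Off PA u R := by
    refine h.off.mono (ball_subset_ball' ?_)
    rw [hrho]
    linarith
  have hwu : dist w u < 2 * s := by
    have := dist_triangle w c u
    rw [dist_comm c u] at this
    linarith
  have hwR : w ∈ ball u R := by rw [mem_ball]; linarith
  have hwR2 : w ∈ closedBall u (R / 2) := by rw [mem_closedBall]; linarith
  have huR2 : u ∈ closedBall u (R / 2) := mem_closedBall_self (by positivity)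
  obtain ⟨hgc, hvPA⟩ := vee_gc h hc
  obtain ⟨G, hG⟩ := h.sys.br hR hoff hzu
  -- `G w` is close to `z`
  have h1 : R * ‖deriv G u‖ / 16 ≤ ‖gg P Q c - z‖ := by
    by_contra hcon
    have h2 := univ_cover hR hG.diff hG.inj (show gg P Q c ∈ ball (G u) (R * ‖deriv G u‖ / 16) by
      rw [mem_ball, dist_eq_norm, hG.val]
      exact not_le.1 hcon)
    obtain ⟨t, ht, htv⟩ := h2
    exact h.sys.br_off hoff hG ht (by rw [htv]; exact hvPA)
  have h2 : ‖G w - z‖ ≤ ‖gg P Q c - z‖ / 2 := by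
    have h3 := distort_lip hR hG.diff hG.inj hwR2 huR2 huR2
    rw [hG.val] at h3
    have h4 : ‖w - u‖ ≤ 2 * s := by rw [← dist_eq_norm]; exact hwu.le
    have h5 : KK * ‖deriv G u‖ * ‖w - u‖ ≤ KK * ‖deriv G u‖ * (2 * s) :=
      mul_le_mul_of_nonneg_left h4 (by positivity)
    have h6 : R * ‖deriv G u‖ = 65536 * (KK * ‖deriv G u‖ * s) := by rw [hRdef]; ring
    have h7 : 0 ≤ KK * ‖deriv G u‖ * s := by positivity
    rw [h6] at h1
    linarith
  refine ⟨G w, n, ?_, hG.inv w hwR, ?_⟩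
  · have h3 : ‖gg P Q c - z‖ < ε / 2 := by rw [norm_sub_rev]; exact hz
    have h4 : G w - gg P Q c = (G w - z) + (z - gg P Q c) := by ring
    rw [h4]
    refine lt_of_le_of_lt (norm_add_le _ _) ?_
    linarith
  · intro i y hy hiy
    by_cases hi : n ≤ i
    · obtain ⟨k, rfl⟩ := Nat.exists_eq_add_of_le hi
      rw [Nat.add_comm, Function.iterate_add_apply, hG.inv w hwR] at hiy
      exact hwL k y hy hiy
    push Not at hi
    have hyc : dist y c < s / 2 := by
      have := mem_ball.1 hy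
      linarith
    obtain ⟨m, hm⟩ := Nat.exists_eq_add_of_le hi.le
    have hm1 : 1 ≤ m := by omega
    have hnm : n = m + i := by omega
    -- the point `f^i z`
    have hzPA : (rat P Q)^[i] (z : OnePoint ℂ) ≠ ∞ := by
      intro hinf
      have h3 : (rat P Q)^[n] (z : OnePoint ℂ) ∈ PA := by
        rw [hnm, Function.iterate_add_apply, hinf]
        exact iter_mem h.sys.inv h.sys.inf m
      rw [hzu] at h3
      exact hoff u (mem_ball_self hR) h3
    obtain ⟨zi, hzi⟩ := OnePoint.ne_infty_iff_exists.1 hzPA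
    have hzi' : (rat P Q)^[i] (z : OnePoint ℂ) = (zi : OnePoint ℂ) := hzi.symm
    have hzic : s ≤ dist zi c := by
      have := hmin i hi zi hzi'
      rw [mem_ball] at this
      exact not_lt.1 this
    have hzu' : (rat P Q)^[m] (zi : OnePoint ℂ) = (u : OnePoint ℂ) := by
      rw [← hzi', ← Function.iterate_add_apply, ← hnm, hzu]
    obtain ⟨Gi, hGi⟩ := h.sys.br hR hoff hzu'
    rw [hnm] at hG
    have hGw : Gi w = y := by
      have h3 := vee_br h.sys hR hoff hG hGi hzi' w hwR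
      rw [hiy] at h3
      exact (OnePoint.coe_injective h3).symm
    have hsub : ball w (R / 2) ⊆ ball u R := ball_subset_ball' (by linarith)
    have h3 : R / 2 * ‖deriv Gi w‖ / 16 ≤ dist c y := by
      by_contra hcon
      have h4 := univ_cover (half_pos hR) (hGi.diff.mono hsub) (hGi.inj.mono hsub)
        (show c ∈ ball (Gi w) (R / 2 * ‖deriv Gi w‖ / 16) by
          rw [mem_ball, hGw]
          exact not_le.1 hcon)
      obtain ⟨t, ht, htc⟩ := h4
      have h5 := hGi.inv t (hsub ht)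
      rw [htc] at h5
      exact hoff t (hsub ht) (by rw [← h5]; exact vee_iter h hc m hm1)
    have h4 := distort_lip hR hGi.diff hGi.inj hwR2 huR2 hwR2
    rw [hGi.val, hGw] at h4
    have h5 : ‖w - u‖ ≤ 2 * s := by rw [← dist_eq_norm]; exact hwu.le
    have h6 : KK * ‖deriv Gi w‖ * ‖w - u‖ ≤ KK * ‖deriv Gi w‖ * (2 * s) :=
      mul_le_mul_of_nonneg_left h5 (by positivity)
    have h7 : R / 2 * ‖deriv Gi w‖ / 16 = 2048 * (KK * ‖deriv Gi w‖ * s) := by
      rw [hRdef]; ring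
    have h8 : 0 ≤ KK * ‖deriv Gi w‖ * s := by positivity
    rw [h7] at h3
    have h9 : dist y zi ≤ s / 4 := by
      rw [dist_eq_norm]
      rw [dist_comm] at h3
      linarith
    have h10 := dist_triangle zi y c
    rw [dist_comm zi y] at h10
    linarith

/-- if the critical point is in the Julia set, points close to the critical value have orbits which
visit every disc around `c` (all discs, in fact) -/
theorem hit_of_JS {d : ℕ} {v : E d} {PA : Set (OnePoint ℂ)} {c : ℂ} {s : ℝ}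
    (h : PSys d (pol v.1) (pol v.2) PA c s) (hc : Crt (pol v.1) (pol v.2) c)
    (hJ : (c : OnePoint ℂ) ∈ JS (Rf v)) :
    ∀ ε : ℝ, 0 < ε → ∃ z : ℂ, ‖z - gg (pol v.1) (pol v.2) c‖ < ε ∧
      ∃ (j : ℕ) (u : ℂ), u ∈ ball c s ∧
      (rat (pol v.1) (pol v.2))^[j] (z : OnePoint ℂ) = (u : OnePoint ℂ) := by
  intro ε hε
  set B : Set (OnePoint ℂ) := ((↑) : ℂ → OnePoint ℂ) '' ball (gg (pol v.1) (pol v.2) c) ε with hB
  have hBo : IsOpen B := isOpenEmbedding_coe.isOpenMap _ isOpen_ball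
  have hd : 2 ≤ d := h.rd.hd
  have hJ' : ((gg (pol v.1) (pol v.2) c : ℂ) : OnePoint ℂ) ∈ JS (Rf v) := by
    rw [← (vee_gc h hc).1]
    intro hF
    exact hJ ((Pool.Agent.H47.RJ.fs_iff (by omega) h.rd.cop h.rd.deg 1 _).1 hF)
  have hfin := Pool.Agent.H47.RJ.exc_fin (v := v) hd h.rd.cop h.rd.deg hBo
    ⟨_, ⟨_, mem_ball_self hε, rfl⟩, hJ'⟩
  have hinf : (((↑) : ℂ → OnePoint ℂ) '' ball c s).Infinite := by
    refine Set.Infinite.image OnePoint.coe_injective.injOn ?_
    exact infinite_of_mem_nhds c (ball_mem_nhds c h.s0)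
  obtain ⟨x, ⟨u, hu, rfl⟩, hx⟩ := (hinf.sdiff hfin).nonempty
  simp only [Set.mem_ofPred_eq, not_forall, not_not] at hx
  obtain ⟨j, y, ⟨z, hz, rfl⟩, hy⟩ := hx
  exact ⟨z, by rw [← dist_eq_norm]; exact mem_ball.1 hz, j, u, hu, hy⟩

/-- the version with the Julia set given by `JP` -/
theorem vee_JP {d : ℕ} {P Q : Polynomial ℂ} {PA : Set (OnePoint ℂ)} {c : ℂ} {s s' : ℝ}
    (h : PSys d P Q PA c s) (hc : Crt P Q c) {J : Set (OnePoint ℂ)} (hJ : JP P Q c J)
    (hss : 16 * s' ≤ s) {w : ℂ} (hw : w ∈ ball c s) (hwL : w ∈ LAM P Q c s') :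
    ∀ ε : ℝ, 0 < ε → ∃ (a : ℂ) (n : ℕ), ‖a - gg P Q c‖ < ε ∧
      (rat P Q)^[n] (a : OnePoint ℂ) = (w : OnePoint ℂ) ∧ a ∈ LAM P Q c s' := by
  refine vee h hc hss hw hwL fun ε hε => ?_
  have h1 : ((gg P Q c : ℂ) : OnePoint ℂ) ∈ J := by
    rw [← (vee_gc h hc).1, ← hJ.inv]
    exact hJ.cJ
  obtain ⟨m, u, hu, hm⟩ := hJ.tr (gg P Q c) h1 c hJ.cJ ε hε
  exact ⟨u, by rw [← dist_eq_norm]; exact mem_ball.1 hu, m, c, mem_ball_self h.s0, hm⟩

/-- the version for maps in the space `E d` with `c` in the Julia set -/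
theorem vee_JS {d : ℕ} {v : E d} {PA : Set (OnePoint ℂ)} {c : ℂ} {s s' : ℝ}
    (h : PSys d (pol v.1) (pol v.2) PA c s) (hc : Crt (pol v.1) (pol v.2) c)
    (hJ : (c : OnePoint ℂ) ∈ JS (Rf v)) (hss : 16 * s' ≤ s) {w : ℂ}
    (hw : w ∈ ball c s) (hwL : w ∈ LAM (pol v.1) (pol v.2) c s') :
    ∀ ε : ℝ, 0 < ε → ∃ (a : ℂ) (n : ℕ), ‖a - gg (pol v.1) (pol v.2) c‖ < ε ∧
      (rat (pol v.1) (pol v.2))^[n] (a : OnePoint ℂ) = (w : OnePoint ℂ) ∧
      a ∈ LAM (pol v.1) (pol v.2) c s' :=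
  vee h hc hss hw hwL (hit_of_JS h hc hJ)

end Pool.Agent.H1.PU
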