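import Pool.Agent.H1.PU.Xi
import Pool.Agent.H1.PU.Vee
import Pool.Agent.H1.PU.Unb
import Pool.Agent.H1.PU.Dat

/-!
# THEOREM P, unified version: the contradiction

`p_false`: the planar data `PD2` and bounded velocities `VB` are incompatible.
-/

set_option autoImplicit false

open Filter Topology Polynomial OnePoint Metric Set MeasureTheory

namespace Pool.Agent.H1.PU

open Pool.Agent.H44.Fatou Pool.Agent.H32.BT Pool.Agent.H80.AJ Pool.Agent.H35.EX Pool.Agent.H61.TT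
open Pool.Agent.H79.Eul Pool.Agent.H79.Par Pool.Agent.H47.NN

variable {d : ℕ} {P Q : Polynomial ℂ} {PA : Set (OnePoint ℂ)} {c : ℂ} {s : ℝ}

/-- an orbit which reaches a point off `PA` infinitely often is off `PA` -/
private theorem off_orb (h : PSys d P Q PA c s) {x : OnePoint ℂ} {x0 : ℂ} (hx0 : (x0 : OnePoint ℂ) ∉ PA)
    {k p : ℕ} (hp : 0 < p) (hk : (rat P Q)^[k] x = (x0 : OnePoint ℂ))
    (hper : (rat P Q)^[p] (x0 : OnePoint ℂ) = (x0 : OnePoint ℂ)) (i : ℕ) : (rat P Q)^[i] x ∉ PA := by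
  intro hi
  have h1 : ∀ t, (rat P Q)^[k + p * t] x = (x0 : OnePoint ℂ) := by
    intro t
    rw [Nat.add_comm, Function.iterate_add_apply, hk, Function.iterate_mul]
    exact Function.iterate_fixed hper t
  have h2 : i ≤ k + p * i := by nlinarith
  obtain ⟨j, hj⟩ := Nat.exists_eq_add_of_le h2
  apply hx0
  rw [← h1 i, hj, Nat.add_comm, Function.iterate_add_apply]
  exact iter_mem h.sys.inv hi j

private theorem fin_of_off (h : PSys d P Q PA c s) {x : OnePoint ℂ} (hx : x ∉ PA) :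
    ∃ z : ℂ, x = (z : OnePoint ℂ) := by
  induction x using OnePoint.rec with
  | infty => exact absurd h.sys.inf hx
  | coe z => exact ⟨z, rfl⟩

private theorem q_of_off (h : PSys d P Q PA c s) {z : ℂ} (hz : rat P Q (z : OnePoint ℂ) ∉ PA) :
    Q.eval z ≠ 0 := by
  intro h0
  apply hz
  have h1 : rat P Q (z : OnePoint ℂ) = ∞ := by
    rw [rat_coe]
    unfold pt
    rw [if_pos h0]
  rw [h1]
  exact h.sys.inf

private theorem dg_of_off (h : PSys d P Q PA c s) {z : ℂ} (hz : rat P Q (z : OnePoint ℂ) ∉ PA) :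
    Pool.Agent.H61.TT.dg P Q z ≠ 0 := by
  rw [Pool.Agent.H61.TT.dg_ne (q_of_off h hz)]
  intro h0
  exact hz (h.sys.crit _ (crit_of_wr h.sys.cop h.sys.deg h0))

/-- the orbit of a point which lands on the repelling cycle, as a sequence in the plane -/
private theorem orb_seq (h : PSys d P Q PA c s) {x : ℕ → ℂ} {m : ℂ} {p : ℕ} (hp : 0 < p)
    (hcyc : Cyc P Q p x m) (hrep : 1 < ‖m‖) (hxPA : (x 0 : OnePoint ℂ) ∉ PA) {a : ℂ} {k : ℕ}
    (hk : (rat P Q)^[k] (a : OnePoint ℂ) = (x 0 : OnePoint ℂ)) :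
    ∃ z : ℕ → ℂ, Prep P Q k p z ∧ z 0 = a ∧ z k = x 0 ∧
      (∀ i, (rat P Q)^[i] (a : OnePoint ℂ) = ((z i : ℂ) : OnePoint ℂ)) := by
  have hstep : ∀ i, i < p → rat P Q (x i : OnePoint ℂ) = (x (i + 1) : OnePoint ℂ) := by
    intro i hi
    rw [rat_coe_of_ne (hcyc.ne i hi), hcyc.step i hi]
  have hit : ∀ i, i ≤ p → (rat P Q)^[i] (x 0 : OnePoint ℂ) = (x i : OnePoint ℂ) := by
    intro i
    induction i with
    | zero => intro _; rfl
    | succ i ih =>
      intro hi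
      rw [Function.iterate_succ_apply', ih (by omega), hstep i (by omega)]
  have hper : (rat P Q)^[p] (x 0 : OnePoint ℂ) = (x 0 : OnePoint ℂ) := by
    rw [hit p le_rfl, hcyc.per]
  have hoff := off_orb h hxPA hp hk hper
  have hz : ∀ i, ∃ z : ℂ, (rat P Q)^[i] (a : OnePoint ℂ) = (z : OnePoint ℂ) := fun i =>
    fin_of_off h (hoff i)
  choose z hz using hz
  have hne : ∀ i, Q.eval (z i) ≠ 0 := by
    intro i
    apply q_of_off h
    rw [← hz i, ← Function.iterate_succ_apply' (rat P Q)]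
    exact hoff (i + 1)
  have hst : ∀ i, gg P Q (z i) = z (i + 1) := by
    intro i
    have h1 := hz (i + 1)
    rw [Function.iterate_succ_apply', hz i, rat_coe_of_ne (hne i)] at h1
    exact OnePoint.coe_injective h1
  have hzk : ∀ i, i ≤ p → z (k + i) = x i := by
    intro i hi
    have h1 := hz (k + i)
    rw [Nat.add_comm, Function.iterate_add_apply, hk, hit i hi] at h1
    rw [Nat.add_comm]
    exact (OnePoint.coe_injective h1).symm
  refine ⟨z, ⟨hp, hne, hst, ?_, ?_, ?_⟩, ?_, ?_, hz⟩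
  · intro i
    apply dg_of_off h
    rw [← hz i, ← Function.iterate_succ_apply' (rat P Q)]
    exact hoff (i + 1)
  · intro i hi
    obtain ⟨j, rfl⟩ := Nat.exists_eq_add_of_le hi
    have h1 : (rat P Q)^[k + j + p] (a : OnePoint ℂ) = (rat P Q)^[k + j] (a : OnePoint ℂ) := by
      have h2 : k + j + p = j + p + k := by ring
      have h3 : k + j = j + k := by ring
      rw [h2, h3, Function.iterate_add_apply, Function.iterate_add_apply _ j k, hk,
        Function.iterate_add_apply, hper]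
    rw [hz, hz] at h1
    exact OnePoint.coe_injective h1
  · have h1 : ∏ i ∈ Finset.range p, Pool.Agent.H61.TT.dg P Q (z (k + i)) = m := by
      rw [← hcyc.mul]
      refine Finset.prod_congr rfl fun i hi => ?_
      rw [hzk i (Finset.mem_range.1 hi).le]
      rfl
    rw [h1]
    exact hrep
  · have h1 := hz 0
    exact (OnePoint.coe_injective h1).symm
  · have h1 := hzk 0 (Nat.zero_le _)
    rwa [Nat.add_zero] at h1

/-- bounded velocities are periodic on the cycle -/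
private theorem per_of_bd {z u : ℕ → ℂ} {n0 N : ℕ} {η : Polynomial ℂ} (hz : Prep P Q n0 N z)
    (hu : ∀ i, u (i + 1) = Pool.Agent.H61.TT.dg P Q (z i) * u i + η.eval (z i) / Q.eval (z i) ^ 2) {C : ℝ}
    (hC : ∀ i, ‖u i‖ ≤ C * (1 + ‖z i‖ ^ 2)) : Velo P Q η n0 N z u := by
  refine ⟨hu, ?_⟩
  obtain ⟨δ, hδ⟩ : ∃ δ : ℕ → ℂ, δ = fun i => u (n0 + i + N) - u (n0 + i) := ⟨_, rfl⟩
  have hstep : ∀ i, δ (i + 1) = Pool.Agent.H61.TT.dg P Q (z (n0 + i)) * δ i := by
    intro i
    have h1 := hu (n0 + i + N)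
    have h2 := hu (n0 + i)
    rw [hz.per (n0 + i) (by omega)] at h1
    simp only [hδ]
    rw [show n0 + (i + 1) + N = n0 + i + N + 1 by ring, show n0 + (i + 1) = n0 + i + 1 by ring, h1, h2]
    ring
  have hprod : ∀ i m, δ (i + m) = (∏ j ∈ Finset.range m, Pool.Agent.H61.TT.dg P Q (z (n0 + i + j))) * δ i := by
    intro i m
    induction m with
    | zero => simp
    | succ m ih =>
      rw [← Nat.add_assoc, hstep, ih, Finset.prod_range_succ, ← Nat.add_assoc]
      ring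
  obtain ⟨μ, hμ⟩ : ∃ μ, μ = ∏ i ∈ Finset.range N, Pool.Agent.H61.TT.dg P Q (z (n0 + i)) := ⟨_, rfl⟩
  have hμ1 : 1 < ‖μ‖ := by rw [hμ]; exact hz.rep
  have hzper : ∀ t i, z (n0 + (N * t + i)) = z (n0 + i) := by
    intro t
    induction t with
    | zero => intro i; simp
    | succ t ih =>
      intro i
      rw [show n0 + (N * (t + 1) + i) = n0 + (N * t + i) + N by ring, hz.per _ (by omega)]
      exact ih i
  have hpow : ∀ t, δ (N * t) = μ ^ t * δ 0 := by
    intro t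
    induction t with
    | zero => simp
    | succ t ih =>
      rw [Nat.mul_succ, hprod, ih]
      have h1 : ∏ j ∈ Finset.range N, Pool.Agent.H61.TT.dg P Q (z (n0 + N * t + j)) = μ := by
        rw [hμ]
        refine Finset.prod_congr rfl fun j _ => ?_
        rw [Nat.add_assoc, hzper]
      rw [h1]
      ring
  have hbd : ∀ t, ‖δ (N * t)‖ ≤ 2 * (C * (1 + ‖z n0‖ ^ 2)) := by
    intro t
    simp only [hδ]
    have h1 := hC (n0 + N * t + N)
    have h2 := hC (n0 + N * t)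
    have h3 : z (n0 + N * t) = z n0 := by
      have := hzper t 0
      simpa using this
    rw [hz.per _ (by omega), h3] at h1
    rw [h3] at h2
    calc ‖u (n0 + N * t + N) - u (n0 + N * t)‖ ≤ ‖u (n0 + N * t + N)‖ + ‖u (n0 + N * t)‖ := norm_sub_le _ _
      _ ≤ 2 * (C * (1 + ‖z n0‖ ^ 2)) := by linarith
  have h0 : δ 0 = 0 := by
    by_contra hne
    have hpos : 0 < ‖δ 0‖ := norm_pos_iff.2 hne
    obtain ⟨t, ht⟩ := pow_unbounded_of_one_lt (2 * (C * (1 + ‖z n0‖ ^ 2)) / ‖δ 0‖) hμ1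
    rw [div_lt_iff₀ hpos] at ht
    have h1 := hbd t
    rw [hpow, norm_mul, norm_pow] at h1
    linarith
  have hall : ∀ i, δ i = 0 := by
    intro i
    induction i with
    | zero => exact h0
    | succ i ih => rw [hstep, ih, mul_zero]
  intro i hi
  obtain ⟨j, rfl⟩ := Nat.exists_eq_add_of_le hi
  have h1 := hall j
  simp only [hδ] at h1
  exact sub_eq_zero.1 h1

theorem p_false {d : ℕ} {v : E d} {PA : Set (OnePoint ℂ)} {c : ℂ} {s : ℝ} {J : Set (OnePoint ℂ)} {p : ℕ}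
    {x : ℕ → ℂ} {m : ℂ} (h : PD2 v PA c s J p x m) (hvb : VB v (x 0)) : False := by
  obtain ⟨P, hP⟩ : ∃ P, P = pol v.1 := ⟨_, rfl⟩
  obtain ⟨Q, hQ⟩ : ∃ Q, Q = pol v.2 := ⟨_, rfl⟩
  obtain ⟨hs, hc, hJ, hp, hcyc, hrep, hxJ, hxPA⟩ := h
  rw [← hP, ← hQ] at hs hc hJ hcyc
  -- the point `w`
  obtain ⟨k, w, hw, hwk⟩ := hJ.tr c hJ.cJ (x 0) hxJ s hs.s0
  obtain ⟨zw, hzw, hzw0, hzwk, hzwi⟩ := orb_seq hs hp hcyc hrep hxPA hwk
  -- its orbit avoids `c`
  have hzc : ∀ i, zw i ≠ c := by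
    intro i hi
    have h1 : (rat P Q)^[i + 1] (w : OnePoint ℂ) ∈ PA := by
      rw [Function.iterate_succ_apply', hzwi, hi]
      exact hs.fc
    rw [hzwi] at h1
    have h2 : (x 0 : OnePoint ℂ) ∈ PA := by
      have h3 : ∀ t, (rat P Q)^[k + p * t] (w : OnePoint ℂ) = (x 0 : OnePoint ℂ) := by
        intro t
        rw [hzwi]
        have h4 : zw (k + p * t) = zw k := by
          induction t with
          | zero => simp
          | succ t ih =>
            rw [show k + p * (t + 1) = k + p * t + p by ring, hzw.per _ (by omega), ih]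
        rw [h4, hzwk]
      have h4 : i + 1 ≤ k + p * (i + 1) := by nlinarith
      obtain ⟨j, hj⟩ := Nat.exists_eq_add_of_le h4
      rw [← h3 (i + 1), hj, Nat.add_comm, Function.iterate_add_apply, hzwi (i + 1)]
      exact iter_mem hs.sys.inv h1 j
    exact hxPA h2
  -- the small scale
  obtain ⟨s', hs0, hs16, hsd⟩ : ∃ s' : ℝ, 0 < s' ∧ 16 * s' ≤ s ∧ ∀ i, 8 * s' ≤ ‖zw i - c‖ := by
    have hfin : ∃ r : ℝ, 0 < r ∧ ∀ i, i < k + p → r ≤ ‖zw i - c‖ := by
      have hne : (Finset.range (k + p)).Nonempty := by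
        rw [Finset.nonempty_range_iff]; omega
      obtain ⟨i0, hi0, hmin⟩ := Finset.exists_min_image (Finset.range (k + p)) (fun i => ‖zw i - c‖) hne
      refine ⟨‖zw i0 - c‖, norm_pos_iff.2 (sub_ne_zero.2 (hzc i0)), fun i hi => ?_⟩
      exact hmin i (Finset.mem_range.2 hi)
    obtain ⟨r, hr, hri⟩ := hfin
    have hall : ∀ i, ∃ j, j < k + p ∧ zw i = zw j := by
      intro i
      induction i using Nat.strong_induction_on with
      | _ i ih =>
        by_cases hi : i < k + p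
        · exact ⟨i, hi, rfl⟩
        · obtain ⟨j, hj, hj2⟩ := ih (i - p) (by omega)
          refine ⟨j, hj, ?_⟩
          rw [← hj2]
          have h1 := hzw.per (i - p) (by omega)
          rwa [show i - p + p = i by omega] at h1
    refine ⟨min (s / 16) (r / 8), lt_min (by have := hs.s0; positivity) (by positivity), ?_, fun i => ?_⟩
    · have := min_le_left (s / 16) (r / 8)
      linarith
    · obtain ⟨j, hj, hj2⟩ := hall i
      rw [hj2]
      have h1 := hri j hj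
      have := min_le_right (s / 16) (r / 8)
      linarith
  have hs' : PSys d P Q PA c s' := hs.mono hs0 (by have := hs.s0; linarith)
  have hwL : w ∈ LAM P Q c s' := by
    intro n u hu hn
    rw [hzwi n] at hn
    have h1 := OnePoint.coe_injective hn
    rw [← h1, mem_ball, dist_eq_norm] at hu
    exact absurd (hsd n) (not_le.2 hu)
  obtain ⟨Ξ, η, κ, hκ, hη, hX, hv, hcont⟩ := xi_main hs' hc hJ
  obtain ⟨w0, hw0⟩ := xi_surj (v0 := v) (by rw [← hP, ← hQ]; exact hs.rd) hη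
  obtain ⟨C, hC⟩ := hvb w0
  obtain ⟨hq, -⟩ := crt_q hs hc
  -- orbits near the critical value
  have hvee : ∀ ε > 0, ∃ (n0 N : ℕ) (z : ℕ → ℂ), Prep P Q n0 N z ∧ (∀ i, z i ∈ LAM P Q c s') ∧
      (∃ k, z k = x 0) ∧ ‖z 0 - gg P Q c‖ < ε := by
    intro ε hε
    obtain ⟨a, n, ha, han, haL⟩ := vee_JP hs hc hJ hs16 hw hwL ε hε
    have h1 : (rat P Q)^[k + n] (a : OnePoint ℂ) = (x 0 : OnePoint ℂ) := by
      rw [Function.iterate_add_apply, han, hwk]
    obtain ⟨z, hz, hz0, hzk, hzi⟩ := orb_seq hs hp hcyc hrep hxPA h1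
    refine ⟨k + n, p, z, hz, fun i => ?_, ⟨k + n, hzk⟩, by rw [hz0]; exact ha⟩
    induction i with
    | zero => rw [hz0]; exact haL
    | succ i ih =>
      rw [← hz.st i]
      exact lam_step P Q c s' ih (hz.ne i)
  have hcont' : ∀ ε > 0, ∃ t > 0, ∀ a ∈ LAM P Q c s', ‖a - gg P Q c‖ < t → ‖Ξ a - Ξ (gg P Q c)‖ < ε := by
    intro ε hε
    obtain ⟨t, ht, h1⟩ := hcont (ε / 2) (by positivity)
    exact ⟨t, ht, fun a ha hat => lt_of_le_of_lt (h1 a ha hat) (by linarith)⟩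
  obtain ⟨n0, N, z, hz, ⟨k', hk'⟩, hz1, hz2⟩ := unb hc (ww_ne hs.rd) hκ hX hv hcont' hvee 1 one_pos
    (|C| * (1 + (‖c‖ + 1) ^ 2))
  obtain ⟨u, hu1, hu2⟩ := hC k' z (fun i => ⟨by rw [← hQ]; exact hz.ne i, by
    rw [← hP, ← hQ]; exact (hz.st i).symm⟩) hk'
  have hu1' : ∀ i, u (i + 1) = Pool.Agent.H61.TT.dg P Q (z i) * u i + η.eval (z i) / Q.eval (z i) ^ 2 := by
    intro i
    rw [hu1 i, hw0, hP, hQ]
  have h1 := hz2 u (per_of_bd hz hu1' hu2)
  have h2 := hu2 0
  have h3 : ‖z 0‖ ≤ ‖c‖ + 1 := by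
    have h4 : ‖z 0‖ ≤ ‖z 0 - c‖ + ‖c‖ := by
      have := norm_add_le (z 0 - c) c
      rwa [sub_add_cancel] at this
    linarith
  have h4 : C * (1 + ‖z 0‖ ^ 2) ≤ |C| * (1 + (‖c‖ + 1) ^ 2) := by
    have h5 : ‖z 0‖ ^ 2 ≤ (‖c‖ + 1) ^ 2 := pow_le_pow_left₀ (norm_nonneg _) h3 2
    calc C * (1 + ‖z 0‖ ^ 2) ≤ |C| * (1 + ‖z 0‖ ^ 2) := by
          apply mul_le_mul_of_nonneg_right (le_abs_self C) (by positivity)
      _ ≤ |C| * (1 + (‖c‖ + 1) ^ 2) := by
          apply mul_le_mul_of_nonneg_left _ (abs_nonneg C)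
          linarith
  linarith

end Pool.Agent.H1.PU
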