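import Pool.Agent.H1.PU.Bas
import Pool.Agent.H50.ST.KoeA

/-!
# THEOREM P, unified version: the nice set

`VV n`: the points whose orbits visit `ball c s` at a time `≤ n`; `UU` the union; `NA` the component of `c` of `UU`.
`claim`: a connected subset of `VV n` which contains `c` is contained in `ball c (11/10 s)`.
-/

set_option autoImplicit false

open Filter Topology Polynomial OnePoint Metric Set MeasureTheory

namespace Pool.Agent.H1.PU

open Pool.Agent.H44.Fatou Pool.Agent.H32.BT Pool.Agent.H80.AJ Pool.Agent.H35.EX Pool.Agent.H61.TT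

variable {d : ℕ} {P Q : Polynomial ℂ} {PA : Set (OnePoint ℂ)} {c : ℂ} {s : ℝ}

theorem crit_c (h : PSys d P Q PA c s) (hc : (ww P Q).eval c = 0) :
    IsCrit (rat P Q) (c : OnePoint ℂ) := crit_of_wr h.sys.cop h.sys.deg hc

/-- the orbit of `c` after time zero does not visit the large ball -/
theorem orb_c (h : PSys d P Q PA c s) (hc : (ww P Q).eval c = 0) {n : ℕ} (hn : 1 ≤ n) {u : ℂ}
    (hu : u ∈ ball c (rho s)) : (rat P Q)^[n] (c : OnePoint ℂ) ≠ (u : OnePoint ℂ) := by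
  intro he
  apply h.off u hu
  obtain ⟨m, rfl⟩ := Nat.exists_eq_add_of_le hn
  rw [← he, Nat.add_comm, Function.iterate_add_apply]
  exact iter_mem h.sys.inv (h.sys.crit _ (crit_c h hc)) m

/-- branches of positive order omit `c` -/
theorem omit_c (h : PSys d P Q PA c s) (hc : (ww P Q).eval c = 0) {p : ℕ × ℂ}
    (hp : p ∈ IX P Q c) (hp1 : 1 ≤ p.1) : c ∉ br P Q c s p '' ball c (rho s) := by
  rintro ⟨u, hu, he⟩
  have h1 := br_inv h hp hu
  rw [he] at h1
  exact orb_c h hc hp1 hu h1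

/-- small returns -/
theorem small (h : PSys d P Q PA c s) (hc : (ww P Q).eval c = 0) {p : ℕ × ℂ}
    (hp : p ∈ IX P Q c) (hp1 : 1 ≤ p.1) {t : ℝ} (ht0 : 0 < t) (hts : t ≤ 33 * s) {w₀ : ℂ}
    (hw₀ : w₀ ∈ ball c (2 * t)) (hgw : br P Q c s p w₀ ∈ ball c (2 * t)) :
    ∀ w ∈ ball c (2 * t), ‖br P Q c s p w - br P Q c s p w₀‖ ≤ t / 20 := by
  refine Pool.H50.ST.small_ret ht0 ?_ (br_diff h hp) (br_inj h hp) (omit_c h hc hp hp1) hw₀ hgw
  have h1 := rho_ge h.s0
  linarith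

/-- the points whose orbits visit `ball c s` at a time `≤ n` -/
def VV (P Q : Polynomial ℂ) (c : ℂ) (s : ℝ) (n : ℕ) : Set ℂ :=
  {z | ∃ k ≤ n, ∃ u ∈ ball c s, (rat P Q)^[k] (z : OnePoint ℂ) = (u : OnePoint ℂ)}

/-- the points whose orbits visit `ball c s` -/
def UU (P Q : Polynomial ℂ) (c : ℂ) (s : ℝ) : Set ℂ :=
  {z | ∃ n : ℕ, ∃ u ∈ ball c s, (rat P Q)^[n] (z : OnePoint ℂ) = (u : OnePoint ℂ)}

/-- the nice set -/
def NA (P Q : Polynomial ℂ) (c : ℂ) (s : ℝ) : Set ℂ := connectedComponentIn (UU P Q c s) c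

theorem open_vis (h : PSys d P Q PA c s) (k : ℕ) :
    IsOpen {z : ℂ | ∃ u ∈ ball c s, (rat P Q)^[k] (z : OnePoint ℂ) = (u : OnePoint ℂ)} := by
  have h1 : {z : ℂ | ∃ u ∈ ball c s, (rat P Q)^[k] (z : OnePoint ℂ) = (u : OnePoint ℂ)} =
      (fun z : ℂ => (rat P Q)^[k] (z : OnePoint ℂ)) ⁻¹' (((↑) : ℂ → OnePoint ℂ) '' ball c s) := by
    ext z
    constructor
    · rintro ⟨u, hu, he⟩
      exact ⟨u, hu, he.symm⟩
    · rintro ⟨u, hu, he⟩
      exact ⟨u, hu, he.symm⟩
  rw [h1]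
  exact (OnePoint.isOpenEmbedding_coe.isOpenMap _ isOpen_ball).preimage
    (((rat_cont h).iterate k).comp continuous_coe)

theorem open_VV (h : PSys d P Q PA c s) (n : ℕ) : IsOpen (VV P Q c s n) := by
  have h1 : VV P Q c s n = ⋃ k ∈ Finset.range (n + 1),
      {z : ℂ | ∃ u ∈ ball c s, (rat P Q)^[k] (z : OnePoint ℂ) = (u : OnePoint ℂ)} := by
    ext z
    simp only [VV, mem_ofPred_eq, mem_iUnion, Finset.mem_range, Nat.lt_succ_iff, exists_prop]
  rw [h1]
  exact isOpen_biUnion fun k _ => open_vis h k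

theorem open_UU (h : PSys d P Q PA c s) : IsOpen (UU P Q c s) := by
  have h1 : UU P Q c s = ⋃ k : ℕ,
      {z : ℂ | ∃ u ∈ ball c s, (rat P Q)^[k] (z : OnePoint ℂ) = (u : OnePoint ℂ)} := by
    ext z
    simp only [UU, mem_ofPred_eq, mem_iUnion]
  rw [h1]
  exact isOpen_iUnion fun k => open_vis h k

theorem VV_mono {m n : ℕ} (hmn : m ≤ n) : VV P Q c s m ⊆ VV P Q c s n := by
  rintro z ⟨k, hk, hu⟩
  exact ⟨k, hk.trans hmn, hu⟩

theorem ball_VV (n : ℕ) : ball c s ⊆ VV P Q c s n := fun z hz => ⟨0, Nat.zero_le n, z, hz, rfl⟩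

/-- a path which leaves the ball: a connected part which starts on the sphere and stays outside -/
theorem cut {γ : unitInterval → ℂ} (hγ : Continuous γ) {x : ℂ} {r : ℝ} (hr : 0 < r)
    (h0 : γ 0 = x) (h1 : r ≤ ‖γ 1 - x‖) :
    ∃ S : Set ℂ, IsPreconnected S ∧ S ⊆ range γ ∧ γ 1 ∈ S ∧ (∀ z ∈ S, r ≤ ‖z - x‖) ∧
      ∃ y ∈ S, ‖y - x‖ = r := by
  set K : Set unitInterval := {t | ‖γ t - x‖ ≤ r} with hK
  have hn : Continuous fun t => ‖γ t - x‖ := (hγ.sub continuous_const).norm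
  have hKc : IsClosed K := isClosed_le hn continuous_const
  have hK0 : (0 : unitInterval) ∈ K := by
    show ‖γ 0 - x‖ ≤ r
    rw [h0, sub_self, norm_zero]
    exact hr.le
  set t1 : unitInterval := sSup K with ht1
  have ht1K : t1 ∈ K := hKc.isCompact.sSup_mem ⟨0, hK0⟩
  have hle : ∀ t ∈ K, t ≤ t1 := fun t ht => le_csSup ⟨1, fun t _ => unitInterval.le_one' ⟩ ht
  have hout : ∀ t ∈ Icc t1 1, r ≤ ‖γ t - x‖ := by
    have h2 : ‖γ t1 - x‖ = r := by
      obtain ⟨t, ht, hte⟩ := intermediate_value_Icc (f := fun t => ‖γ t - x‖)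
        (unitInterval.le_one' : t1 ≤ 1) hn.continuousOn ⟨ht1K, h1⟩
      have h3 : t ≤ t1 := hle t (show ‖γ t - x‖ ≤ r from hte.le)
      have h4 : t = t1 := le_antisymm h3 ht.1
      rw [← h4]
      exact hte
    intro t ht
    rcases eq_or_lt_of_le ht.1 with h3 | h3
    · rw [← h3]; exact h2.ge
    · by_contra hcon
      push Not at hcon
      exact absurd (hle t (show ‖γ t - x‖ ≤ r from hcon.le)) (not_le.2 h3)
  refine ⟨γ '' Icc t1 1, isPreconnected_Icc.image _ hγ.continuousOn, image_subset_range _ _,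
    ⟨1, ⟨unitInterval.le_one', le_rfl⟩, rfl⟩, ?_, γ t1, ⟨t1, ⟨le_rfl, unitInterval.le_one'⟩, rfl⟩,
    le_antisymm ht1K (hout t1 ⟨le_rfl, unitInterval.le_one'⟩)⟩
  rintro z ⟨t, ht, rfl⟩
  exact hout t ht

/-- the values of an iterate on a connected set, lifted to the plane; the set is the image of a branch -/
theorem lift (h : PSys d P Q PA c s) {S : Set ℂ} (hS : IsPreconnected S) {m : ℕ}
    (hv : ∀ x ∈ S, ∃ v ∈ ball c (rho s), (rat P Q)^[m] (x : OnePoint ℂ) = (v : OnePoint ℂ))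
    {x0 : ℂ} (hx0 : x0 ∈ S) :
    ∃ (y : ℂ) (φ : ℂ → ℂ), (m, y) ∈ IX P Q c ∧ ContinuousOn φ S ∧
      ∀ x ∈ S, (rat P Q)^[m] (x : OnePoint ℂ) = (φ x : OnePoint ℂ) ∧ φ x ∈ ball c (rho s) ∧
        x = br P Q c s (m, y) (φ x) := by
  classical
  have : PreconnectedSpace S := isPreconnected_iff_preconnectedSpace.1 hS
  choose! φ hφ1 hφ2 using hv
  have hcont : Continuous fun t : S => φ t := by
    rw [OnePoint.isOpenEmbedding_coe.isInducing.continuous_iff]
    have h1 : ((↑) : ℂ → OnePoint ℂ) ∘ (fun t : S => φ t) =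
        fun t : S => (rat P Q)^[m] ((t : ℂ) : OnePoint ℂ) := by
      funext t
      exact (hφ2 t t.2).symm
    rw [h1]
    exact ((rat_cont h).iterate m).comp (continuous_coe.comp continuous_subtype_val)
  obtain ⟨y, hyI, hy⟩ := fibre h (hφ1 x0 hx0) (m := m) (z0 := (x0 : OnePoint ℂ)) (hφ2 x0 hx0)
  have h2 := uni (br_spec h hyI) hcont (fun t => hφ1 t t.2)
    (g := fun t : S => ((t : ℂ) : OnePoint ℂ)) (continuous_coe.comp continuous_subtype_val)
    (fun t => hφ2 t t.2) (t0 := ⟨x0, hx0⟩) hy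
  exact ⟨y, φ, hyI, continuousOn_iff_continuous_domRestrict.2 hcont, fun x hx =>
    ⟨hφ2 x hx, hφ1 x hx, OnePoint.coe_injective (h2 ⟨x, hx⟩)⟩⟩

/-- a connected subset of `VV n` which contains `c` is small -/
theorem claim (h : PSys d P Q PA c s) (hc : (ww P Q).eval c = 0) (n : ℕ) :
    ∀ X : Set ℂ, IsPreconnected X → c ∈ X → X ⊆ VV P Q c s n → X ⊆ ball c (11 / 10 * s) := by
  have hs := h.s0
  have hrho := rho_ge hs
  induction n using Nat.strong_induction_on with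
  | _ n ih =>
  intro X hX hcX hXV z0 hz0
  by_contra hz
  rw [mem_ball, dist_eq_norm, not_lt] at hz
  have hcV : c ∈ VV P Q c s n := hXV hcX
  -- a path from `c` to `z0` in `VV n`
  set A : Set ℂ := connectedComponentIn (VV P Q c s n) c with hA
  have hAo : IsOpen A := (open_VV h n).connectedComponentIn
  have hAc : IsConnected A := isConnected_connectedComponentIn_iff.2 hcV
  have hXA : X ⊆ A := hX.subset_connectedComponentIn hcX hXV
  obtain ⟨γ, hγ⟩ := (hAo.isConnected_iff_isPathConnected.1 hAc).joinedIn c (hXA hcX) z0 (hXA hz0)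
  obtain ⟨S, hS, hSr, h1S, hSout, x1, hx1S, hx1⟩ := cut γ.continuous hs γ.source (by
    rw [γ.target]; linarith)
  rw [γ.target] at h1S
  have hSV : S ⊆ VV P Q c s n := by
    intro x hx
    obtain ⟨t, rfl⟩ := hSr hx
    exact connectedComponentIn_subset _ _ (hγ t)
  have hS0 : ∀ x ∈ S, x ∉ ball c s := by
    intro x hx hxb
    rw [mem_ball, dist_eq_norm] at hxb
    exact absurd (hSout x hx) (not_le.2 hxb)
  -- the first time `m ≥ 1` at which the image of `S` meets `ball c s`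
  have hex : ∃ m : ℕ, 1 ≤ m ∧ ∃ x ∈ S, ∃ u ∈ ball c s,
      (rat P Q)^[m] (x : OnePoint ℂ) = (u : OnePoint ℂ) := by
    obtain ⟨k, hk, u, hu, hku⟩ := hSV hx1S
    refine ⟨k, ?_, x1, hx1S, u, hu, hku⟩
    rcases Nat.eq_zero_or_pos k with rfl | hk0
    · exfalso
      have h1 : x1 = u := OnePoint.coe_injective hku
      rw [← h1] at hu
      exact hS0 x1 hx1S hu
    · exact hk0
  classical
  set m := Nat.find hex with hm
  obtain ⟨hm1, xm, hxm, um, hum, hmu⟩ := Nat.find_spec hex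
  rw [← hm] at hm1 hmu
  have hkey : ∀ x ∈ S, ∃ k, m ≤ k ∧ k ≤ n ∧ ∃ u ∈ ball c s,
      (rat P Q)^[k] (x : OnePoint ℂ) = (u : OnePoint ℂ) := by
    intro x hx
    obtain ⟨k, hk, u, hu, hku⟩ := hSV hx
    refine ⟨k, ?_, hk, u, hu, hku⟩
    refine Nat.find_min' hex ⟨?_, x, hx, u, hu, hku⟩
    rcases Nat.eq_zero_or_pos k with rfl | hk0
    · exfalso
      have h1 : x = u := OnePoint.coe_injective hku
      rw [← h1] at hu
      exact hS0 x hx hu
    · exact hk0
  have hsub : ball c s ⊆ ball c (rho s) := ball_subset_ball (by linarith)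
  -- the image is in `VV (n - m)`
  have hfin : ∀ x ∈ S, ∃ v ∈ VV P Q c s (n - m),
      (rat P Q)^[m] (x : OnePoint ℂ) = (v : OnePoint ℂ) := by
    intro x hx
    obtain ⟨k, hmk, hkn, u, hu, hku⟩ := hkey x hx
    have h1 : (rat P Q)^[k - m] ((rat P Q)^[m] (x : OnePoint ℂ)) = (u : OnePoint ℂ) := by
      rw [← Function.iterate_add_apply, Nat.sub_add_cancel hmk]
      exact hku
    obtain ⟨v, hv⟩ := pre_fin h (hsub hu) h1
    refine ⟨v, ⟨k - m, by omega, u, hu, ?_⟩, hv⟩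
    rw [← hv]
    exact h1
  have hmn : m ≤ n := by
    obtain ⟨k, hmk, hkn, -⟩ := hkey x1 hx1S
    omega
  have hcS : PreconnectedSpace S := isPreconnected_iff_preconnectedSpace.1 hS
  choose! ψ hψ1 hψ2 using hfin
  have hψc : ContinuousOn ψ S := by
    rw [continuousOn_iff_continuous_domRestrict]
    rw [OnePoint.isOpenEmbedding_coe.isInducing.continuous_iff]
    have h1 : ((↑) : ℂ → OnePoint ℂ) ∘ (S.domRestrict ψ) =
        fun t : S => (rat P Q)^[m] ((t : ℂ) : OnePoint ℂ) := by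
      funext t
      exact (hψ2 t t.2).symm
    rw [h1]
    exact ((rat_cont h).iterate m).comp (continuous_coe.comp continuous_subtype_val)
  have hYc : IsPreconnected (ψ '' S) := hS.image _ hψc
  have hxmY : ψ xm ∈ ball c s := by
    have h1 := hψ2 xm hxm
    rw [hmu] at h1
    rw [← OnePoint.coe_injective h1]
    exact hum
  have hZ : IsPreconnected (ψ '' S ∪ ball c s) :=
    hYc.union (ψ xm) ⟨xm, hxm, rfl⟩ hxmY (convex_ball c s).isPreconnected
  have hZb := ih (n - m) (by omega) (ψ '' S ∪ ball c s) hZ (Or.inr (mem_ball_self hs)) (by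
    rintro v (⟨x, hx, rfl⟩ | hv)
    · exact hψ1 x hx
    · exact ball_VV _ hv)
  have hS2 : ∀ x ∈ S, ψ x ∈ ball c (11 / 10 * s) := fun x hx => hZb (Or.inl ⟨x, hx, rfl⟩)
  have hsub2 : ball c (11 / 10 * s) ⊆ ball c (rho s) := ball_subset_ball (by linarith)
  obtain ⟨y, φ, hyI, -, hφ⟩ := lift h hS (m := m)
    (fun x hx => ⟨ψ x, hsub2 (hS2 x hx), hψ2 x hx⟩) hx1S
  have hφψ : ∀ x ∈ S, φ x = ψ x := by
    intro x hx
    have h1 := (hφ x hx).1
    rw [hψ2 x hx] at h1
    exact (OnePoint.coe_injective h1).symm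
  have hb2 : ball c (11 / 10 * s) ⊆ ball c (2 * s) := ball_subset_ball (by linarith)
  have hsm := small h hc hyI (show 1 ≤ m from hm1) hs (by linarith) (w₀ := φ x1) (by
    rw [hφψ x1 hx1S]; exact hb2 (hS2 x1 hx1S)) (by
    rw [← (hφ x1 hx1S).2.2, mem_ball, dist_eq_norm, hx1]
    linarith) (φ z0) (by rw [hφψ z0 h1S]; exact hb2 (hS2 z0 h1S))
  rw [← (hφ x1 hx1S).2.2, ← (hφ z0 h1S).2.2] at hsm
  have h1 : ‖z0 - c‖ ≤ ‖z0 - x1‖ + ‖x1 - c‖ := by
    have : z0 - c = (z0 - x1) + (x1 - c) := by ring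
    rw [this]
    exact norm_add_le _ _
  rw [hx1] at h1
  linarith

/-- the nice set exists -/
theorem nice_NA (h : PSys d P Q PA c s) (hc : (ww P Q).eval c = 0) : Nice P Q c s (NA P Q c s) := by
  have hs := h.s0
  have hrho := rho_ge hs
  have hcU : c ∈ UU P Q c s := ⟨0, c, mem_ball_self hs, rfl⟩
  have hbU : ball c s ⊆ UU P Q c s := fun z hz => ⟨0, z, hz, rfl⟩
  have hAo : IsOpen (NA P Q c s) := (open_UU h).connectedComponentIn
  have hAc : IsConnected (NA P Q c s) := isConnected_connectedComponentIn_iff.2 hcU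
  have hbA : ball c s ⊆ NA P Q c s :=
    (convex_ball c s).isPreconnected.subset_connectedComponentIn (mem_ball_self hs) hbU
  have hAs : NA P Q c s ⊆ ball c (11 / 10 * s) := by
    intro z hz
    obtain ⟨γ, hγ⟩ := (hAo.isConnected_iff_isPathConnected.1 hAc).joinedIn c
      (hbA (mem_ball_self hs)) z hz
    have hK : IsCompact (range γ) := isCompact_range γ.continuous
    obtain ⟨n, hn⟩ := hK.elim_directed_cover (fun n => VV P Q c s n) (fun n => open_VV h n) (by
      rintro _ ⟨t, rfl⟩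
      obtain ⟨k, u, hu, hk⟩ := connectedComponentIn_subset _ _ (hγ t)
      exact mem_iUnion.2 ⟨k, k, le_rfl, u, hu, hk⟩)
      (fun i j => ⟨max i j, VV_mono (le_max_left i j), VV_mono (le_max_right i j)⟩)
    refine claim h hc n (range γ) ?_ ⟨0, γ.source⟩ hn ⟨1, γ.target⟩
    rw [← image_univ]
    exact isPreconnected_univ.image _ γ.continuous.continuousOn
  refine ⟨hAo, hAc.isPreconnected, hbA, hAs, ?_⟩
  intro p hp u hu hpu
  have hsubB : NA P Q c s ⊆ ball c (rho s) := hAs.trans (ball_subset_ball (by linarith))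
  have h1 : IsPreconnected (br P Q c s p '' NA P Q c s) :=
    hAc.isPreconnected.image _ ((br_diff h hp).continuousOn.mono hsubB)
  have h2 : br P Q c s p '' NA P Q c s ⊆ UU P Q c s := by
    rintro _ ⟨v, hv, rfl⟩
    obtain ⟨k, w, hw, hk⟩ := connectedComponentIn_subset _ _ hv
    refine ⟨k + p.1, w, hw, ?_⟩
    rw [Function.iterate_add_apply, br_inv h hp (hsubB hv)]
    exact hk
  have h3 := h1.subset_connectedComponentIn ⟨u, hu, rfl⟩ h2
  rw [← connectedComponentIn_eq hpu] at h3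
  intro v hv
  exact h3 ⟨v, hv, rfl⟩

end Pool.Agent.H1.PU
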