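import Pool.Agent.H1.PU.Nic

/-!
# THEOREM P, unified version: returns and entries

`rr_maps`: returns map `A` into `A`; `av_all`: avoidance at the centre gives avoidance on `A`; `ee_disj`, `r1_disj`: the images of
`A` under first entries (first returns) are pairwise disjoint; `ee_out`; `split`: a return which is not a first return is a composition
of a first return and a shorter return; `succ_iff`: the decomposition of the preimages of the first entries.
-/

set_option autoImplicit false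

open Filter Topology Polynomial OnePoint Metric Set MeasureTheory

namespace Pool.Agent.H1.PU

open Pool.Agent.H44.Fatou Pool.Agent.H32.BT Pool.Agent.H80.AJ Pool.Agent.H35.EX Pool.Agent.H61.TT

variable {d : ℕ} {P Q : Polynomial ℂ} {PA : Set (OnePoint ℂ)} {c : ℂ} {s : ℝ} {A : Set ℂ}

theorem Nice.sub (hN : Nice P Q c s A) (hs : 0 < s) : A ⊆ ball c (rho s) :=
  hN.As.trans (ball_subset_ball (by have := rho_ge hs; linarith))

theorem Nice.c_mem (hN : Nice P Q c s A) (hs : 0 < s) : c ∈ A := hN.bA (mem_ball_self hs)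

theorem zero_IX : ((0 : ℕ), c) ∈ IX P Q c := rfl

theorem eq_zero {p : ℕ × ℂ} (hp : p ∈ IX P Q c) (h0 : p.1 = 0) : p = (0, c) := by
  have h1 : (rat P Q)^[p.1] (p.2 : OnePoint ℂ) = (c : OnePoint ℂ) := hp
  rw [h0] at h1
  exact Prod.ext h0 (OnePoint.coe_injective h1)

theorem zero_EE : ((0 : ℕ), c) ∈ EE P Q c A :=
  ⟨zero_IX, fun i _ hi => absurd hi (Nat.not_lt_zero i)⟩

theorem R1_sub_RR : R1 P Q c A ⊆ RR P Q c A := fun _ hp => ⟨hp.1, hp.2.1, hp.2.2.1⟩

/-- a branch of index `p` with `p.2 ∈ A` maps `A` into `A` -/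
theorem maps_of (h : PSys d P Q PA c s) (hN : Nice P Q c s A) {p : ℕ × ℂ} (hp : p ∈ IX P Q c)
    (h2 : p.2 ∈ A) : MapsTo (br P Q c s p) A A :=
  hN.nice p hp c (hN.c_mem h.s0) (by rw [br_c h hp]; exact h2)

theorem rr_maps (h : PSys d P Q PA c s) (hN : Nice P Q c s A) {p : ℕ × ℂ}
    (hp : p ∈ RR P Q c A) : MapsTo (br P Q c s p) A A := maps_of h hN hp.1 hp.2.2

/-- avoidance at the centre gives avoidance on `A` -/
theorem av_all (h : PSys d P Q PA c s) (hN : Nice P Q c s A) {p : ℕ × ℂ} (hp : p ∈ IX P Q c)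
    {m : ℕ} (hv : Av P Q A m p.1 p.2) {u : ℂ} (hu : u ∈ A) :
    Av P Q A m p.1 (br P Q c s p u) := by
  intro i hmi hi v hv' he
  obtain ⟨y, hy1, hy2, hy3⟩ := pre h hp hi.le
  rw [hy3 u (hN.sub h.s0 hu)] at he
  have h1 : br P Q c s (p.1 - i, y) u ∈ A := by
    rw [OnePoint.coe_injective he]; exact hv'
  have h2 := hN.nice _ hy2 u hu h1 (hN.c_mem h.s0)
  rw [br_c h hy2] at h2
  exact hv i hmi hi y h2 hy1

/-- avoidance at a point of `A` gives avoidance at the centre -/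
theorem av_cen (h : PSys d P Q PA c s) (hN : Nice P Q c s A) {p : ℕ × ℂ} (hp : p ∈ IX P Q c)
    {m : ℕ} {u : ℂ} (hu : u ∈ A) (hv : Av P Q A m p.1 (br P Q c s p u)) :
    Av P Q A m p.1 p.2 := by
  intro i hmi hi v hv' he
  obtain ⟨y, hy1, hy2, hy3⟩ := pre h hp hi.le
  rw [hy1] at he
  have h1 : y ∈ A := by rw [OnePoint.coe_injective he]; exact hv'
  exact hv i hmi hi _ (maps_of h hN hy2 h1 hu) (hy3 u (hN.sub h.s0 hu))

theorem disj_aux (h : PSys d P Q PA c s) (hN : Nice P Q c s A) {m : ℕ} {p q : ℕ × ℂ}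
    (hp : p ∈ IX P Q c) (hq : q ∈ IX P Q c) (hq2 : Av P Q A m q.1 q.2) (hm : m ≤ p.1)
    (hpq : p.1 ≤ q.1) {u v : ℂ} (hu : u ∈ A) (hv : v ∈ A)
    (he : br P Q c s p u = br P Q c s q v) : p = q := by
  have h1 := br_inv h hp (hN.sub h.s0 hu)
  rcases eq_or_lt_of_le hpq with h2 | h2
  · have h3 := br_inv h hq (hN.sub h.s0 hv)
    rw [he, h2, h3] at h1
    have h4 := OnePoint.coe_injective h1
    rw [h4] at he
    exact same h hp hq h2 (hN.sub h.s0 hu) he
  · exfalso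
    rw [he] at h1
    exact av_all h hN hq hq2 hv p.1 hm h2 u hu h1

theorem ee_disj (h : PSys d P Q PA c s) (hN : Nice P Q c s A) {p q : ℕ × ℂ}
    (hp : p ∈ EE P Q c A) (hq : q ∈ EE P Q c A) (hpq : p ≠ q) :
    Disjoint (br P Q c s p '' A) (br P Q c s q '' A) := by
  rw [Set.disjoint_left]
  rintro _ ⟨u, hu, rfl⟩ ⟨v, hv, he⟩
  rcases le_total p.1 q.1 with h1 | h1
  · exact hpq (disj_aux h hN hp.1 hq.1 hq.2 (Nat.zero_le _) h1 hu hv he.symm)
  · exact hpq (disj_aux h hN hq.1 hp.1 hp.2 (Nat.zero_le _) h1 hv hu he).symm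

theorem r1_disj (h : PSys d P Q PA c s) (hN : Nice P Q c s A) {p q : ℕ × ℂ}
    (hp : p ∈ R1 P Q c A) (hq : q ∈ R1 P Q c A) (hpq : p ≠ q) :
    Disjoint (br P Q c s p '' A) (br P Q c s q '' A) := by
  rw [Set.disjoint_left]
  rintro _ ⟨u, hu, rfl⟩ ⟨v, hv, he⟩
  rcases le_total p.1 q.1 with h1 | h1
  · exact hpq (disj_aux h hN hp.1 hq.1 hq.2.2.2 hp.2.1 h1 hu hv he.symm)
  · exact hpq (disj_aux h hN hq.1 hp.1 hp.2.2.2 hq.2.1 h1 hv hu he).symm

theorem ee_out (h : PSys d P Q PA c s) (hN : Nice P Q c s A) {p : ℕ × ℂ}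
    (hp : p ∈ EE P Q c A) (hp1 : 1 ≤ p.1) : Disjoint (br P Q c s p '' A) A := by
  rw [Set.disjoint_left]
  rintro _ ⟨u, hu, rfl⟩ hv
  exact av_all h hN hp.1 hp.2 hu 0 le_rfl hp1 _ hv rfl

/-- a return which is not a first return is a composition of a first return and a shorter return -/
theorem split (h : PSys d P Q PA c s) (hN : Nice P Q c s A) {q : ℕ × ℂ}
    (hq : q ∈ RR P Q c A) (hq1 : q ∉ R1 P Q c A) :
    ∃ p ∈ R1 P Q c A, ∃ r ∈ RR P Q c A, q.1 = p.1 + r.1 ∧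
      ∀ u ∈ A, br P Q c s q u = br P Q c s p (br P Q c s r u) := by
  classical
  have hcA := hN.c_mem h.s0
  have hex : ∃ i, 1 ≤ i ∧ i < q.1 ∧ ∃ u ∈ A, (rat P Q)^[i] (q.2 : OnePoint ℂ) = (u : OnePoint ℂ) := by
    by_contra hno
    apply hq1
    refine ⟨hq.1, hq.2.1, hq.2.2, fun i hi1 hi2 u hu he => hno ⟨i, hi1, hi2, u, hu, he⟩⟩
  obtain ⟨hi1, hiq, y', hy'A, hy'⟩ := Nat.find_spec hex
  have hmin : ∀ j, 1 ≤ j → j < Nat.find hex → ∀ u ∈ A,
      (rat P Q)^[j] (q.2 : OnePoint ℂ) ≠ (u : OnePoint ℂ) := fun j hj1 hj u hu he =>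
    Nat.find_min hex hj ⟨hj1, hj.trans hiq, u, hu, he⟩
  set i := Nat.find hex with hi
  -- the shorter return
  have hrI : (q.1 - i, y') ∈ IX P Q c := by
    show (rat P Q)^[q.1 - i] (y' : OnePoint ℂ) = _
    rw [← hy', ← Function.iterate_add_apply, Nat.sub_add_cancel hiq.le]
    exact hq.1
  have hrR : (q.1 - i, y') ∈ RR P Q c A := ⟨hrI, by show 1 ≤ q.1 - i; omega, hy'A⟩
  -- the first return
  obtain ⟨z, hzI, hz⟩ := fibre h (hN.sub h.s0 hy'A) hy'
  have hz' : q.2 = br P Q c s (i, z) y' := OnePoint.coe_injective hz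
  have hzA : z ∈ A := by
    have h1 := hN.nice _ hzI y' hy'A (by rw [← hz']; exact hq.2.2) hcA
    rwa [br_c h hzI] at h1
  have hpR : (i, z) ∈ R1 P Q c A := by
    refine ⟨hzI, hi1, hzA, ?_⟩
    refine av_cen h hN hzI hy'A ?_
    rw [← hz']
    intro j hj1 hj2 u hu he
    exact hmin j hj1 hj2 u hu he
  refine ⟨(i, z), hpR, (q.1 - i, y'), hrR, by show q.1 = i + (q.1 - i); omega, ?_⟩
  obtain ⟨hcI, hc2⟩ := comp_c h hzI hrI hN.Ac (hN.sub h.s0) hcA
    ((maps_of h hN hrI hy'A).mono_right (hN.sub h.s0))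
  have h3 : ((i, z).1 + (q.1 - i, y').1, br P Q c s (i, z) (q.1 - i, y').2) = q := by
    refine Prod.ext ?_ ?_
    · show i + (q.1 - i) = q.1
      omega
    · exact hz'.symm
  rw [h3] at hc2
  exact hc2

/-- induction over the returns -/
theorem rr_induct (h : PSys d P Q PA c s) (hN : Nice P Q c s A) {Φ : (ℂ → ℂ) → Prop}
    (hcongr : ∀ g g' : ℂ → ℂ, EqOn g g' A → Φ g → Φ g')
    (h1 : ∀ p ∈ R1 P Q c A, Φ (br P Q c s p))
    (h2 : ∀ p ∈ R1 P Q c A, ∀ r ∈ RR P Q c A, Φ (br P Q c s r) →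
      Φ (fun u => br P Q c s p (br P Q c s r u))) :
    ∀ q ∈ RR P Q c A, Φ (br P Q c s q) := by
  have key : ∀ n : ℕ, ∀ q ∈ RR P Q c A, q.1 = n → Φ (br P Q c s q) := by
    intro n
    induction n using Nat.strong_induction_on with
    | _ n ih =>
    intro q hq hqn
    by_cases hq1 : q ∈ R1 P Q c A
    · exact h1 q hq1
    · obtain ⟨p, hp, r, hr, hqpr, he⟩ := split h hN hq hq1
      have hr' := ih r.1 (by have := hp.2.1; omega) r hr rfl
      exact hcongr _ _ (fun u hu => (he u hu).symm) (h2 p hp r hr hr')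
  exact fun q hq => key q.1 q hq rfl

/-- the preimages of the first entries: `f y = x`, `(n, x) ∈ EE` iff `(n + 1, y)` is a first entry or a first return -/
theorem succ_iff {n : ℕ} {x y : ℂ} (hxy : rat P Q (y : OnePoint ℂ) = (x : OnePoint ℂ)) :
    (n, x) ∈ EE P Q c A ↔ ((n + 1, y) ∈ EE P Q c A ∨ (n + 1, y) ∈ R1 P Q c A) := by
  have hI : (n, x) ∈ IX P Q c ↔ (n + 1, y) ∈ IX P Q c := by
    show (rat P Q)^[n] (x : OnePoint ℂ) = _ ↔ (rat P Q)^[n + 1] (y : OnePoint ℂ) = _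
    rw [Function.iterate_succ_apply, hxy]
  have hA : Av P Q A 0 n x ↔ Av P Q A 1 (n + 1) y := by
    constructor
    · intro h i hi1 hi2 u hu he
      obtain ⟨j, rfl⟩ := Nat.exists_eq_add_of_le hi1
      rw [Nat.add_comm, Function.iterate_succ_apply, hxy] at he
      exact h j (Nat.zero_le _) (by omega) u hu he
    · intro h i _ hi2 u hu he
      refine h (i + 1) (by omega) (by omega) u hu ?_
      rw [Function.iterate_succ_apply, hxy]
      exact he
  constructor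
  · rintro ⟨h1, h2⟩
    by_cases hy : y ∈ A
    · exact Or.inr ⟨hI.1 h1, by show 1 ≤ n + 1; omega, hy, hA.1 h2⟩
    · left
      refine ⟨hI.1 h1, fun i _ hi u hu he => ?_⟩
      rcases Nat.eq_zero_or_pos i with rfl | hi0
      · have h3 : y = u := OnePoint.coe_injective he
        rw [h3] at hy
        exact hy hu
      · exact hA.1 h2 i hi0 hi u hu he
  · rintro (⟨h1, h2⟩ | ⟨h1, -, -, h2⟩)
    · exact ⟨hI.2 h1, hA.2 fun i hi1 hi => h2 i (Nat.zero_le _) hi⟩
    · exact ⟨hI.2 h1, hA.2 h2⟩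

/-- first entries of positive order are not in `A`, first returns are -/
theorem ee_r1 {p : ℕ × ℂ} (hp : p ∈ EE P Q c A) (hp1 : 1 ≤ p.1) : p ∉ R1 P Q c A :=
  fun h => hp.2 0 le_rfl hp1 p.2 h.2.2.1 rfl

end Pool.Agent.H1.PU
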