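import Pool.Agent.H1.PU.Ret
import Pool.Agent.H1.PU.Koe
import Pool.Agent.H1.RO.Defs
import Pool.Agent.H61.TT.Fib

/-!
# Module RetB: the first return branches form a return system; countability

`ix_cnt`: the index set is countable (the points of level `n + 1` are in the fibres of the points of level `n`). `rsys`: see `rr_maps`, `r1_disj` (Ret), `koe_small`.
-/

set_option autoImplicit false

open Filter Topology Polynomial OnePoint Metric Set MeasureTheory

namespace Pool.Agent.H1.PU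

open Pool.Agent.H44.Fatou Pool.Agent.H32.BT Pool.Agent.H80.AJ Pool.Agent.H35.EX Pool.Agent.H61.TT

variable {d : ℕ} {P Q : Polynomial ℂ} {PA : Set (OnePoint ℂ)} {c : ℂ} {s : ℝ}

variable {A : Set ℂ}

private theorem lev_cnt (h : PSys d P Q PA c s) (n : ℕ) :
    {y : ℂ | (rat P Q)^[n] (y : OnePoint ℂ) = (c : OnePoint ℂ)}.Countable := by
  induction n with
  | zero =>
    have h1 : {y : ℂ | (rat P Q)^[0] (y : OnePoint ℂ) = (c : OnePoint ℂ)} ⊆ {c} := by
      intro y hy
      exact OnePoint.coe_injective hy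
    exact (countable_singleton c).mono h1
  | succ n ih =>
    have h1 : {y : ℂ | (rat P Q)^[n + 1] (y : OnePoint ℂ) = (c : OnePoint ℂ)} ⊆
        ⋃ z ∈ {y : ℂ | (rat P Q)^[n] (y : OnePoint ℂ) = (c : OnePoint ℂ)}, (fs P Q z : Set ℂ) := by
      intro y hy
      have hy' : (rat P Q)^[n] (rat P Q (y : OnePoint ℂ)) = (c : OnePoint ℂ) := by
        rw [← Function.iterate_succ_apply]
        exact hy
      obtain ⟨z, hz⟩ := pre_fin h (c_mem h) hy'
      rw [hz] at hy'
      have hQ : Q.eval y ≠ 0 := by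
        intro h0
        rw [rat_coe] at hz
        unfold pt at hz
        rw [if_pos h0] at hz
        exact OnePoint.infty_ne_coe _ hz
      rw [rat_coe_of_ne hQ] at hz
      simp only [mem_iUnion]
      refine ⟨z, hy', ?_⟩
      rw [Finset.mem_coe, mem_fs h.rd]
      exact ⟨hQ, OnePoint.coe_injective hz⟩
    exact (ih.biUnion fun z _ => (fs P Q z).finite_toSet.countable).mono h1

theorem ix_cnt (h : PSys d P Q PA c s) : (IX P Q c).Countable := by
  have h1 : IX P Q c ⊆ ⋃ n : ℕ, (Prod.mk n) '' {y : ℂ | (rat P Q)^[n] (y : OnePoint ℂ) = (c : OnePoint ℂ)} := by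
    rintro ⟨n, y⟩ hp
    exact mem_iUnion.2 ⟨n, y, hp, rfl⟩
  exact (countable_iUnion fun n => (lev_cnt h n).image _).mono h1

theorem ret_map (h : PSys d P Q PA c s) (hA : Nice P Q c s A) {p : ℕ × ℂ} (hp : p ∈ RR P Q c A) :
    MapsTo (br P Q c s p) A A := rr_maps h hA hp

theorem rsys (h : PSys d P Q PA c s) (hA : Nice P Q c s A) :
    Pool.Agent.H1.RO.RSys (R1 P Q c A) c s A (g1 P Q c s A) := by
  have hs := h.s0
  have h8 : ball c (8 * s) ⊆ ball c (rho s) := ball_subset_ball (by have := rho_ge hs; linarith)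
  have hc8 : c ∈ ball c (8 * s) := mem_ball_self (by linarith)
  refine ⟨hs, hA.Ao, hA.Ac, (ball_subset_ball (by linarith)).trans hA.bA,
    hA.As.trans (ball_subset_ball (by linarith)), fun p => (br_diff h p.2.1).mono h8,
    fun p => (br_inj h p.2.1).mono h8, fun p u hu => ?_, fun p => rr_maps h hA (R1_sub_RR p.2), ?_⟩
  · have h1 : p.1.2 ∈ ball c (11 / 10 * s) := hA.As p.2.2.2.1
    have h2 : br P Q c s p.1 c ∈ ball c (8 * s) := by
      rw [br_c h p.2.1]
      exact ball_subset_ball (by linarith) h1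
    have h3 := koe_small h p.2.1 p.2.2.1 hc8 h2 hu hc8
    rw [br_c h p.2.1] at h3
    rw [mem_ball, dist_eq_norm] at h1 ⊢
    show ‖br P Q c s p.1 u - c‖ < 2 * s
    calc ‖br P Q c s p.1 u - c‖ = ‖(br P Q c s p.1 u - p.1.2) + (p.1.2 - c)‖ := by congr 1; ring
      _ ≤ ‖br P Q c s p.1 u - p.1.2‖ + ‖p.1.2 - c‖ := norm_add_le _ _
      _ < 2 * s := by linarith
  · intro p q hpq
    exact r1_disj h hA p.2 q.2 (fun h1 => hpq (Subtype.ext h1))

/-- a return is a first return or a composition of a first return and a shorter return -/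
theorem rr_dec (h : PSys d P Q PA c s) (hA : Nice P Q c s A) {p : ℕ × ℂ} (hp : p ∈ RR P Q c A) :
    p ∈ R1 P Q c A ∨ ∃ q ∈ R1 P Q c A, ∃ p' ∈ RR P Q c A, p'.1 < p.1 ∧
      EqOn (br P Q c s p) (fun u => br P Q c s q (br P Q c s p' u)) A := by
  by_cases h1 : p ∈ R1 P Q c A
  · exact Or.inl h1
  · obtain ⟨q, hq, r, hr, hqr, he⟩ := split h hA hp h1
    exact Or.inr ⟨q, hq, r, hr, by have := hq.2.1; omega, fun u hu => he u hu⟩

end Pool.Agent.H1.PU
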