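import Pool.Agent.H1.PU.Dat
import Pool.Agent.H1.PU.Unb
import Pool.Agent.H1.PU.Vee

/-!
# THEOREM P, unified version, module Vip: preperiodic orbits close to the critical value

`vip`: there is a scale `s1 ≤ s / 16` such that arbitrarily close to the critical value there are points whose orbits avoid `ball c (8 s1)`, contain no critical point and land at `x 0`.
PROOF. `JP.tr` (`z1 = c`, `z2 = x 0`, `ε = s`): `w ∈ ball c s`, `f^m w = x 0`. `w ≠ c` as the orbit of `c` is infinite; `x 0 ∉ PA`, so no point of the orbit of `w` is in `PA` (before `x 0`: forward invariance; the cycle: it comes back to `x 0`), so the orbit is finite (`∞ ∈ PA`),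
without critical points (their images are in `PA`), and does not contain `c` (`f c ∈ PA`). The orbit of `w` is a finite set: `s1`. `vee_JP`.
-/

set_option autoImplicit false

open Filter Topology Polynomial OnePoint Metric Set MeasureTheory

namespace Pool.Agent.H1.PU

open Pool.Agent.H44.Fatou Pool.Agent.H32.BT Pool.Agent.H80.AJ Pool.Agent.H35.EX Pool.Agent.H61.TT
open Pool.Agent.H79.Eul Pool.Agent.H79.Par Pool.Agent.H47.NN

private theorem vip_cyc {P Q : Polynomial ℂ} {p : ℕ} {x : ℕ → ℂ} {m : ℂ} (h : Cyc P Q p x m) :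
    ∀ i ≤ p, (rat P Q)^[i] ((x 0 : ℂ) : OnePoint ℂ) = ((x i : ℂ) : OnePoint ℂ) := by
  intro i
  induction i with
  | zero => intro _; rfl
  | succ i ih =>
    intro hi
    rw [Function.iterate_succ_apply', ih (by omega), Pool.Agent.H44.Fatou.rat_coe_of_ne (h.ne i (by omega)),
      h.step i (by omega)]

/-- the orbit of a point which lands at `x 0` -/
private theorem vip_orb {d : ℕ} {v : E d} {PA : Set (OnePoint ℂ)} {c : ℂ} {s : ℝ}
    {J : Set (OnePoint ℂ)} {p : ℕ} {x : ℕ → ℂ} {m : ℂ} (h : PD2 v PA c s J p x m) {a : ℂ} {n : ℕ}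
    (ha : (rat (pol v.1) (pol v.2))^[n] (a : OnePoint ℂ) = ((x 0 : ℂ) : OnePoint ℂ)) :
    ∃ z : ℕ → ℂ, Prep (pol v.1) (pol v.2) n p z ∧
      (∀ i, (rat (pol v.1) (pol v.2))^[i] (a : OnePoint ℂ) = ((z i : ℂ) : OnePoint ℂ)) ∧ z n = x 0 ∧
        z 0 = a ∧ ∀ i, z i ≠ c := by
  set f := rat (pol v.1) (pol v.2) with hf
  have hxp : f^[p] ((x 0 : ℂ) : OnePoint ℂ) = ((x 0 : ℂ) : OnePoint ℂ) := by
    rw [vip_cyc h.cyc p le_rfl, h.cyc.per]
  have hxk : ∀ k : ℕ, f^[k * p] ((x 0 : ℂ) : OnePoint ℂ) = ((x 0 : ℂ) : OnePoint ℂ) := by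
    intro k
    induction k with
    | zero => simp
    | succ k ih => rw [Nat.succ_mul, Function.iterate_add_apply, hxp, ih]
  -- every point of the orbit comes back to `x 0`
  have hback : ∀ i, ∃ j, f^[j] (f^[i] (a : OnePoint ℂ)) = ((x 0 : ℂ) : OnePoint ℂ) := by
    intro i
    have h1 : i ≤ n + i * p := by
      have := Nat.le_mul_of_pos_right i h.hp
      omega
    refine ⟨n + i * p - i, ?_⟩
    rw [← Function.iterate_add_apply, Nat.sub_add_cancel h1, Nat.add_comm n, Function.iterate_add_apply,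
      ha, hxk]
  have hPA : ∀ i, f^[i] (a : OnePoint ℂ) ∉ PA := by
    intro i hi
    obtain ⟨j, hj⟩ := hback i
    apply h.xPA
    rw [← hj]
    exact iter_mem h.sys.sys.inv hi j
  have hfin : ∀ i, ∃ z : ℂ, f^[i] (a : OnePoint ℂ) = (z : OnePoint ℂ) := by
    intro i
    have h1 : f^[i] (a : OnePoint ℂ) ≠ ∞ := by
      intro h1
      apply hPA i
      rw [h1]
      exact h.sys.sys.inf
    obtain ⟨z, hz⟩ := OnePoint.ne_infty_iff_exists.1 h1
    exact ⟨z, hz.symm⟩
  choose z hz using hfin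
  have hq : ∀ i, (pol v.2).eval (z i) ≠ 0 := by
    intro i h0
    have h1 := hz (i + 1)
    rw [Function.iterate_succ_apply', hz i, hf, Pool.Agent.H44.Fatou.rat_coe, h0] at h1
    unfold Pool.Agent.H44.Fatou.pt at h1
    rw [if_pos rfl] at h1
    exact OnePoint.infty_ne_coe _ h1
  have hst : ∀ i, gg (pol v.1) (pol v.2) (z i) = z (i + 1) := by
    intro i
    have h1 := hz (i + 1)
    rw [Function.iterate_succ_apply', hz i, hf, Pool.Agent.H44.Fatou.rat_coe_of_ne (hq i)] at h1
    exact OnePoint.coe_injective h1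
  have hz0 : z 0 = a := by
    have h1 := hz 0
    exact (OnePoint.coe_injective h1).symm
  have hzn : z n = x 0 := by
    have h1 := hz n
    rw [ha] at h1
    exact (OnePoint.coe_injective h1).symm
  have hzc : ∀ i, i ≤ p → z (n + i) = x i := by
    intro i hi
    have h1 := hz (n + i)
    rw [Nat.add_comm, Function.iterate_add_apply, ha, vip_cyc h.cyc i hi, Nat.add_comm] at h1
    exact (OnePoint.coe_injective h1).symm
  refine ⟨z, ⟨h.hp, hq, hst, ?_, ?_, ?_⟩, hz, hzn, hz0, ?_⟩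
  · intro i h0
    have h1 : (ww (pol v.1) (pol v.2)).eval (z i) = 0 := by
      unfold Pool.Agent.H61.TT.dg at h0
      rcases div_eq_zero_iff.1 h0 with h2 | h2
      · exact h2
      · exact absurd h2 (pow_ne_zero 2 (hq i))
    have h2 : IsCrit f ((z i : ℂ) : OnePoint ℂ) := crit_of_wr h.sys.sys.cop h.sys.sys.deg h1
    have h3 := h.sys.sys.crit _ h2
    refine hPA (i + 1) ?_
    rw [Function.iterate_succ_apply', hz i]
    exact h3
  · intro i hi
    have h1 : f^[i + p] (a : OnePoint ℂ) = f^[i] (a : OnePoint ℂ) := by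
      obtain ⟨j, rfl⟩ := Nat.exists_eq_add_of_le hi
      rw [show n + j + p = j + (p + n) by omega, Function.iterate_add_apply,
        Function.iterate_add_apply f p n, ha, hxp, Nat.add_comm n j, Function.iterate_add_apply, ha]
    rw [hz, hz] at h1
    exact OnePoint.coe_injective h1
  · have h1 : ∏ i ∈ Finset.range p, Pool.Agent.H61.TT.dg (pol v.1) (pol v.2) (z (n + i)) = m := by
      rw [← h.cyc.mul]
      refine Finset.prod_congr rfl fun i hi => ?_
      rw [hzc i (Finset.mem_range.1 hi).le]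
      rfl
    rw [h1]
    exact h.rep
  · intro i h0
    refine hPA (i + 1) ?_
    rw [Function.iterate_succ_apply', hz i, h0]
    exact h.sys.fc

theorem vip {d : ℕ} {v : E d} {PA : Set (OnePoint ℂ)} {c : ℂ} {s : ℝ} {J : Set (OnePoint ℂ)} {p : ℕ}
    {x : ℕ → ℂ} {m : ℂ} (h : PD2 v PA c s J p x m) : ∃ s1 : ℝ, 0 < s1 ∧ 16 * s1 ≤ s ∧
      ∀ ε > 0, ∃ (n0 N : ℕ) (z : ℕ → ℂ), Prep (pol v.1) (pol v.2) n0 N z ∧
        (∀ i, z i ∈ LAM (pol v.1) (pol v.2) c s1) ∧ (∃ k, z k = x 0) ∧
          ‖z 0 - gg (pol v.1) (pol v.2) c‖ < ε := by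
  obtain ⟨n, w, hws, hw⟩ := h.jp.tr c h.jp.cJ _ h.xJ s h.sys.s0
  obtain ⟨y, hy, hy1, -, -, hyc⟩ := vip_orb h hw
  -- the distance of the orbit of `w` from `c`
  obtain ⟨t, ht, ht1⟩ : ∃ t > 0, ∀ i < n + p, t ≤ ‖y i - c‖ := by
    have hne : (Finset.range (n + p)).Nonempty := ⟨0, Finset.mem_range.2 (by have := h.hp; omega)⟩
    obtain ⟨i0, -, h2⟩ := Finset.exists_min_image (Finset.range (n + p)) (fun i => ‖y i - c‖) hne
    exact ⟨‖y i0 - c‖, norm_pos_iff.2 (sub_ne_zero.2 (hyc i0)), fun i hi => h2 i (Finset.mem_range.2 hi)⟩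
  have ht2 : ∀ i, t ≤ ‖y i - c‖ := by
    intro i
    induction i using Nat.strong_induction_on with
    | _ i ih =>
      by_cases hi : i < n + p
      · exact ht1 i hi
      · have hp := h.hp
        have h3 := hy.per (i - p) (by omega)
        rw [Nat.sub_add_cancel (by omega)] at h3
        rw [h3]
        exact ih (i - p) (by omega)
  refine ⟨min (s / 16) (t / 8), lt_min (by have := h.sys.s0; positivity) (by positivity), ?_, ?_⟩
  · have := min_le_left (s / 16) (t / 8)
    linarith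
  have hwL : w ∈ LAM (pol v.1) (pol v.2) c (min (s / 16) (t / 8)) := by
    intro i u hu h3
    rw [hy1 i] at h3
    have h4 := OnePoint.coe_injective h3
    rw [mem_ball, dist_eq_norm, ← h4] at hu
    have h5 := ht2 i
    have h6 := min_le_right (s / 16) (t / 8)
    linarith
  intro ε hε
  obtain ⟨a, k, ha, hk, haL⟩ := vee_JP h.sys h.crt h.jp (by
    have := min_le_left (s / 16) (t / 8)
    linarith) hws hwL ε hε
  have hk2 : (rat (pol v.1) (pol v.2))^[n + k] (a : OnePoint ℂ) = ((x 0 : ℂ) : OnePoint ℂ) := by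
    rw [Function.iterate_add_apply, hk, hw]
  obtain ⟨z, hz, hz1, hz2, hz3, -⟩ := vip_orb h hk2
  refine ⟨n + k, p, z, hz, ?_, ⟨n + k, hz2⟩, by rw [hz3]; exact ha⟩
  intro i j u hu h3
  refine haL (j + i) u hu ?_
  rw [Function.iterate_add_apply, hz1 i]
  exact h3

end Pool.Agent.H1.PU
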