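import Pool.Agent.H1.PU.Cty
import Pool.Agent.H1.PU.Idn
import Pool.Agent.H1.PU.Nic
import Pool.Agent.H1.PU.Fld
import Pool.Agent.H50.ST.XiA
import Pool.Agent.H61.TT.Fib

/-!
# Module Xi: the cohomological equation

PROOFS. `pa_lam`: `f^n a ∈ PA` (`iter_mem`) and `ball c (8 s) ⊆ ball c (rho s)` is off `PA`. `lam_step`: `f^n (f a) = f^(n+1) a`. `lam_inf`: the points `f^(n+1) c` are finite (`ninf`), distinct (`inf`), in `PA`; `Q` has finitely many zeros. `xi_main`: `nic` gives `A`, `r1_sys`, `opa` (`δ = 3 s`): the first alternative is `Flt`, excluded by `flat`; the second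
is a functional `Λ` (`Fnl`). `xi_one`, `xi_two` (H50/ST/XiA) with `S = {a ∈ LAM, Q a ≠ 0}`, `E = EA`, `K = KA` (`idn`, `ea_bd`; `KA z` is bounded on `ball c (6 s)` for `z ∈ LAM`: `0`, `1`, `z` are not in `ball c (8 s)`; `Lop g1 (KA z)` is bounded by `opa`'s estimate or directly). `Ξ a = Λ (EA a)`.
MULTIPLICITY: let `m ≥ 1` be the order of the zero of `ww P Q` at `c`, `k = m - 1`: take the functional with `Λ (F - Lop g F) = iteratedDeriv k F c` (`opa` for the `k`-th Taylor coefficient); `κ = ww^(m)(c) / (m Q(c)^2)`. Continuity at `v = gg c` (`v ∈ LAM`, `≠ 0, 1`): `ea_cont` and `‖Λ F‖ ≤ C₀ M`.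
-/

set_option autoImplicit false

open Filter Topology Polynomial OnePoint Metric Set MeasureTheory

namespace Pool.Agent.H1.PU

open Pool.Agent.H44.Fatou Pool.Agent.H32.BT Pool.Agent.H80.AJ Pool.Agent.H35.EX Pool.Agent.H61.TT

variable {d : ℕ} {P Q : Polynomial ℂ} {PA : Set (OnePoint ℂ)} {c : ℂ} {s : ℝ}

private theorem xi_off8 (h : PSys d P Q PA c s) {u : ℂ} (hu : u ∈ ball c (8 * s)) :
    (u : OnePoint ℂ) ∉ PA := by
  apply h.off
  refine ball_subset_ball ?_ hu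
  rw [rho]
  have h1 := one_le_KK
  have h2 := h.s0
  nlinarith

theorem pa_lam (h : PSys d P Q PA c s) {a : ℂ} (ha : (a : OnePoint ℂ) ∈ PA) : a ∈ LAM P Q c s := by
  intro n u hu he
  apply xi_off8 h hu
  rw [← he]
  exact iter_mem h.sys.inv ha n

theorem lam_step (P Q : Polynomial ℂ) (c : ℂ) (s : ℝ) {a : ℂ} (ha : a ∈ LAM P Q c s) (hQ : Q.eval a ≠ 0) :
    gg P Q a ∈ LAM P Q c s := by
  intro n u hu he
  apply ha (n + 1) u hu
  rw [Function.iterate_succ_apply, rat_coe_of_ne hQ]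
  exact he

theorem crt_q (h : PSys d P Q PA c s) (hc : Crt P Q c) :
    Q.eval c ≠ 0 ∧ ((gg P Q c : ℂ) : OnePoint ℂ) ∈ PA := by
  have hQ : Q.eval c ≠ 0 := by
    intro h0
    apply hc.ninf 1 0
    rw [Function.iterate_one, rat_coe, h0]
    unfold pt
    rw [if_pos rfl]
    rfl
  refine ⟨hQ, ?_⟩
  have h1 := h.fc
  rwa [rat_coe_of_ne hQ] at h1

theorem lam_inf (h : PSys d P Q PA c s) (hc : Crt P Q c) :
    {z : ℂ | z ∈ LAM P Q c s ∧ Q.eval z ≠ 0}.Infinite := by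
  have hy : ∀ n : ℕ, ∃ y : ℂ, (rat P Q)^[n + 1] (c : OnePoint ℂ) = (y : OnePoint ℂ) := by
    intro n
    have h1 := hc.ninf (n + 1) 0
    obtain ⟨y, hy⟩ := OnePoint.ne_infty_iff_exists.1 h1
    exact ⟨y, hy.symm⟩
  choose y hy using hy
  have hinj : Function.Injective y := by
    intro m n hmn
    rcases lt_trichotomy m n with h1 | h1 | h1
    · exact absurd (by rw [hy m, hy n, hmn]) (hc.inf (m + 1) (n + 1) (by omega))
    · exact h1
    · exact absurd (by rw [hy m, hy n, hmn]) (hc.inf (n + 1) (m + 1) (by omega))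
  have hQ0 : Q ≠ 0 := by
    rintro rfl
    exact (crt_q h hc).1 eval_zero
  have hfin : {z : ℂ | Q.eval z = 0}.Finite := by
    have h1 : {z : ℂ | Q.eval z = 0} = {z : ℂ | Q.IsRoot z} := rfl
    rw [h1]
    exact Polynomial.finite_setOfPred_isRoot hQ0
  have hinf := (Set.infinite_range_of_injective hinj).sdiff hfin
  refine hinf.mono ?_
  rintro _ ⟨⟨n, rfl⟩, hn⟩
  refine ⟨pa_lam h ?_, hn⟩
  rw [← hy n, Function.iterate_succ_apply]
  exact iter_mem h.sys.inv h.fc n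

private theorem xi_lop {ι : Type*} {c : ℂ} {δ : ℝ} (hδ : 0 < δ) {g : ι → ℂ → ℂ} {u : ι → ℝ}
    (hs : Pool.H50.ST.Sys c δ g u) {F : ℂ → ℂ} {M : ℝ} (hF : Pool.H50.ST.Bd c (2 * δ) M F) :
    ∃ N : ℝ, Pool.H50.ST.Bd c (2 * δ) N (Pool.H50.ST.Lop g F) := by
  have hc : c ∈ ball c (2 * δ) := mem_ball_self (by linarith)
  have hM : 0 ≤ M := (norm_nonneg _).trans (hF.2 c hc)
  have hmap : ∀ i, ∀ w ∈ ball c (2 * δ), g i w ∈ ball c (2 * δ) := fun i w hw =>
    ball_subset_ball (by linarith) (hs.mp i w hw)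
  have h1 : ∀ i, ∀ w ∈ ball c (2 * δ), ‖deriv (g i) w ^ 2 * F (g i w)‖ ≤ M * u i := by
    intro i w hw
    rw [norm_mul, norm_pow, mul_comm]
    exact mul_le_mul (hF.2 _ (hmap i w hw)) (hs.dv i w hw) (by positivity) hM
  have hsu : Summable fun i => M * u i := hs.su.mul_left M
  refine ⟨∑' i, M * u i, ?_, ?_⟩
  · refine Complex.differentiableOn_tsum_of_summable_norm hsu (fun i => ?_) isOpen_ball h1
    have h2 : DifferentiableOn ℂ (deriv (g i)) (ball c (2 * δ)) := (hs.df i).deriv isOpen_ball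
    exact (h2.pow 2).mul (hF.1.comp (hs.df i) (hmap i))
  · intro w hw
    exact tsum_of_norm_bounded hsu.hasSum fun i => h1 i w hw

/-- the kernel is bounded -/
private theorem xi_ka (h : PSys d P Q PA c s) {z : ℂ} (hz : z ∈ LAM P Q c s) :
    ∃ M, Pool.H50.ST.Bd c (6 * s) M (KA z) := by
  have hs := h.s0
  have hK := one_le_KK
  have hr : 100 * s ≤ rho s := by
    rw [rho]
    nlinarith
  have h0 : rho s ≤ ‖(0 : ℂ) - c‖ := by
    by_contra hcon
    exact h.off 0 (by rw [mem_ball, dist_eq_norm]; exact not_le.1 hcon) h.z0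
  have h1 : rho s ≤ ‖(1 : ℂ) - c‖ := by
    by_contra hcon
    exact h.off 1 (by rw [mem_ball, dist_eq_norm]; exact not_le.1 hcon) h.z1
  have h2 : 8 * s ≤ ‖z - c‖ := by
    by_contra hcon
    exact hz 0 z (by rw [mem_ball, dist_eq_norm]; exact not_le.1 hcon) rfl
  have key : ∀ b : ℂ, 8 * s ≤ ‖b - c‖ → ∀ w ∈ ball c (6 * s), s ≤ ‖w - b‖ := by
    intro b hb w hw
    rw [mem_ball, dist_eq_norm] at hw
    have e : b - c = (w - c) - (w - b) := by ring
    have h3 := norm_sub_le (w - c) (w - b)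
    rw [← e] at h3
    linarith
  have hden : ∀ w ∈ ball c (6 * s), s * s * s ≤ ‖w * (w - 1) * (w - z)‖ := by
    intro w hw
    have h3 := key 0 (by linarith) w hw
    have h4 := key 1 (by linarith) w hw
    have h5 := key z h2 w hw
    rw [sub_zero] at h3
    rw [norm_mul, norm_mul]
    gcongr
  refine ⟨‖z * (z - 1)‖ / (s * s * s), ?_, ?_⟩
  · intro w hw
    have h3 := hden w hw
    have h4 : w * (w - 1) * (w - z) ≠ 0 := by
      rw [← norm_pos_iff]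
      exact lt_of_lt_of_le (by positivity) h3
    have h5 : DifferentiableAt ℂ (fun w : ℂ => z * (z - 1) / (w * (w - 1) * (w - z))) w := by
      refine DifferentiableAt.div (by fun_prop) (by fun_prop) h4
    exact h5.differentiableWithinAt
  · intro w hw
    rw [KA, norm_div]
    gcongr
    exact hden w hw

/-- **the cohomological equation** -/
theorem xi_main (h : PSys d P Q PA c s) (hc : Crt P Q c) {J : Set (OnePoint ℂ)} (hJ : JP P Q c J) :
    ∃ (Ξ : ℂ → ℂ) (η : Polynomial ℂ) (κ : ℂ), κ ≠ 0 ∧ η.natDegree ≤ 2 * d ∧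
      (∀ a ∈ LAM P Q c s, Q.eval a ≠ 0 →
        Ξ (gg P Q a) = dg P Q a * Ξ a + η.eval a / Q.eval a ^ 2) ∧
      η.eval c / Q.eval c ^ 2 = Ξ (gg P Q c) + κ ∧
      ∀ ε : ℝ, 0 < ε → ∃ ε' : ℝ, 0 < ε' ∧ ∀ a ∈ LAM P Q c s, ‖a - gg P Q c‖ < ε' →
        ‖Ξ a - Ξ (gg P Q c)‖ ≤ ε := by
  have hs := h.s0
  obtain ⟨hQ, hv⟩ := crt_q h hc
  obtain ⟨A, hA⟩ : ∃ A, Nice P Q c s A := ⟨_, nice_NA h hc.w⟩
  have hinf := lam_inf h hc
  obtain ⟨u, hu⟩ := r1_sys h hA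
  -- the multiplicity of the critical point
  obtain ⟨W, hW, hWd⟩ := Polynomial.exists_eq_pow_rootMultiplicity_mul_and_not_dvd (ww P Q)
    (ww_ne h.rd) c
  have hm : 0 < (ww P Q).rootMultiplicity c :=
    (Polynomial.rootMultiplicity_pos (ww_ne h.rd)).2 hc.w
  obtain ⟨k, hk⟩ := Nat.exists_eq_add_of_le' hm
  have hWc : W.eval c ≠ 0 := fun h0 => hWd (dvd_iff_isRoot.2 h0)
  rw [hk] at hW
  have e6 : 2 * (3 * s) = 6 * s := by ring
  rcases Pool.H50.ST.opak (by linarith : 0 < 3 * s) hu k with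
    ⟨φ, M, hB, hne, hfix⟩ | ⟨Λ, C, hC, h1, h2, h3, h4, h5⟩
  · exfalso
    rw [e6] at hB hfix
    exact flat h hA ⟨⟨M, hB⟩, hne, hfix⟩ hc hJ
  have hF : Pool.H50.ST.Fnl c (3 * s) (g1 P Q c s A) Λ C k := ⟨hC, h1, h2, h3, h4, h5⟩
  obtain ⟨C1, hC1, hea⟩ := ea_bd h hA
  have hEA : ∀ z ∈ LAM P Q c s, ∃ M, Pool.H50.ST.Bd c (2 * (3 * s)) M (EA P Q c s A z) := by
    intro z hz
    rw [e6]
    exact ⟨_, (hea z hz).1⟩
  have hKA : ∀ z ∈ LAM P Q c s, ∃ M, Pool.H50.ST.Bd c (2 * (3 * s)) M (KA z) := by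
    intro z hz
    rw [e6]
    exact xi_ka h hz
  have hvL := pa_lam h hv
  obtain ⟨q, hq, hq1, hq2⟩ := Pool.H50.ST.xi_one hF (d := d) (a := P) (b := Q)
    (E := EA P Q c s A) (K := KA) (S := {z : ℂ | z ∈ LAM P Q c s ∧ Q.eval z ≠ 0}) hinf
    (fun z hz => hz.2) (fun z hz => hEA z hz.1)
    (fun z hz => hEA _ (lam_step P Q c s hz.1 hz.2))
    (fun z hz => hKA z hz.1)
    (fun z hz => by
      obtain ⟨M, hM⟩ := hKA z hz.1
      exact xi_lop (by linarith) hu hM) hQ (hEA _ hvL)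
    (fun w hw => by
      rw [e6] at hw
      exact idn h hA hc hinf hw)
  have hc8 : c ∈ ball c (8 * s) := mem_ball_self (by linarith)
  have hc0 : c ≠ 0 := by
    intro h0
    exact xi_off8 h hc8 (by rw [h0]; exact h.z0)
  have hc1 : c ≠ 1 := by
    intro h0
    exact xi_off8 h hc8 (by rw [h0]; exact h.z1)
  obtain ⟨η, κ, hκ, hη, hη1, hη2⟩ := Pool.H50.ST.xi_two h.rd hQ hW hWc hc0 hc1
    (Ξ := fun z => Λ (EA P Q c s A z)) (S := {z : ℂ | z ∈ LAM P Q c s ∧ Q.eval z ≠ 0})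
    (fun z hz => hz.2) (fun hcS => hcS.1 0 c hc8 rfl) hq hq1 hq2
  refine ⟨fun z => Λ (EA P Q c s A z), η, κ, hκ, hη, fun z hz hzQ => hη1 z ⟨hz, hzQ⟩, hη2, ?_⟩
  intro ε hε
  obtain ⟨δ, hδ, hcon⟩ := ea_cont h hA hvL hc.v0 hc.v1 (ε := ε / (C + 1)) (by positivity)
  refine ⟨δ, hδ, fun a ha hav => ?_⟩
  have h6 := hcon a ha hav
  obtain ⟨M1, hM1⟩ := hEA a ha
  obtain ⟨M2, hM2⟩ := hEA _ hvL
  have h7 : Λ (fun w => EA P Q c s A a w + (-1) * EA P Q c s A (gg P Q c) w) =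
      Λ (EA P Q c s A a) + (-1) * Λ (EA P Q c s A (gg P Q c)) := by
    rw [hF.add _ _ _ _ hM1 (Pool.H50.ST.bd_mul (-1) hM2), hF.smul _ _ _ hM2]
  have h8 : ‖Λ (fun w => EA P Q c s A a w + (-1) * EA P Q c s A (gg P Q c) w)‖ ≤
      C * (ε / (C + 1)) := by
    refine hF.bd _ _ (by positivity)
      ⟨(Pool.H50.ST.bd_add hM1 (Pool.H50.ST.bd_mul (-1) hM2)).1, ?_⟩
    intro w hw
    rw [e6] at hw
    have h9 := h6 w hw
    have e : EA P Q c s A a w + (-1) * EA P Q c s A (gg P Q c) w =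
      EA P Q c s A a w - EA P Q c s A (gg P Q c) w := by ring
    show ‖EA P Q c s A a w + (-1) * EA P Q c s A (gg P Q c) w‖ ≤ _
    rw [e]
    exact h9
  have h9 : Λ (EA P Q c s A a) - Λ (EA P Q c s A (gg P Q c)) =
      Λ (EA P Q c s A a) + (-1) * Λ (EA P Q c s A (gg P Q c)) := by ring
  show ‖Λ (EA P Q c s A a) - Λ (EA P Q c s A (gg P Q c))‖ ≤ ε
  rw [h9, ← h7]
  refine h8.trans ?_
  rw [mul_div_assoc', div_le_iff₀ (by positivity)]
  nlinarith

end Pool.Agent.H1.PU
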